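import Pool.Agent.Helper66_Germ.Alg

/-!
# The germ of `f_0` is `𝒜`-finite
-/

set_option autoImplicit false
open Set Metric Filter Topology

namespace Pool.Agent.Helper66_Germ

/-! ### Hadamard's lemma -/

lemma holAt_update {n : ℕ} (j : Fin n) :
    HolAt (fun p : (Fin n → ℂ) × ℂ => Function.update p.1 j p.2) (0, 0) := by
  apply HolAt.pi
  intro i
  by_cases h : i = j
  · subst h
    simp only [Function.update_self]
    exact holAt_snd _
  · simp only [Function.update_of_ne h]
    exact (holAt_apply i _).comp (holAt_fst _)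

lemma hadamard_one {n : ℕ} {g : (Fin n → ℂ) → ℂ} (hg : HolAt g 0) (j : Fin n) :
    ∃ G : (Fin n → ℂ) → ℂ, HolAt G 0 ∧
      ∀ᶠ Y in 𝓝 0, g Y = g (Function.update Y j 0) + Y j * G Y := by
  have hh : HolAt (fun p : (Fin n → ℂ) × ℂ => g (Function.update p.1 j p.2)) (0, 0) := by
    refine hg.comp_of_eq (holAt_update j) ?_
    simp
  obtain ⟨H, Q, hH, hQ, hdiv⟩ := division 1 hh
  refine ⟨fun Y => Q (Y, 0, Y j), ?_, ?_⟩
  · refine hQ.comp_of_eq (g := fun Y : Fin n → ℂ => (Y, (0 : Fin 1 → ℂ), Y j)) ?_ ?_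
    · exact (holAt_id _).prodMk ((holAt_const _ _).prodMk (holAt_apply j _))
    · simp
  · have t1 : Tendsto (fun Y : Fin n → ℂ => (Y, (0 : Fin 1 → ℂ), Y j)) (𝓝 0) (𝓝 (0, 0, 0)) :=
      tendsto_id.prodMk_nhds (tendsto_const_nhds.prodMk_nhds
        ((continuous_apply j).tendsto' _ _ rfl))
    have t2 : Tendsto (fun Y : Fin n → ℂ => (Y, (0 : Fin 1 → ℂ), (0 : ℂ))) (𝓝 0) (𝓝 (0, 0, 0)) :=
      tendsto_id.prodMk_nhds (tendsto_const_nhds.prodMk_nhds tendsto_const_nhds)
    filter_upwards [t1.eventually hdiv, t2.eventually hdiv] with Y h1 h2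
    have e1 : mp (0 : Fin 1 → ℂ) (Y j) = Y j := by rw [mp_zero, pow_one]
    have e2 : mp (0 : Fin 1 → ℂ) 0 = 0 := by rw [mp_zero, pow_one]
    simp only [Finset.sum_range_one, pow_zero, e1, e2, smul_eq_mul,
      Function.update_eq_self] at h1 h2
    linear_combination h1 - h2

/-- Set the coordinates in `S` to zero. -/
def zeroOn {n : ℕ} (S : Finset (Fin n)) (Y : Fin n → ℂ) : Fin n → ℂ := fun i =>
  if i ∈ S then 0 else Y i

lemma hadamard_set {n : ℕ} {g : (Fin n → ℂ) → ℂ} (hg : HolAt g 0) (S : Finset (Fin n)) :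
    ∃ G : Fin n → (Fin n → ℂ) → ℂ, (∀ j, HolAt (G j) 0) ∧
      ∀ᶠ Y in 𝓝 0, g Y = g (zeroOn S Y) + ∑ j ∈ S, Y j * G j Y := by
  classical
  induction S using Finset.induction_on with
  | empty =>
    refine ⟨fun _ _ => 0, fun _ => holAt_const _ _, Eventually.of_forall fun Y => ?_⟩
    have e : zeroOn (∅ : Finset (Fin n)) Y = Y := by
      ext i
      simp [zeroOn]
    simp [e]
  | insert j S hj ih =>
    obtain ⟨G, hG, hev⟩ := ih
    have hz : HolAt (fun Y : Fin n → ℂ => zeroOn S Y) 0 := by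
      apply HolAt.pi
      intro i
      unfold zeroOn
      split_ifs
      · exact holAt_const _ _
      · exact holAt_apply i _
    have hg2 : HolAt (fun Y => g (zeroOn S Y)) 0 := by
      refine hg.comp_of_eq hz ?_
      ext i
      simp [zeroOn]
    obtain ⟨G', hG', hev'⟩ := hadamard_one hg2 j
    refine ⟨Function.update G j G', ?_, ?_⟩
    · intro i
      by_cases h : i = j
      · subst h
        simpa using hG'
      · simpa [Function.update_of_ne h] using hG i
    · filter_upwards [hev, hev'] with Y h1 h2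
      rw [h1, h2, Finset.sum_insert hj, Function.update_self]
      have e1 : zeroOn S (Function.update Y j 0) = zeroOn (insert j S) Y := by
        ext i
        unfold zeroOn
        by_cases h : i = j
        · subst h
          simp [hj]
        · simp [h]
      have e2 : ∑ i ∈ S, Y i * Function.update G j G' i Y = ∑ i ∈ S, Y i * G i Y := by
        refine Finset.sum_congr rfl fun i hi => ?_
        have : i ≠ j := fun h => hj (h ▸ hi)
        rw [Function.update_of_ne this]
      rw [e1, e2]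
      ring

lemma hadamard (g : R11) : ∃ (c : ℂ) (G : Fin 11 → R11), ∀ᶠ Y in 𝓝 0,
    (g : (Fin 11 → ℂ) → ℂ) Y = c + ∑ j, Y j * (G j : (Fin 11 → ℂ) → ℂ) Y := by
  obtain ⟨G, hG, hev⟩ := hadamard_set (n := 11) (g := (g : (Fin 11 → ℂ) → ℂ)) g.2 Finset.univ
  refine ⟨(g : (Fin 11 → ℂ) → ℂ) 0, fun j => ⟨G j, hG j⟩, ?_⟩
  filter_upwards [hev] with Y h
  have e : zeroOn (Finset.univ : Finset (Fin 11)) Y = 0 := by
    ext i
    simp [zeroOn]
  rw [h, e]

/-! ### Finite-dimensionality -/

/-- The germ of `g` only matters. -/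
lemma smul_congr {g g' : R11} (h : ∀ᶠ Y in 𝓝 0, (g : (Fin 11 → ℂ) → ℂ) Y =
    (g' : (Fin 11 → ℂ) → ℂ) Y) (x : MM) : g • x = g' • x := by
  obtain ⟨v, rfl⟩ := Submodule.mkQ_surjective TT x
  rw [← sub_eq_zero, ← map_smul, ← map_smul, ← map_sub, Submodule.mkQ_apply,
    Submodule.Quotient.mk_eq_zero]
  refine ⟨fun _ => 0, fun _ => 0, holAt_const _ _, holAt_const _ _, ?_⟩
  filter_upwards [tendsto_fs0.eventually h] with z hz
  show (g : (Fin 11 → ℂ) → ℂ) (fs 0 z) • v z - (g' : (Fin 11 → ℂ) → ℂ) (fs 0 z) • v z = _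
  rw [hz]
  simp

/-- `x` generates a cyclic module which is finite-dimensional. -/
def Fn (x : MM) : Prop := ∃ W : Submodule ℂ VF, FiniteDimensional ℂ W ∧
  (∀ w ∈ W, HolAt (w : (Fin 7 → ℂ) → (Fin 11 → ℂ)) 0) ∧
  ∀ g : R11, ∃ w ∈ W, g • x = TT.mkQ w

lemma Fn_zero : Fn 0 := by
  refine ⟨⊥, inferInstance, ?_, ?_⟩
  · intro w hw
    rw [Submodule.mem_bot] at hw
    subst hw
    exact holAt_const (0 : Fin 11 → ℂ) 0
  · intro g
    exact ⟨0, Submodule.zero_mem _, by rw [smul_zero, map_zero]⟩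

/-- A finite family of spaces of holomorphic vector fields. -/
lemma sup_hol {ι : Type*} [Finite ι] (W : ι → Submodule ℂ VF)
    (h : ∀ i, ∀ w ∈ W i, HolAt (w : (Fin 7 → ℂ) → (Fin 11 → ℂ)) 0) :
    ∀ w ∈ (⨆ i, W i), HolAt (w : (Fin 7 → ℂ) → (Fin 11 → ℂ)) 0 := by
  intro w hw
  induction hw using Submodule.iSup_induction' with
  | mem i x hx => exact h i x hx
  | zero => exact holAt_const (0 : Fin 11 → ℂ) 0
  | add x y _ _ hx hy => exact hx.add hy

lemma Fn_step {v : VF} (hv : HolAt (v : (Fin 7 → ℂ) → (Fin 11 → ℂ)) 0)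
    (h : ∀ j : Fin 11, Fn (yy j • (TT.mkQ v : MM))) : Fn (TT.mkQ v : MM) := by
  choose W hW1 hW2 hW3 using h
  set W' : Option (Fin 11) → Submodule ℂ VF := fun o => o.elim (Submodule.span ℂ {v}) W with hW'
  refine ⟨⨆ o, W' o, ?_, ?_, ?_⟩
  · have : ∀ o, FiniteDimensional ℂ (W' o) := by
      intro o
      cases o with
      | none =>
        show FiniteDimensional ℂ (Submodule.span ℂ {v})
        exact FiniteDimensional.span_singleton ℂ v
      | some j => exact hW1 j
    exact Submodule.finite_iSup W'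
  · apply sup_hol
    intro o
    cases o with
    | none =>
      intro w hw
      obtain ⟨c, rfl⟩ := Submodule.mem_span_singleton.1 hw
      exact (holAt_const c 0).smul (f := fun _ => c) hv
    | some j => exact hW2 j
  · intro g
    obtain ⟨c, G, hG⟩ := hadamard g
    have h1 : g • (TT.mkQ v : MM) = (algebraMap ℂ R11 c + ∑ j, yy j * G j) • (TT.mkQ v : MM) := by
      apply smul_congr
      filter_upwards [hG] with Y hY
      rw [hY]
      have e : ((algebraMap ℂ R11 c + ∑ j, yy j * G j : R11) : (Fin 11 → ℂ) → ℂ) Y =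
          c + (∑ j, (yy j * G j : R11) : (Fin 11 → ℂ) → ℂ) Y := by
        rfl
      rw [e]
      congr 1
    choose w hwW hw using fun j => hW3 j (G j)
    refine ⟨c • v + ∑ j, w j, ?_, ?_⟩
    · refine Submodule.add_mem _ ?_ (Submodule.sum_mem _ fun j _ => ?_)
      · exact Submodule.mem_iSup_of_mem none (Submodule.smul_mem _ _ (Submodule.mem_span_singleton_self v))
      · exact Submodule.mem_iSup_of_mem (some j) (hwW j)
    · rw [h1, add_smul, Finset.sum_smul, map_add, map_sum]
      congr 1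
      refine Finset.sum_congr rfl fun j _ => ?_
      rw [← hw j, mul_comm, mul_smul]

lemma holAt_R11_smul (g : R11) {v : VF} (hv : HolAt (v : (Fin 7 → ℂ) → (Fin 11 → ℂ)) 0) :
    HolAt ((g • v : VF) : (Fin 7 → ℂ) → (Fin 11 → ℂ)) 0 := by
  have hg : HolAt (fun z => (g : (Fin 11 → ℂ) → ℂ) (fs 0 z)) 0 :=
    HolAt.comp_of_eq (f := (g : (Fin 11 → ℂ) → ℂ)) g.2 holAt_fs0 fs_zero
  exact hg.smul hv

lemma holAt_ve (i : Fin 6) {k : (Fin 7 → ℂ) → ℂ} (hk : HolAt k 0) :
    HolAt (ve i k : (Fin 7 → ℂ) → (Fin 11 → ℂ)) 0 :=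
  hk.smul (holAt_const _ _)

lemma Fn_mono (i : Fin 6) : ∀ (n : ℕ) (α : Fin 11 → ℕ), 23 ≤ (∑ j, α j) + n →
    Fn ((∏ j, yy j ^ α j) • cA i) := by
  intro n
  induction n with
  | zero =>
    intro α hα
    have hex : ∃ j, 3 ≤ α j := by
      by_contra hc
      push Not at hc
      have : ∑ j, α j ≤ ∑ _j : Fin 11, 2 := Finset.sum_le_sum fun j _ => by
        have := hc j
        omega
      simp at this
      omega
    obtain ⟨j, hj⟩ := hex
    have h0 : (∏ j, yy j ^ α j) • cA i = 0 := by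
      rw [← Finset.prod_erase_mul _ _ (Finset.mem_univ j)]
      obtain ⟨k, hk⟩ := Nat.exists_eq_add_of_le hj
      have e : yy j ^ α j = yy j ^ k * (yy j * yy j * yy j) := by
        rw [hk]; ring
      rw [e, ← mul_assoc, mul_smul, cube_kills, smul_zero]
    rw [h0]
    exact Fn_zero
  | succ n ih =>
    intro α hα
    have e : (∏ j, yy j ^ α j) • cA i = TT.mkQ ((∏ j, yy j ^ α j) • ve i fun z => z 5) := by
      rw [map_smul]; rfl
    rw [e]
    apply Fn_step
    · exact holAt_R11_smul _ (holAt_ve i (holAt_apply 5 _))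
    · intro j
      rw [← e]
      have h2 := ih (Function.update α j (α j + 1)) (by
        have : ∑ k, Function.update α j (α j + 1) k = (∑ k, α k) + 1 := by
          rw [Finset.sum_update_of_mem (Finset.mem_univ j),
            ← Finset.sum_sdiff (Finset.subset_univ {j}), Finset.sum_singleton]
          ring
        omega)
      have e3 : (∏ k, yy k ^ Function.update α j (α j + 1) k) = yy j * ∏ k, yy k ^ α k := by
        rw [← Finset.prod_erase_mul _ _ (Finset.mem_univ j),
          ← Finset.prod_erase_mul (f := fun k => yy k ^ α k) _ (Finset.mem_univ j)]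
        rw [Function.update_self]
        have : ∏ k ∈ Finset.univ.erase j, yy k ^ Function.update α j (α j + 1) k =
            ∏ k ∈ Finset.univ.erase j, yy k ^ α k := by
          refine Finset.prod_congr rfl fun k hk => ?_
          rw [Function.update_of_ne (Finset.ne_of_mem_erase hk)]
        rw [this]
        ring
      rw [e3, mul_smul] at h2
      exact h2

lemma Fn_A (i : Fin 6) : Fn (cA i) := by
  have := Fn_mono i 23 0 (by simp)
  simpa using this

lemma Fn_B (i : Fin 6) : Fn (cB i) := by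
  fin_cases i
  · show Fn (cB 0)
    rw [rel_B0]; exact Fn_zero
  · show Fn (cB 1)
    rw [rel_B1]; exact Fn_A _
  · show Fn (cB 2)
    rw [rel_B2]; exact Fn_A _
  · show Fn (cB 3)
    rw [rel_B3]; exact Fn_A _
  · show Fn (cB 4)
    rw [rel_B4]; exact Fn_A _
  · show Fn (cB 5)
    rw [rel_B5]; exact Fn_A _

/-- Every vector field along `f` is a combination of the classes. -/
lemma decomp {h : (Fin 7 → ℂ) → (Fin 11 → ℂ)} (hh : HolAt h 0) :
    ∃ β γ : Fin 6 → R11, (TT.mkQ (show VF from h) : MM) = ∑ i, (β i • cA i + γ i • cB i) := by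
  have hlow : HolAt (fun z => lowu (h z)) 0 := by
    apply HolAt.pi
    intro i
    fin_cases i <;> simp [lowu] <;> fun_prop
  have hG : HolAt (fun z => h z - dfs 0 z (lowu (h z))) 0 :=
    hh.sub (holAt_dfs (holAt_id _) hlow)
  have hGi : ∀ i : Fin 6, HolAt (fun z => upq (h z - dfs 0 z (lowu (h z))) i) 0 := by
    intro i
    have : HolAt (fun z => upq (h z - dfs 0 z (lowu (h z)))) 0 := by
      apply HolAt.pi
      intro i
      rw [holAt_pi] at hG
      fin_cases i
      · exact hG 5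
      · exact hG 6
      · exact hG 7
      · exact hG 8
      · exact hG 9
      · exact hG 10
    exact holAt_pi.1 this i
  choose α β γ hα hβ hγ hdec using fun i => div3 (hGi i)
  refine ⟨fun i => ⟨β i, hβ i⟩, fun i => ⟨γ i, hγ i⟩, ?_⟩
  have hsum : ∑ i, ((⟨β i, hβ i⟩ : R11) • cA i + (⟨γ i, hγ i⟩ : R11) • cB i) =
      TT.mkQ (∑ i, ((⟨β i, hβ i⟩ : R11) • ve i (fun z => z 5) +
        (⟨γ i, hγ i⟩ : R11) • ve i (fun z => z 6))) := by
    rw [map_sum]
    refine Finset.sum_congr rfl fun i _ => ?_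
    rw [map_add, map_smul, map_smul]
    rfl
  rw [hsum, ← sub_eq_zero, ← map_sub, Submodule.mkQ_apply, Submodule.Quotient.mk_eq_zero]
  refine ⟨fun z => lowu (h z), fun Y => inq (fun i => α i Y), hlow,
    ?_, ?_⟩
  · apply HolAt.pi
    intro i
    have k := hα
    fin_cases i <;> simp [inq] <;> fun_prop
  · filter_upwards [eventually_all.2 hdec] with z hz
    rw [fderiv_fs]
    have e1 : (∑ i, ((⟨β i, hβ i⟩ : R11) • ve i (fun z => z 5) +
        (⟨γ i, hγ i⟩ : R11) • ve i (fun z => z 6)) : VF) z =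
        ∑ i, (β i (fs 0 z) • z 5 • inq (Pi.single i 1) + γ i (fs 0 z) • z 6 • inq (Pi.single i 1)) := by
      have : ∀ (s : Finset (Fin 6)) (F : Fin 6 → VF), (∑ i ∈ s, F i : VF) z = ∑ i ∈ s, F i z := by
        intro s F
        exact Finset.sum_apply z s F
      rw [this]
      rfl
    show h z - (∑ i, ((⟨β i, hβ i⟩ : R11) • ve i (fun z => z 5) +
        (⟨γ i, hγ i⟩ : R11) • ve i (fun z => z 6)) : VF) z = _
    rw [e1]
    have k0 := hz 0
    have k1 := hz 1
    have k2 := hz 2
    have k3 := hz 3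
    have k4 := hz 4
    have k5 := hz 5
    simp only [upq, Matrix.cons_val] at k0 k1 k2 k3 k4 k5
    ext i
    simp only [Pi.sub_apply, Pi.add_apply] at k0 k1 k2 k3 k4 k5 ⊢
    simp only [Fin.sum_univ_six]
    fin_cases i
    · simp [inq, dfs, lowu]
    · simp [inq, dfs, lowu]
    · simp [inq, dfs, lowu]
    · simp [inq, dfs, lowu]
    · simp [inq, dfs, lowu]
    · simp [inq]
      linear_combination k0
    · simp [inq]
      linear_combination k1
    · simp [inq]
      linear_combination k2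
    · simp [inq]
      linear_combination k3
    · simp [inq]
      linear_combination k4
    · simp [inq]
      linear_combination k5

/-- **The germ of `f_0` is `𝒜`-finite.** -/
theorem aFinite_fs0 : AFinite (fs 0) := by
  choose WA hA1 hA2 hA3 using Fn_A
  choose WB hB1 hB2 hB3 using Fn_B
  set W' : Fin 6 ⊕ Fin 6 → Submodule ℂ VF := fun o => Sum.elim WA WB o with hW'
  set W : Submodule ℂ VF := ⨆ o, W' o with hW
  have hfd : FiniteDimensional ℂ W := by
    have : ∀ o, FiniteDimensional ℂ (W' o) := by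
      intro o
      cases o with
      | inl i => exact hA1 i
      | inr i => exact hB1 i
    exact Submodule.finite_iSup W'
  have hhol : ∀ w ∈ W, HolAt (w : (Fin 7 → ℂ) → (Fin 11 → ℂ)) 0 := by
    apply sup_hol
    intro o
    cases o with
    | inl i => exact hA2 i
    | inr i => exact hB2 i
  set b := Module.finBasis ℂ W with hb
  refine ⟨Module.finrank ℂ W, fun i => ((b i : W) : VF), fun i => hhol _ (b i).2, ?_⟩
  intro h hh
  obtain ⟨β, γ, hβγ⟩ := decomp hh
  choose wA hwA hwA' using fun i => hA3 i (β i)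
  choose wB hwB hwB' using fun i => hB3 i (γ i)
  set w : VF := ∑ i, (wA i + wB i) with hw
  have hwW : w ∈ W := by
    refine Submodule.sum_mem _ fun i _ => Submodule.add_mem _ ?_ ?_
    · exact Submodule.mem_iSup_of_mem (Sum.inl i) (hwA i)
    · exact Submodule.mem_iSup_of_mem (Sum.inr i) (hwB i)
  have hmk : (TT.mkQ (show VF from h) : MM) = TT.mkQ w := by
    rw [hβγ, hw, map_sum]
    refine Finset.sum_congr rfl fun i _ => ?_
    rw [hwA' i, hwB' i, map_add]
  have hmem : ((show VF from h) - w) ∈ TT := by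
    rw [← Submodule.Quotient.mk_eq_zero, ← Submodule.mkQ_apply, map_sub, hmk, sub_self]
  obtain ⟨ξ, η, hξ, hη, hev⟩ := hmem
  refine ⟨fun i => b.repr ⟨w, hwW⟩ i, fun _ => ξ, η, ?_⟩
  intro x hx
  rw [mem_singleton_iff] at hx
  subst hx
  refine ⟨hξ, by rw [fs_zero]; exact hη, ?_⟩
  filter_upwards [hev] with z hz
  have hsum : ∑ i, (b.repr ⟨w, hwW⟩ i) • (((b i : W) : VF) : (Fin 7 → ℂ) → (Fin 11 → ℂ)) z = w z := by
    have h1 := b.sum_repr ⟨w, hwW⟩
    have h2 : (∑ i, (b.repr ⟨w, hwW⟩ i) • ((b i : W) : VF) : VF) = w := by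
      have h5 := congrArg Subtype.val h1
      simp only [Submodule.coe_sum, Submodule.coe_smul] at h5
      exact h5
    have h3 : (∑ i, (b.repr ⟨w, hwW⟩ i) • ((b i : W) : VF) : VF) z =
        ∑ i, (b.repr ⟨w, hwW⟩ i) • ((b i : W) : VF) z := Finset.sum_apply z _ _
    rw [← h3, h2]
  rw [hsum]
  exact hz

end Pool.Agent.Helper66_Germ
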