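import Pool.Agent.Helper66_Germ.Germ

/-!
# Stability of the multi-germs of `f_s`
-/

set_option autoImplicit false
open Set Metric Filter Topology

namespace Pool.Agent.Helper66_Germ

/-- The bilinear map `b : ℂ² × ℂ⁷ → ℂ⁶`. -/
def bq (v1 v2 : ℂ) (k : Fin 7 → ℂ) : Fin 6 → ℂ :=
  ![v2 * k 0 - v1 * k 1, v2 * k 1 - v1 * k 2, v2 * k 2 - v1 * k 5, v2 * k 5 + v1 * k 6,
    -(v2 * k 6) - v1 * k 3, v2 * k 3 - v1 * k 4]

/-- The first five coordinates, as a vector in `ℂ⁷`. -/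
def lowu (B : Fin 11 → ℂ) : Fin 7 → ℂ := ![B 0, B 1, B 2, B 3, B 4, 0, 0]

/-- The last six coordinates. -/
def upq (B : Fin 11 → ℂ) : Fin 6 → ℂ := ![B 5, B 6, B 7, B 8, B 9, B 10]

/-- `ℂ⁶` as the last six coordinates of `ℂ¹¹`. -/
def inq (g : Fin 6 → ℂ) : Fin 11 → ℂ := ![0, 0, 0, 0, 0, g 0, g 1, g 2, g 3, g 4, g 5]

/-- Data of a double cover chart over a point of the target. -/
structure Chart (s : ℂ) (Y0 : Fin 11 → ℂ) where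
  V1 : (Fin 11 → ℂ) → ℂ
  V2 : (Fin 11 → ℂ) → ℂ
  X1 : (Fin 11 → ℂ) → ℂ
  X2 : (Fin 11 → ℂ) → ℂ
  Cc : (Fin 11 → ℂ) → ℂ
  θ : (Fin 7 → ℂ) → ℂ
  R : (Fin 11 → ℂ) → (Fin 6 → ℂ) → (Fin 7 → ℂ)
  hV1 : HolAt V1 Y0
  hV2 : HolAt V2 Y0
  hX1 : HolAt X1 Y0
  hX2 : HolAt X2 Y0
  hCc : HolAt Cc Y0
  hθ : ∀ z, fs s z = Y0 → HolAt θ z
  hid : ∀ᶠ Y in 𝓝 Y0, ∀ z, fs s z = Y →
    z 5 = X1 Y + θ z * V1 Y ∧ z 6 = X2 Y + θ z * V2 Y ∧ θ z ^ 2 = Cc Y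
  hR : ∀ᶠ Y in 𝓝 Y0, ∀ G, bq (V1 Y) (V2 Y) (R Y G) = G
  hRhol : ∀ G : (Fin 11 → ℂ) → (Fin 6 → ℂ), HolAt G Y0 → HolAt (fun Y => R Y (G Y)) Y0

namespace Chart

variable {s : ℂ} {Y0 : Fin 11 → ℂ} (c : Chart s Y0)

/-- The point with parameter `t`. -/
def Z (Y : Fin 11 → ℂ) (t : ℂ) : Fin 7 → ℂ :=
  ![Y 0, Y 1, Y 2, Y 3, Y 4, c.X1 Y + t * c.V1 Y, c.X2 Y + t * c.V2 Y]

lemma holAt_Z {t : (Fin 11 → ℂ) → ℂ} (ht : HolAt t Y0) : HolAt (fun Y => c.Z Y (t Y)) Y0 := by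
  have h1 := c.hV1
  have h2 := c.hV2
  have h3 := c.hX1
  have h4 := c.hX2
  apply HolAt.pi
  intro i
  fin_cases i <;> simp [Z] <;> fun_prop

lemma holAt_Z' : HolAt (fun p : (Fin 11 → ℂ) × ℂ => c.Z p.1 p.2) (Y0, 0) := by
  have h1 : HolAt (fun p : (Fin 11 → ℂ) × ℂ => c.V1 p.1) (Y0, 0) := c.hV1.comp (holAt_fst _)
  have h2 : HolAt (fun p : (Fin 11 → ℂ) × ℂ => c.V2 p.1) (Y0, 0) := c.hV2.comp (holAt_fst _)
  have h3 : HolAt (fun p : (Fin 11 → ℂ) × ℂ => c.X1 p.1) (Y0, 0) := c.hX1.comp (holAt_fst _)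
  have h4 : HolAt (fun p : (Fin 11 → ℂ) × ℂ => c.X2 p.1) (Y0, 0) := c.hX2.comp (holAt_fst _)
  apply HolAt.pi
  intro i
  fin_cases i <;> simp [Z] <;> fun_prop

lemma eq_Z {Y : Fin 11 → ℂ} {z : Fin 7 → ℂ} (hY : fs s z = Y)
    (h : z 5 = c.X1 Y + c.θ z * c.V1 Y ∧ z 6 = c.X2 Y + c.θ z * c.V2 Y) :
    z = c.Z Y (c.θ z) := by
  have h0 := congrFun hY 0
  have h1 := congrFun hY 1
  have h2 := congrFun hY 2
  have h3 := congrFun hY 3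
  have h4 := congrFun hY 4
  simp [fs] at h0 h1 h2 h3 h4
  ext i
  fin_cases i <;> simp [Z, h0, h1, h2, h3, h4]
  · exact h.1
  · exact h.2

lemma ev_fs {P : (Fin 11 → ℂ) → Prop} (h : ∀ᶠ Y in 𝓝 Y0, P Y) {z : Fin 7 → ℂ}
    (hz : fs s z = Y0) : ∀ᶠ z' in 𝓝 z, P (fs s z') := by
  have : Tendsto (fs s) (𝓝 z) (𝓝 Y0) := hz ▸ (differentiable_fs s).continuous.tendsto z
  exact this.eventually h

/-- The even case. -/
lemma even_identity (Y : Fin 11 → ℂ) (t : ℂ) (ht : t ^ 2 = c.Cc Y) (A B : Fin 11 → ℂ)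
    (k : Fin 7 → ℂ) (hk : bq (c.V1 Y) (c.V2 Y) k = fun i => upq B i - bq (c.X1 Y) (c.X2 Y) (lowu B) i) :
    A + t • B = dfs s (c.Z Y t) (t • lowu B + k) +
      (A - dfs s (c.Z Y 0) k - c.Cc Y • inq (bq (c.V1 Y) (c.V2 Y) (lowu B))) := by
  have e0 := congrFun hk 0
  have e1 := congrFun hk 1
  have e2 := congrFun hk 2
  have e3 := congrFun hk 3
  have e4 := congrFun hk 4
  have e5 := congrFun hk 5
  simp [bq, upq, lowu] at e0 e1 e2 e3 e4 e5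
  rw [← ht]
  ext i
  simp only [Pi.add_apply, Pi.sub_apply, Pi.smul_apply, smul_eq_mul]
  fin_cases i
  · simp [dfs, Z, lowu, inq]; ring
  · simp [dfs, Z, lowu, inq]; ring
  · simp [dfs, Z, lowu, inq]; ring
  · simp [dfs, Z, lowu, inq]; ring
  · simp [dfs, Z, lowu, inq]; ring
  · simp [dfs, Z, lowu, inq, bq]
    linear_combination (-t) * e0
  · simp [dfs, Z, lowu, inq, bq]
    linear_combination (-t) * e1
  · simp [dfs, Z, lowu, inq, bq]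
    linear_combination (-t) * e2
  · simp [dfs, Z, lowu, inq, bq]
    linear_combination (-t) * e3
  · simp [dfs, Z, lowu, inq, bq]
    linear_combination (-t) * e4
  · simp [dfs, Z, lowu, inq, bq]
    linear_combination (-t) * e5

/-- The case of two points. -/
lemma pair_identity (Y : Fin 11 → ℂ) (r : ℂ) (g : Fin 11 → ℂ)
    (k : Fin 7 → ℂ) (hk : bq (c.V1 Y) (c.V2 Y) ((2 * r) • k) = fun i => upq g i -
      bq (c.X1 Y - r * c.V1 Y) (c.X2 Y - r * c.V2 Y) (lowu g) i) :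
    g = dfs s (c.Z Y r) k + dfs s (c.Z Y (-r)) (- k + lowu g) := by
  have e0 := congrFun hk 0
  have e1 := congrFun hk 1
  have e2 := congrFun hk 2
  have e3 := congrFun hk 3
  have e4 := congrFun hk 4
  have e5 := congrFun hk 5
  simp [bq, upq, lowu] at e0 e1 e2 e3 e4 e5
  ext i
  fin_cases i
  · simp [dfs, lowu]
  · simp [dfs, lowu]
  · simp [dfs, lowu]
  · simp [dfs, lowu]
  · simp [dfs, lowu]
  · simp [dfs, Z, lowu]
    linear_combination (-1) * e0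
  · simp [dfs, Z, lowu]
    linear_combination (-1) * e1
  · simp [dfs, Z, lowu]
    linear_combination (-1) * e2
  · simp [dfs, Z, lowu]
    linear_combination (-1) * e3
  · simp [dfs, Z, lowu]
    linear_combination (-1) * e4
  · simp [dfs, Z, lowu]
    linear_combination (-1) * e5

end Chart

lemma holAt_lowu {B : (Fin 11 → ℂ) → (Fin 11 → ℂ)} {Y : Fin 11 → ℂ} (h : HolAt B Y) :
    HolAt (fun Y => lowu (B Y)) Y := by
  apply HolAt.pi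
  intro i
  fin_cases i <;> simp [lowu] <;> fun_prop

lemma holAt_upq {B : (Fin 11 → ℂ) → (Fin 11 → ℂ)} {Y : Fin 11 → ℂ} (h : HolAt B Y) :
    HolAt (fun Y => upq (B Y)) Y := by
  apply HolAt.pi
  intro i
  fin_cases i <;> simp [upq] <;> fun_prop

lemma holAt_inq {B : (Fin 11 → ℂ) → (Fin 6 → ℂ)} {Y : Fin 11 → ℂ} (h : HolAt B Y) :
    HolAt (fun Y => inq (B Y)) Y := by
  apply HolAt.pi
  intro i
  fin_cases i <;> simp [inq] <;> fun_prop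

lemma holAt_bq {v1 v2 : (Fin 11 → ℂ) → ℂ} {k : (Fin 11 → ℂ) → (Fin 7 → ℂ)} {Y : Fin 11 → ℂ}
    (h1 : HolAt v1 Y) (h2 : HolAt v2 Y) (hk : HolAt k Y) :
    HolAt (fun Y => bq (v1 Y) (v2 Y) (k Y)) Y := by
  apply HolAt.pi
  intro i
  fin_cases i <;> simp [bq] <;> fun_prop

lemma holAt_dfs {E : Type*} [NormedAddCommGroup E] [NormedSpace ℂ E] {s : ℂ}
    {z v : E → (Fin 7 → ℂ)} {Y : E}
    (h1 : HolAt z Y) (h2 : HolAt v Y) : HolAt (fun Y => dfs s (z Y) (v Y)) Y := by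
  apply HolAt.pi
  intro i
  fin_cases i <;> simp [dfs] <;> fun_prop

end Pool.Agent.Helper66_Germ
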