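import Pool.Agent.Helper66_Germ.Div3
import Pool.Agent.Helper66_Germ.Stab

/-!
# The module `θ(f)/T𝒜ₑ f` over the ring of germs on the target
-/

set_option autoImplicit false
open Set Metric Filter Topology

namespace Pool.Agent.Helper66_Germ

/-- The ring of functions on the target which are holomorphic near `0`. -/
def R11 : Subalgebra ℂ ((Fin 11 → ℂ) → ℂ) where
  carrier := {g | HolAt g 0}
  mul_mem' := fun ha hb => HolAt.mul ha hb
  add_mem' := fun ha hb => HolAt.add ha hb
  algebraMap_mem' := fun c => holAt_const c 0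

/-- Vector fields along `f`. -/
def VF : Type := (Fin 7 → ℂ) → (Fin 11 → ℂ)

instance : AddCommGroup VF := inferInstanceAs (AddCommGroup ((Fin 7 → ℂ) → (Fin 11 → ℂ)))
noncomputable instance : Module ℂ VF := inferInstanceAs (Module ℂ ((Fin 7 → ℂ) → (Fin 11 → ℂ)))

noncomputable instance : Module R11 VF where
  smul g v := fun z => (g : (Fin 11 → ℂ) → ℂ) (fs 0 z) • v z
  one_smul v := by
    funext z
    show (1 : ℂ) • v z = v z
    rw [one_smul]
  mul_smul g h v := by
    funext z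
    show ((g : (Fin 11 → ℂ) → ℂ) (fs 0 z) * (h : (Fin 11 → ℂ) → ℂ) (fs 0 z)) • v z = _
    rw [mul_smul]
    rfl
  smul_zero g := by
    funext z
    show (g : (Fin 11 → ℂ) → ℂ) (fs 0 z) • (0 : Fin 11 → ℂ) = 0
    rw [smul_zero]
  smul_add g v w := by
    funext z
    show (g : (Fin 11 → ℂ) → ℂ) (fs 0 z) • (v z + w z) = _
    rw [smul_add]
    rfl
  add_smul g h v := by
    funext z
    show ((g : (Fin 11 → ℂ) → ℂ) (fs 0 z) + (h : (Fin 11 → ℂ) → ℂ) (fs 0 z)) • v z = _
    rw [add_smul]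
    rfl
  zero_smul v := by
    funext z
    show (0 : ℂ) • v z = 0
    rw [zero_smul]

lemma smul_def (g : R11) (v : VF) :
    g • v = fun z => (g : (Fin 11 → ℂ) → ℂ) (fs 0 z) • v z := rfl

instance : IsScalarTower ℂ R11 VF where
  smul_assoc c g v := by
    funext z
    show (c * (g : (Fin 11 → ℂ) → ℂ) (fs 0 z)) • v z =
      c • ((g : (Fin 11 → ℂ) → ℂ) (fs 0 z) • v z)
    rw [mul_smul]

lemma tendsto_fs0 : Tendsto (fs 0) (𝓝 0) (𝓝 0) := by
  have := (differentiable_fs 0).continuous.tendsto 0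
  rwa [fs_zero] at this

lemma holAt_fs0 : HolAt (fs 0) 0 := holAt_of_differentiable (differentiable_fs 0) 0

/-- The tangent space `T𝒜ₑ f`. -/
noncomputable def TT : Submodule R11 VF where
  carrier := {v | ∃ (ξ : (Fin 7 → ℂ) → (Fin 7 → ℂ)) (η : (Fin 11 → ℂ) → (Fin 11 → ℂ)),
    HolAt ξ 0 ∧ HolAt η 0 ∧ ∀ᶠ z in 𝓝 0, v z = fderiv ℂ (fs 0) z (ξ z) + η (fs 0 z)}
  add_mem' := by
    rintro v w ⟨ξ, η, h1, h2, h3⟩ ⟨ξ', η', h1', h2', h3'⟩
    refine ⟨fun z => ξ z + ξ' z, fun Y => η Y + η' Y, h1.add h1', h2.add h2', ?_⟩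
    filter_upwards [h3, h3'] with z k1 k2
    show v z + w z = _
    rw [k1, k2, map_add]
    abel
  zero_mem' := by
    refine ⟨fun _ => 0, fun _ => 0, holAt_const _ _, holAt_const _ _, Eventually.of_forall fun z => ?_⟩
    show (0 : Fin 11 → ℂ) = _
    simp
  smul_mem' := by
    rintro g v ⟨ξ, η, h1, h2, h3⟩
    have hg : HolAt (fun z => (g : (Fin 11 → ℂ) → ℂ) (fs 0 z)) 0 :=
      HolAt.comp_of_eq (f := (g : (Fin 11 → ℂ) → ℂ)) g.2 holAt_fs0 fs_zero
    have hg' : HolAt (g : (Fin 11 → ℂ) → ℂ) 0 := g.2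
    refine ⟨fun z => (g : (Fin 11 → ℂ) → ℂ) (fs 0 z) • ξ z,
      fun Y => (g : (Fin 11 → ℂ) → ℂ) Y • η Y, hg.smul h1, hg'.smul h2, ?_⟩
    filter_upwards [h3] with z k1
    show (g : (Fin 11 → ℂ) → ℂ) (fs 0 z) • v z = _
    rw [k1, map_smul, smul_add]

lemma mem_TT_iff {v : VF} : v ∈ TT ↔
    ∃ (ξ : (Fin 7 → ℂ) → (Fin 7 → ℂ)) (η : (Fin 11 → ℂ) → (Fin 11 → ℂ)),
    HolAt ξ 0 ∧ HolAt η 0 ∧ ∀ᶠ z in 𝓝 0, v z = fderiv ℂ (fs 0) z (ξ z) + η (fs 0 z) := Iff.rfl

/-- The quotient. -/
abbrev MM := VF ⧸ TT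

/-- Membership from a global identity. -/
lemma mk_eq_zero {v : VF} (ξ : (Fin 7 → ℂ) → (Fin 7 → ℂ)) (η : (Fin 11 → ℂ) → (Fin 11 → ℂ))
    (h1 : HolAt ξ 0) (h2 : HolAt η 0) (h : ∀ z, v z = dfs 0 z (ξ z) + η (fs 0 z)) :
    (TT.mkQ v : MM) = 0 := by
  rw [Submodule.mkQ_apply, Submodule.Quotient.mk_eq_zero]
  refine ⟨ξ, η, h1, h2, Eventually.of_forall fun z => ?_⟩
  rw [fderiv_fs]
  exact h z

/-- The vector field `k · e_i` for a function `k`, `i` one of the last six coordinates. -/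
noncomputable def ve (i : Fin 6) (k : (Fin 7 → ℂ) → ℂ) : VF := fun z => k z • inq (Pi.single i 1)

/-- Class of `x e_i`. -/
noncomputable def cA (i : Fin 6) : MM := TT.mkQ (ve i fun z => z 5)

/-- Class of `y e_i`. -/
noncomputable def cB (i : Fin 6) : MM := TT.mkQ (ve i fun z => z 6)

/-- Coordinates as elements of the ring. -/
def yy (j : Fin 11) : R11 := ⟨fun Y => Y j, holAt_apply j 0⟩

lemma yy_apply (j : Fin 11) (Y : Fin 11 → ℂ) : ((yy j : R11) : (Fin 11 → ℂ) → ℂ) Y = Y j := rfl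

lemma smul_ve (g : R11) (i : Fin 6) (k : (Fin 7 → ℂ) → ℂ) :
    g • ve i k = ve i (fun z => (g : (Fin 11 → ℂ) → ℂ) (fs 0 z) * k z) := by
  funext z
  show (g : (Fin 11 → ℂ) → ℂ) (fs 0 z) • (k z • inq (Pi.single i 1)) = _
  rw [smul_smul]
  rfl

lemma ve_add (i : Fin 6) (k k' : (Fin 7 → ℂ) → ℂ) :
    ve i k + ve i k' = ve i (fun z => k z + k' z) := by
  funext z
  show k z • inq (Pi.single i 1) + k' z • inq (Pi.single i 1) = _
  rw [← add_smul]
  rfl

lemma mk_ve_eq_zero (i : Fin 6) {k : (Fin 7 → ℂ) → ℂ} (κ : (Fin 11 → ℂ) → ℂ) (hκ : HolAt κ 0)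
    (h : ∀ z, k z = κ (fs 0 z)) : (TT.mkQ (ve i k) : MM) = 0 := by
  refine mk_eq_zero (fun _ => 0) (fun Y => κ Y • inq (Pi.single i 1)) (holAt_const _ _)
    (hκ.smul (holAt_const _ _)) ?_
  intro z
  have h0 : dfs 0 z 0 = 0 := by rw [← fderiv_fs, map_zero]
  show k z • inq (Pi.single i 1) = dfs 0 z 0 + _
  rw [h0, zero_add, h z]

/-! ### The relations -/

lemma rel_B0 : cB 0 = 0 := by
  refine mk_eq_zero (fun z => ![1, 0, 0, 0, 0, 0, 0]) (fun Y => ![-1, 0, 0, 0, 0, 0, 0, 0, 0, 0, 0])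
    (holAt_const _ _) (holAt_const _ _) ?_
  intro z
  ext i
  fin_cases i <;> simp [ve, inq, dfs]

lemma rel_B1 : cB 1 = cA 0 := by
  rw [← sub_eq_zero]
  unfold cB cA
  rw [← map_sub]
  refine mk_eq_zero (fun z => ![0, 1, 0, 0, 0, 0, 0]) (fun Y => ![0, -1, 0, 0, 0, 0, 0, 0, 0, 0, 0])
    (holAt_const _ _) (holAt_const _ _) ?_
  intro z
  ext i
  show ve 1 (fun z => z 6) z i - ve 0 (fun z => z 5) z i = _
  fin_cases i <;> simp [ve, inq, dfs]

lemma rel_B2 : cB 2 = cA 1 := by
  rw [← sub_eq_zero]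
  unfold cB cA
  rw [← map_sub]
  refine mk_eq_zero (fun z => ![0, 0, 1, 0, 0, 0, 0]) (fun Y => ![0, 0, -1, 0, 0, 0, 0, 0, 0, 0, 0])
    (holAt_const _ _) (holAt_const _ _) ?_
  intro z
  ext i
  show ve 2 (fun z => z 6) z i - ve 1 (fun z => z 5) z i = _
  fin_cases i <;> simp [ve, inq, dfs]

lemma rel_B5 : cB 5 = cA 4 := by
  rw [← sub_eq_zero]
  unfold cB cA
  rw [← map_sub]
  refine mk_eq_zero (fun z => ![0, 0, 0, 1, 0, 0, 0]) (fun Y => ![0, 0, 0, -1, 0, 0, 0, 0, 0, 0, 0])
    (holAt_const _ _) (holAt_const _ _) ?_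
  intro z
  ext i
  show ve 5 (fun z => z 6) z i - ve 4 (fun z => z 5) z i = _
  fin_cases i <;> simp [ve, inq, dfs]

lemma rel_A5 : cA 5 = 0 := by
  refine mk_eq_zero (fun z => ![0, 0, 0, 0, -1, 0, 0]) (fun Y => ![0, 0, 0, 0, 1, 0, 0, 0, 0, 0, 0])
    (holAt_const _ _) (holAt_const _ _) ?_
  intro z
  ext i
  fin_cases i <;> simp [ve, inq, dfs]

lemma rel_B3 : cB 3 = cA 2 := by
  rw [← sub_eq_zero]
  unfold cB cA
  rw [← map_sub]
  refine mk_eq_zero (fun z => ![0, 0, 0, 0, 0, 1, 0])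
    (fun Y => ![0, 0, 0, 0, 0, Y 1, Y 2, 0, 0, Y 3, Y 4]) (holAt_const _ _) ?_ ?_
  · apply HolAt.pi
    intro i
    fin_cases i <;> simp <;> fun_prop
  intro z
  ext i
  show ve 3 (fun z => z 6) z i - ve 2 (fun z => z 5) z i = _
  fin_cases i <;> simp [ve, inq, dfs, fs]

lemma rel_B4 : cB 4 = cA 3 := by
  rw [eq_comm, ← sub_eq_zero]
  unfold cB cA
  rw [← map_sub]
  refine mk_eq_zero (fun z => ![0, 0, 0, 0, 0, 0, 1])
    (fun Y => ![0, 0, 0, 0, 0, -Y 0, -Y 1, -Y 2, 0, 0, -Y 3]) (holAt_const _ _) ?_ ?_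
  · apply HolAt.pi
    intro i
    fin_cases i <;> simp <;> fun_prop
  intro z
  ext i
  show ve 3 (fun z => z 5) z i - ve 4 (fun z => z 6) z i = _
  fin_cases i <;> simp [ve, inq, dfs, fs]

lemma rel_R2 : yy 1 • cB 0 + yy 2 • cB 1 + (2 * yy 3) • cA 3 + yy 3 • cB 4 + yy 4 • cB 5 = 0 := by
  unfold cB cA
  rw [← map_smul, ← map_smul, ← map_smul, ← map_smul, ← map_smul, ← map_add, ← map_add, ← map_add,
    ← map_add]
  refine mk_eq_zero (fun z => ![0, 0, 0, 0, 0, -z 6, 0])
    (fun Y => ![0, 0, 0, 0, 0, 0, 0, - Y 8, - (2 * Y 9), 0, 0]) ?_ ?_ ?_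
  · apply HolAt.pi
    intro i
    fin_cases i <;> simp <;> fun_prop
  · apply HolAt.pi
    intro i
    fin_cases i <;> simp <;> fun_prop
  intro z
  simp only [smul_ve]
  ext i
  show (ve 0 _ z i + ve 1 _ z i + ve 3 _ z i + ve 4 _ z i + ve 5 _ z i : ℂ) = _
  have h2 : ∀ Y, ((2 : R11) : (Fin 11 → ℂ) → ℂ) Y = 2 := fun _ => rfl
  fin_cases i <;> simp [ve, inq, dfs, fs, yy, h2] <;> ring

lemma rel_R3 : yy 0 • cA 0 + yy 1 • cA 1 + yy 2 • cA 2 + (2 * yy 2) • cB 3 + yy 3 • cA 5 = 0 := by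
  unfold cB cA
  rw [← map_smul, ← map_smul, ← map_smul, ← map_smul, ← map_smul, ← map_add, ← map_add, ← map_add,
    ← map_add]
  refine mk_eq_zero (fun z => ![0, 0, 0, 0, 0, 0, z 5])
    (fun Y => ![0, 0, 0, 0, 0, 0, 0, 0, 2 * Y 7, Y 8, 0]) ?_ ?_ ?_
  · apply HolAt.pi
    intro i
    fin_cases i <;> simp <;> fun_prop
  · apply HolAt.pi
    intro i
    fin_cases i <;> simp <;> fun_prop
  intro z
  simp only [smul_ve]
  ext i
  show (ve 0 _ z i + ve 1 _ z i + ve 2 _ z i + ve 3 _ z i + ve 5 _ z i : ℂ) = _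
  have h2 : ∀ Y, ((2 : R11) : (Fin 11 → ℂ) → ℂ) Y = 2 := fun _ => rfl
  fin_cases i <;> simp [ve, inq, dfs, fs, yy, h2] <;> ring

/-- A relation `g • x e_i + h • y e_i = κ(f) e_i`. -/
lemma rel_gen (i : Fin 6) (g h : R11) (κ : (Fin 11 → ℂ) → ℂ) (hκ : HolAt κ 0)
    (e : ∀ z : Fin 7 → ℂ, (g : (Fin 11 → ℂ) → ℂ) (fs 0 z) * z 5 +
      (h : (Fin 11 → ℂ) → ℂ) (fs 0 z) * z 6 = κ (fs 0 z)) :
    g • cA i + h • cB i = 0 := by
  unfold cA cB
  rw [← map_smul, ← map_smul, ← map_add, smul_ve, smul_ve, ve_add]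
  exact mk_ve_eq_zero i κ hκ e

lemma rel_Qa (i : Fin 6) : (-yy 1) • cA i + yy 0 • cB i = 0 :=
  rel_gen i _ _ (fun Y => Y 5) (by fun_prop) (fun z => by
    show - (fs 0 z 1) * z 5 + fs 0 z 0 * z 6 = fs 0 z 5
    simp [fs]; ring)

lemma rel_Qb (i : Fin 6) : (-yy 2) • cA i + yy 1 • cB i = 0 :=
  rel_gen i _ _ (fun Y => Y 6) (by fun_prop) (fun z => by
    show - (fs 0 z 2) * z 5 + fs 0 z 1 * z 6 = fs 0 z 6
    simp [fs]; ring)

lemma rel_Qc (i : Fin 6) : (-yy 4) • cA i + yy 3 • cB i = 0 :=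
  rel_gen i _ _ (fun Y => Y 10) (by fun_prop) (fun z => by
    show - (fs 0 z 4) * z 5 + fs 0 z 3 * z 6 = fs 0 z 10
    simp [fs]; ring)

lemma rel_Qd (i : Fin 6) : yy 5 • cA i + (2 * yy 1 * yy 2) • cB i = 0 :=
  rel_gen i _ _ (fun Y => Y 0 * Y 8 + 2 * Y 1 * Y 7) (by fun_prop) (fun z => by
    show fs 0 z 5 * z 5 + (2 * fs 0 z 1 * fs 0 z 2) * z 6 = fs 0 z 0 * fs 0 z 8 + 2 * fs 0 z 1 * fs 0 z 7
    simp [fs]; ring)

lemma rel_Qe (i : Fin 6) : yy 6 • cA i + (2 * yy 2 * yy 2) • cB i = 0 :=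
  rel_gen i _ _ (fun Y => Y 1 * Y 8 + 2 * Y 2 * Y 7) (by fun_prop) (fun z => by
    show fs 0 z 6 * z 5 + (2 * fs 0 z 2 * fs 0 z 2) * z 6 = fs 0 z 1 * fs 0 z 8 + 2 * fs 0 z 2 * fs 0 z 7
    simp [fs]; ring)

lemma rel_Qf (i : Fin 6) : yy 10 • cA i + (2 * yy 2 * yy 4) • cB i = 0 :=
  rel_gen i _ _ (fun Y => Y 3 * Y 8 + 2 * Y 4 * Y 7) (by fun_prop) (fun z => by
    show fs 0 z 10 * z 5 + (2 * fs 0 z 2 * fs 0 z 4) * z 6 = fs 0 z 3 * fs 0 z 8 + 2 * fs 0 z 4 * fs 0 z 7
    simp [fs]; ring)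

lemma rel_Qg (i : Fin 6) : (2 * yy 3 * yy 3) • cA i + yy 10 • cB i = 0 :=
  rel_gen i _ _ (fun Y => -2 * Y 3 * Y 9 - Y 4 * Y 8) (by fun_prop) (fun z => by
    show (2 * fs 0 z 3 * fs 0 z 3) * z 5 + fs 0 z 10 * z 6 = -2 * fs 0 z 3 * fs 0 z 9 - fs 0 z 4 * fs 0 z 8
    simp [fs]; ring)

lemma rel_QE (i : Fin 6) : (yy 8 + 4 * yy 2 * yy 3) • cA i + (2 * yy 7) • cB i = 0 :=
  rel_gen i _ _ (fun Y => -4 * Y 2 * Y 9) (by fun_prop) (fun z => by
    show (fs 0 z 8 + 4 * fs 0 z 2 * fs 0 z 3) * z 5 + (2 * fs 0 z 7) * z 6 = -4 * fs 0 z 2 * fs 0 z 9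
    simp [fs]; ring)

lemma rel_QF (i : Fin 6) : (2 * yy 9) • cA i + (yy 8 + 4 * yy 2 * yy 3) • cB i = 0 :=
  rel_gen i _ _ (fun Y => 4 * Y 3 * Y 7) (by fun_prop) (fun z => by
    show (2 * fs 0 z 9) * z 5 + (fs 0 z 8 + 4 * fs 0 z 2 * fs 0 z 3) * z 6 = 4 * fs 0 z 3 * fs 0 z 7
    simp [fs]; ring)

lemma smul_eq_zero_of_nat {n : ℕ} (hn : n ≠ 0) {x : MM} (h : (n : R11) • x = 0) : x = 0 := by
  have hu : IsUnit (n : R11) := by
    have : IsUnit ((n : ℂ)) := IsUnit.mk0 _ (Nat.cast_ne_zero.2 hn)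
    have h2 := this.map (algebraMap ℂ R11)
    rwa [map_natCast] at h2
  exact hu.smul_eq_zero.1 h

/-- The cube of every coordinate kills all the classes. -/
theorem cube_kills (j : Fin 11) (i : Fin 6) : (yy j * yy j * yy j) • cA i = 0 := by
  set w0 := yy 0 with hw0
  set w1 := yy 1 with hw1
  set w2 := yy 2 with hw2
  set w5 := yy 3 with hw5
  set w6 := yy 4 with hw6
  set q0 := yy 5 with hq0
  set q1 := yy 6 with hq1
  set q2 := yy 7 with hq2
  set q3 := yy 8 with hq3
  set q4 := yy 9 with hq4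
  set q5 := yy 10 with hq5
  set a0 := cA 0 with ha0
  set a1 := cA 1 with ha1
  set a2 := cA 2 with ha2
  set a3 := cA 3 with ha3
  set a4 := cA 4 with ha4
  have b0 := rel_B0
  have b1 := rel_B1
  have b2 := rel_B2
  have b3 := rel_B3
  have b4 := rel_B4
  have b5 := rel_B5
  have z5 := rel_A5
  have Qa0 := rel_Qa 0
  have Qa1 := rel_Qa 1
  have Qa2 := rel_Qa 2
  have Qa3 := rel_Qa 3
  have Qa4 := rel_Qa 4
  have Qa5 := rel_Qa 5
  have Qb0 := rel_Qb 0
  have Qb1 := rel_Qb 1
  have Qb2 := rel_Qb 2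
  have Qb3 := rel_Qb 3
  have Qb4 := rel_Qb 4
  have Qb5 := rel_Qb 5
  have Qc0 := rel_Qc 0
  have Qc1 := rel_Qc 1
  have Qc2 := rel_Qc 2
  have Qc3 := rel_Qc 3
  have Qc4 := rel_Qc 4
  have Qc5 := rel_Qc 5
  have Qd0 := rel_Qd 0
  have Qd1 := rel_Qd 1
  have Qd2 := rel_Qd 2
  have Qd3 := rel_Qd 3
  have Qd4 := rel_Qd 4
  have Qe0 := rel_Qe 0
  have Qe1 := rel_Qe 1
  have Qe2 := rel_Qe 2
  have Qe3 := rel_Qe 3
  have Qe4 := rel_Qe 4
  have Qf0 := rel_Qf 0
  have Qf1 := rel_Qf 1
  have Qf2 := rel_Qf 2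
  have Qf3 := rel_Qf 3
  have Qf4 := rel_Qf 4
  have Qg0 := rel_Qg 0
  have Qg1 := rel_Qg 1
  have E0 := rel_QE 0
  have E1 := rel_QE 1
  have E2 := rel_QE 2
  have E3 := rel_QE 3
  have E4 := rel_QE 4
  have E5 := rel_QE 5
  have F0 := rel_QF 0
  have F1 := rel_QF 1
  have F2 := rel_QF 2
  have F3 := rel_QF 3
  have F4 := rel_QF 4
  have F5 := rel_QF 5
  have R2 := rel_R2
  have R3 := rel_R3
  rw [b0] at Qa0 Qb0 Qc0 Qd0 Qe0 Qf0 Qg0 E0 F0 R2
  rw [b1] at Qa1 Qb1 Qc1 Qd1 Qe1 Qf1 Qg1 E1 F1 R2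
  rw [b2] at Qa2 Qb2 Qc2 Qd2 Qe2 Qf2 E2 F2
  rw [b3] at Qa3 Qb3 Qc3 Qd3 Qe3 Qf3 E3 F3 R3
  rw [b4] at Qa4 Qb4 Qc4 Qd4 Qe4 Qf4 E4 F4 R2
  rw [b5, z5] at Qa5 Qb5 Qc5 E5 F5
  rw [b5] at R2
  rw [z5] at R3
  simp only [← hw0, ← hw1, ← hw2, ← hw5, ← hw6, ← hq0, ← hq1, ← hq2, ← hq3, ← hq4, ← hq5,
    ← ha0, ← ha1, ← ha2, ← ha3, ← ha4] at Qa0 Qa1 Qa2 Qa3 Qa4 Qa5 Qb0 Qb1 Qb2 Qb3 Qb4 Qb5 Qc0 Qc1 Qc2 Qc3 Qc4 Qc5 Qd0 Qd1 Qd2 Qd3 Qd4 Qe0 Qe1 Qe2 Qe3 Qe4 Qf0 Qf1 Qf2 Qf3 Qf4 Qg0 Qg1 E0 E1 E2 E3 E4 E5 F0 F1 F2 F3 F4 F5 R2 R3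
  -- first order
  have h10 : w1 • a0 = 0 := by linear_combination (norm := module) (-1 : R11) • Qa0
  have h20 : w2 • a0 = 0 := by linear_combination (norm := module) (-1 : R11) • Qb0
  have h60 : w6 • a0 = 0 := by linear_combination (norm := module) (-1 : R11) • Qc0
  have h04 : w0 • a4 = 0 := by linear_combination (norm := module) (1 : R11) • Qa5
  have h14 : w1 • a4 = 0 := by linear_combination (norm := module) (1 : R11) • Qb5
  have h54 : w5 • a4 = 0 := by linear_combination (norm := module) (1 : R11) • Qc5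
  have h21 : w2 • a1 = 0 := by linear_combination (norm := module) (-1 : R11) • Qb1 + (1 : R11) • h10
  have h03 : w0 • a3 = 0 := by linear_combination (norm := module) (1 : R11) • Qa4 + (1 : R11) • h14
  have h11 : w1 • a1 = 0 := by
    apply smul_eq_zero_of_nat (n := 5) (by norm_num)
    push_cast
    linear_combination (norm := module) (1 : R11) • R3 - (1 : R11) • Qa1 + (3 : R11) • Qb2
  have h00 : w0 • a0 = 0 := by linear_combination (norm := module) (1 : R11) • Qa1 + (1 : R11) • h11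
  have h22 : w2 • a2 = 0 := by linear_combination (norm := module) (-1 : R11) • Qb2 + (1 : R11) • h11
  have h53 : w5 • a3 = 0 := by
    apply smul_eq_zero_of_nat (n := 4) (by norm_num)
    push_cast
    linear_combination (norm := module) (1 : R11) • R2 + (1 : R11) • Qc4 - (1 : R11) • h20
  have h64 : w6 • a4 = 0 := by linear_combination (norm := module) (-1 : R11) • Qc4 + (1 : R11) • h53
  -- squares of the first five coordinates
  have s01 : (w0 * w0) • a1 = 0 := by
    linear_combination (norm := module) w0 • Qa2 + w1 • Qa3 + w1 • Qb4 + w2 • h14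
  have s02 : (w0 * w0) • a2 = 0 := by
    linear_combination (norm := module) w0 • Qa3 + w1 • h03
  have s12 : (w1 * w1) • a2 = 0 := by
    linear_combination (norm := module) (-w1) • Qa2 + w0 • h11
  have s13 : (w1 * w1) • a3 = 0 := by
    linear_combination (norm := module) w1 • Qb4 + w2 • h14
  have s23 : (w2 * w2) • a3 = 0 := by
    linear_combination (norm := module) (-w2) • Qb3 + w1 • h22
  have s24 : (w2 * w2) • a4 = 0 := by
    linear_combination (norm := module) (-w2) • Qb4 - w1 • Qb3 + (1 : R11) • s12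
  have s52 : (w5 * w5) • a2 = 0 := by
    linear_combination (norm := module) w5 • Qc3 + w6 • h53
  have s50 : (w5 * w5) • a0 = 0 := by
    apply smul_eq_zero_of_nat (n := 2) (by norm_num)
    push_cast
    linear_combination (norm := module) (1 : R11) • Qg0
  have k0 : q5 • a0 = 0 := by
    linear_combination (norm := module) (1 : R11) • Qf0
  have s51 : (w5 * w5) • a1 = 0 := by
    apply smul_eq_zero_of_nat (n := 2) (by norm_num)
    push_cast
    linear_combination (norm := module) (1 : R11) • Qg1 - (1 : R11) • k0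
  have s61 : (w6 * w6) • a1 = 0 := by
    linear_combination (norm := module) (-w6) • Qc1 + w5 • h60
  have s62 : (w6 * w6) • a2 = 0 := by
    linear_combination (norm := module) (-w6) • Qc2 - w5 • Qc1 + (1 : R11) • s50
  have s63 : (w6 * w6) • a3 = 0 := by
    linear_combination (norm := module) (-w6) • Qc3 - w5 • Qc2 + (1 : R11) • s51
  -- the linear coordinates
  have h23 : w2 • a3 = w1 • a2 := by linear_combination (norm := module) (-1 : R11) • Qb3
  have m0 : q0 • a0 = 0 := by linear_combination (norm := module) (1 : R11) • Qd0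
  have m1 : q0 • a1 = 0 := by
    linear_combination (norm := module) (1 : R11) • Qd1 - (2 * w2) • h10
  have m2 : q0 • a2 = 0 := by
    linear_combination (norm := module) (1 : R11) • Qd2 - (2 * w2) • h11
  have m3 : q0 • a3 = 0 := by
    linear_combination (norm := module) (1 : R11) • Qd3 - (2 * w1) • h22
  have m4 : q0 • a4 = 0 := by
    linear_combination (norm := module) (1 : R11) • Qd4 - (2 * w1) • h23 - (2 : R11) • s12
  have n0 : q1 • a0 = 0 := by linear_combination (norm := module) (1 : R11) • Qe0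
  have n1 : q1 • a1 = 0 := by
    linear_combination (norm := module) (1 : R11) • Qe1 - (2 * w2) • h20
  have n2 : q1 • a2 = 0 := by
    linear_combination (norm := module) (1 : R11) • Qe2 - (2 * w2) • h21
  have n3 : q1 • a3 = 0 := by
    linear_combination (norm := module) (1 : R11) • Qe3 - (2 * w2) • h22
  have n4 : q1 • a4 = 0 := by
    linear_combination (norm := module) (1 : R11) • Qe4 - (2 : R11) • s23
  have k1 : q5 • a1 = 0 := by
    linear_combination (norm := module) (1 : R11) • Qf1 - (2 * w6) • h20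
  have k2 : q5 • a2 = 0 := by
    linear_combination (norm := module) (1 : R11) • Qf2 - (2 * w6) • h21
  have k3 : q5 • a3 = 0 := by
    linear_combination (norm := module) (1 : R11) • Qf3 - (2 * w6) • h22
  have k4 : q5 • a4 = 0 := by
    linear_combination (norm := module) (1 : R11) • Qf4 + (2 * w2) • Qc3 - (2 * w5) • h22
  -- the quadratic coordinates
  have e0 : q3 • a0 = 0 := by
    linear_combination (norm := module) (1 : R11) • E0 - (4 * w5) • h20
  have e1 : q3 • a1 + (2 * q2) • a0 = 0 := by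
    linear_combination (norm := module) (1 : R11) • E1 - (4 * w5) • h21
  have e2 : q3 • a2 + (2 * q2) • a1 = 0 := by
    linear_combination (norm := module) (1 : R11) • E2 - (4 * w5) • h22
  have e3 : q3 • a3 + (2 * q2) • a2 = 0 := by
    linear_combination (norm := module) (1 : R11) • E3 - (4 * w2) • h53
  have e4 : q3 • a4 + (2 * q2) • a3 = 0 := by
    linear_combination (norm := module) (1 : R11) • E4 - (4 * w2) • h54
  have e5 : q2 • a4 = 0 := by
    apply smul_eq_zero_of_nat (n := 2) (by norm_num)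
    push_cast
    linear_combination (norm := module) (1 : R11) • E5
  have f0 : q4 • a0 = 0 := by
    apply smul_eq_zero_of_nat (n := 2) (by norm_num)
    push_cast
    linear_combination (norm := module) (1 : R11) • F0
  have f1 : q4 • a1 = 0 := by
    apply smul_eq_zero_of_nat (n := 2) (by norm_num)
    push_cast
    linear_combination (norm := module) (1 : R11) • F1 - (4 * w5) • h20 - (1 : R11) • e0
  have f2 : (2 * q4) • a2 + q3 • a1 = 0 := by
    linear_combination (norm := module) (1 : R11) • F2 - (4 * w5) • h21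
  have f3 : (2 * q4) • a3 + q3 • a2 = 0 := by
    linear_combination (norm := module) (1 : R11) • F3 - (4 * w5) • h22
  have f4 : (2 * q4) • a4 + q3 • a3 = 0 := by
    linear_combination (norm := module) (1 : R11) • F4 - (4 * w2) • h53
  have f5 : q3 • a4 = 0 := by
    linear_combination (norm := module) (1 : R11) • F5 - (4 * w2) • h54
  have g3 : q2 • a3 = 0 := by
    apply smul_eq_zero_of_nat (n := 2) (by norm_num)
    push_cast
    linear_combination (norm := module) (1 : R11) • e4 - (1 : R11) • f5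
  have g2 : q2 • a2 = q4 • a4 := by
    rw [← sub_eq_zero]
    apply smul_eq_zero_of_nat (n := 2) (by norm_num)
    push_cast
    linear_combination (norm := module) (1 : R11) • e3 - (1 : R11) • f4
  have g1 : q2 • a1 = q4 • a3 := by
    rw [← sub_eq_zero]
    apply smul_eq_zero_of_nat (n := 2) (by norm_num)
    push_cast
    linear_combination (norm := module) (1 : R11) • e2 - (1 : R11) • f3
  have g0 : q2 • a0 = q4 • a2 := by
    rw [← sub_eq_zero]
    apply smul_eq_zero_of_nat (n := 2) (by norm_num)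
    push_cast
    linear_combination (norm := module) (1 : R11) • e1 - (1 : R11) • f2
  have p31 : (q3 * q3) • a1 = 0 := by
    linear_combination (norm := module) q3 • e1 - (2 * q2) • e0
  have hcase : ∀ i : Fin 6, cA i = a0 ∨ cA i = a1 ∨ cA i = a2 ∨ cA i = a3 ∨ cA i = a4 ∨ cA i = 0 := by
    intro i
    fin_cases i
    · exact Or.inl rfl
    · exact Or.inr (Or.inl rfl)
    · exact Or.inr (Or.inr (Or.inl rfl))
    · exact Or.inr (Or.inr (Or.inr (Or.inl rfl)))
    · exact Or.inr (Or.inr (Or.inr (Or.inr (Or.inl rfl))))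
    · exact Or.inr (Or.inr (Or.inr (Or.inr (Or.inr z5))))
  have hj : j = 0 ∨ j = 1 ∨ j = 2 ∨ j = 3 ∨ j = 4 ∨ j = 5 ∨ j = 6 ∨ j = 7 ∨ j = 8 ∨ j = 9 ∨ j = 10 := by
    fin_cases j <;> simp
  rcases hj with rfl | rfl | rfl | rfl | rfl | rfl | rfl | rfl | rfl | rfl | rfl
  · rw [← hw0]
    rcases hcase i with h | h | h | h | h | h <;> rw [h]
    · linear_combination (norm := module) (w0 * w0) • h00
    · linear_combination (norm := module) w0 • s01
    · linear_combination (norm := module) w0 • s02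
    · linear_combination (norm := module) (w0 * w0) • h03
    · linear_combination (norm := module) (w0 * w0) • h04
    · exact smul_zero _
  · rw [← hw1]
    rcases hcase i with h | h | h | h | h | h <;> rw [h]
    · linear_combination (norm := module) (w1 * w1) • h10
    · linear_combination (norm := module) (w1 * w1) • h11
    · linear_combination (norm := module) w1 • s12
    · linear_combination (norm := module) w1 • s13
    · linear_combination (norm := module) (w1 * w1) • h14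
    · exact smul_zero _
  · rw [← hw2]
    rcases hcase i with h | h | h | h | h | h <;> rw [h]
    · linear_combination (norm := module) (w2 * w2) • h20
    · linear_combination (norm := module) (w2 * w2) • h21
    · linear_combination (norm := module) (w2 * w2) • h22
    · linear_combination (norm := module) w2 • s23
    · linear_combination (norm := module) w2 • s24
    · exact smul_zero _
  · rw [← hw5]
    rcases hcase i with h | h | h | h | h | h <;> rw [h]
    · linear_combination (norm := module) w5 • s50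
    · linear_combination (norm := module) w5 • s51
    · linear_combination (norm := module) w5 • s52
    · linear_combination (norm := module) (w5 * w5) • h53
    · linear_combination (norm := module) (w5 * w5) • h54
    · exact smul_zero _
  · rw [← hw6]
    rcases hcase i with h | h | h | h | h | h <;> rw [h]
    · linear_combination (norm := module) (w6 * w6) • h60
    · linear_combination (norm := module) w6 • s61
    · linear_combination (norm := module) w6 • s62
    · linear_combination (norm := module) w6 • s63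
    · linear_combination (norm := module) (w6 * w6) • h64
    · exact smul_zero _
  · rw [← hq0]
    rcases hcase i with h | h | h | h | h | h <;> rw [h]
    · linear_combination (norm := module) (q0 * q0) • m0
    · linear_combination (norm := module) (q0 * q0) • m1
    · linear_combination (norm := module) (q0 * q0) • m2
    · linear_combination (norm := module) (q0 * q0) • m3
    · linear_combination (norm := module) (q0 * q0) • m4
    · exact smul_zero _
  · rw [← hq1]
    rcases hcase i with h | h | h | h | h | h <;> rw [h]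
    · linear_combination (norm := module) (q1 * q1) • n0
    · linear_combination (norm := module) (q1 * q1) • n1
    · linear_combination (norm := module) (q1 * q1) • n2
    · linear_combination (norm := module) (q1 * q1) • n3
    · linear_combination (norm := module) (q1 * q1) • n4
    · exact smul_zero _
  · rw [← hq2]
    rcases hcase i with h | h | h | h | h | h <;> rw [h]
    · linear_combination (norm := module) (q2 * q2) • g0 + (q2 * q4) • g2 + (q4 * q4) • e5
    · linear_combination (norm := module) (q2 * q2) • g1 + (q2 * q4) • g3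
    · linear_combination (norm := module) (q2 * q2) • g2 + (q2 * q4) • e5
    · linear_combination (norm := module) (q2 * q2) • g3
    · linear_combination (norm := module) (q2 * q2) • e5
    · exact smul_zero _
  · rw [← hq3]
    rcases hcase i with h | h | h | h | h | h <;> rw [h]
    · linear_combination (norm := module) (q3 * q3) • e0
    · linear_combination (norm := module) q3 • p31
    · linear_combination (norm := module) (q3 * q3) • e2 - (2 * q2) • p31
    · linear_combination (norm := module) (q3 * q3) • f4 - (2 * q3 * q4) • f5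
    · linear_combination (norm := module) (q3 * q3) • f5
    · exact smul_zero _
  · rw [← hq4]
    rcases hcase i with h | h | h | h | h | h <;> rw [h]
    · linear_combination (norm := module) (q4 * q4) • f0
    · linear_combination (norm := module) (q4 * q4) • f1
    · linear_combination (norm := module) (-(q4 * q4)) • g0 + (q4 * q2) • f0
    · linear_combination (norm := module) (-(q4 * q4)) • g1 + (q4 * q2) • f1
    · linear_combination (norm := module) (-(q4 * q4)) • g2 - (q4 * q2) • g0 + (q2 * q2) • f0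
    · exact smul_zero _
  · rw [← hq5]
    rcases hcase i with h | h | h | h | h | h <;> rw [h]
    · linear_combination (norm := module) (q5 * q5) • k0
    · linear_combination (norm := module) (q5 * q5) • k1
    · linear_combination (norm := module) (q5 * q5) • k2
    · linear_combination (norm := module) (q5 * q5) • k3
    · linear_combination (norm := module) (q5 * q5) • k4
    · exact smul_zero _

end Pool.Agent.Helper66_Germ
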