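import Pool.Agent.Helper66_Germ.Germ

/-!
# The centres of the double point lines
-/

set_option autoImplicit false
open Set Metric Filter Topology

namespace Pool.Agent.Helper66_Germ

/-- The first five coordinates. -/
def lo (z : Fin 7 → ℂ) : Fin 5 → ℂ := ![z 0, z 1, z 2, z 3, z 4]

/-- The last two coordinates. -/
def hi (z : Fin 7 → ℂ) : ℂ × ℂ := (z 5, z 6)

/-- The equations `b(v, (u, m)) = - s v₁ e₀`. -/
def Ceq (s : ℂ) (u : Fin 5 → ℂ) (m v : ℂ × ℂ) : Prop :=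
  v.2 * u 0 - v.1 * u 1 + s * v.1 = 0 ∧ v.2 * u 1 - v.1 * u 2 = 0 ∧
  v.2 * u 2 - v.1 * m.1 = 0 ∧ v.2 * m.1 + v.1 * m.2 = 0 ∧ v.2 * m.2 + v.1 * u 3 = 0 ∧
  v.2 * u 3 - v.1 * u 4 = 0

lemma Ceq.smul {s : ℂ} {u : Fin 5 → ℂ} {m v : ℂ × ℂ} (h : Ceq s u m v) (t : ℂ) :
    Ceq s u m (t • v) := by
  obtain ⟨h0, h1, h2, h3, h4, h5⟩ := h
  simp only [Ceq, Prod.smul_fst, Prod.smul_snd, smul_eq_mul]
  refine ⟨?_, ?_, ?_, ?_, ?_, ?_⟩
  · linear_combination t * h0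
  · linear_combination t * h1
  · linear_combination t * h2
  · linear_combination t * h3
  · linear_combination t * h4
  · linear_combination t * h5

lemma Ceq.norm_le {s : ℂ} {u : Fin 5 → ℂ} {m v : ℂ × ℂ} (h : Ceq s u m v) (hv : v ≠ 0) :
    ‖m‖ ≤ ‖u‖ := by
  obtain ⟨-, -, h2, h3, h4, -⟩ := h
  have hu2 := norm_le_pi_norm u 2
  have hu3 := norm_le_pi_norm u 3
  have k2 : ‖v.2‖ * ‖u 2‖ = ‖v.1‖ * ‖m.1‖ := by
    rw [← norm_mul, ← norm_mul, sub_eq_zero.1 h2]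
  have k3 : ‖v.2‖ * ‖m.1‖ = ‖v.1‖ * ‖m.2‖ := by
    rw [← norm_mul, ← norm_mul, eq_neg_of_add_eq_zero_left h3, norm_neg]
  have k4 : ‖v.2‖ * ‖m.2‖ = ‖v.1‖ * ‖u 3‖ := by
    rw [← norm_mul, ← norm_mul, eq_neg_of_add_eq_zero_left h4, norm_neg]
  have n1 := norm_nonneg v.1
  have n2 := norm_nonneg v.2
  rw [Prod.norm_def]
  rcases le_total ‖v.1‖ ‖v.2‖ with hle | hle
  · have hpos : 0 < ‖v.2‖ := by
      rcases n2.lt_or_eq with h | h
      · exact h
      · exfalso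
        apply hv
        have h2 : ‖v.1‖ = 0 := le_antisymm (h ▸ hle) n1
        exact Prod.ext (norm_eq_zero.1 h2) (norm_eq_zero.1 h.symm)
    have l2 : ‖m.2‖ ≤ ‖u 3‖ := by
      have : ‖v.2‖ * ‖m.2‖ ≤ ‖v.2‖ * ‖u 3‖ := by
        rw [k4]; exact mul_le_mul_of_nonneg_right hle (norm_nonneg _)
      exact le_of_mul_le_mul_left this hpos
    have l1 : ‖m.1‖ ≤ ‖m.2‖ := by
      have : ‖v.2‖ * ‖m.1‖ ≤ ‖v.2‖ * ‖m.2‖ := by
        rw [k3]; exact mul_le_mul_of_nonneg_right hle (norm_nonneg _)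
      exact le_of_mul_le_mul_left this hpos
    exact max_le (by linarith) (by linarith)
  · have hpos : 0 < ‖v.1‖ := by
      rcases n1.lt_or_eq with h | h
      · exact h
      · exfalso
        apply hv
        have h2 : ‖v.2‖ = 0 := le_antisymm (h ▸ hle) n2
        exact Prod.ext (norm_eq_zero.1 h.symm) (norm_eq_zero.1 h2)
    have l1 : ‖m.1‖ ≤ ‖u 2‖ := by
      have : ‖v.1‖ * ‖m.1‖ ≤ ‖v.1‖ * ‖u 2‖ := by
        rw [← k2]; exact mul_le_mul_of_nonneg_right hle (norm_nonneg _)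
      exact le_of_mul_le_mul_left this hpos
    have l2 : ‖m.2‖ ≤ ‖m.1‖ := by
      have : ‖v.1‖ * ‖m.2‖ ≤ ‖v.1‖ * ‖m.1‖ := by
        rw [← k3]; exact mul_le_mul_of_nonneg_right hle (norm_nonneg _)
      exact le_of_mul_le_mul_left this hpos
    exact max_le (by linarith) (by linarith)

lemma Ceq.rel {s : ℂ} {u : Fin 5 → ℂ} {m v : ℂ × ℂ} (h : Ceq s u m v) (hv : v ≠ 0) :
    m.1 * u 1 = u 2 ^ 2 ∧ m.1 * u 3 = u 2 * u 4 ∧ m.2 * u 4 = - u 3 ^ 2 ∧
      m.2 * u 2 = - (u 1 * u 3) ∧ (u 1 = 0 → u 3 = 0 → m.1 = 0) ∧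
      (u 4 = 0 → u 2 = 0 → m.2 = 0) := by
  obtain ⟨h0, h1, h2, h3, h4, h5⟩ := h
  obtain ⟨v1, v2⟩ := v
  obtain ⟨m1, m2⟩ := m
  simp only at *
  by_cases hv1 : v1 = 0
  · have hv2 : v2 ≠ 0 := by
      rintro rfl
      exact hv (by rw [hv1]; rfl)
    subst hv1
    simp only [zero_mul, sub_zero, add_zero, mul_eq_zero, hv2, false_or] at h1 h2 h3 h4 h5
    rw [h1, h2, h3, h4, h5]
    simp
  · by_cases hv2 : v2 = 0
    · subst hv2
      simp only [zero_mul, zero_sub, zero_add, neg_eq_zero, mul_eq_zero, hv1, false_or] at h1 h2 h3 h4 h5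
      rw [h1, h2, h3, h4, h5]
      simp
    · -- set t = v1 / v2
      obtain ⟨t, ht⟩ : ∃ t, v1 = t * v2 := ⟨v1 / v2, by field_simp⟩
      subst ht
      have e1 : u 1 = t * u 2 := mul_left_cancel₀ hv2 (by linear_combination h1)
      have e2 : u 2 = t * m1 := mul_left_cancel₀ hv2 (by linear_combination h2)
      have e3 : m1 = - (t * m2) := mul_left_cancel₀ hv2 (by linear_combination h3)
      have e4 : m2 = - (t * u 3) := mul_left_cancel₀ hv2 (by linear_combination h4)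
      have e5 : u 3 = t * u 4 := mul_left_cancel₀ hv2 (by linear_combination h5)
      have ht0 : t ≠ 0 := by
        rintro rfl
        exact hv1 (zero_mul _)
      refine ⟨?_, ?_, ?_, ?_, ?_, ?_⟩
      · rw [e1, e2]; ring
      · rw [e5, e2]; ring
      · rw [e4, e5]; ring
      · rw [e1, e2, e3, e4]; ring
      · intro _ k3
        rw [e3, e4, k3]; ring
      · intro _ k2
        rw [e2, e3] at k2
        simpa [ht0] using k2

lemma Ceq.unique {s : ℂ} {u : Fin 5 → ℂ} {m v m' v' : ℂ × ℂ} (h : Ceq s u m v) (hv : v ≠ 0)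
    (h' : Ceq s u m' v') (hv' : v' ≠ 0) : m = m' := by
  obtain ⟨a1, a2, a3, a4, a5, a6⟩ := h.rel hv
  obtain ⟨b1, b2, b3, b4, b5, b6⟩ := h'.rel hv'
  apply Prod.ext
  · by_cases k1 : u 1 = 0
    · by_cases k3 : u 3 = 0
      · rw [a5 k1 k3, b5 k1 k3]
      · exact mul_right_cancel₀ k3 (a2.trans b2.symm)
    · exact mul_right_cancel₀ k1 (a1.trans b1.symm)
  · by_cases k4 : u 4 = 0
    · by_cases k2 : u 2 = 0
      · rw [a6 k4 k2, b6 k4 k2]
      · exact mul_right_cancel₀ k2 (a4.trans b4.symm)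
    · exact mul_right_cancel₀ k4 (a3.trans b3.symm)

/-- Two vectors orthogonal to the same nonzero vector are proportional. -/
lemma parallel_of {v v' : ℂ × ℂ} {a b : ℂ} (h : v.2 * a = v.1 * b) (h' : v'.2 * a = v'.1 * b)
    (hab : a ≠ 0 ∨ b ≠ 0) : v.1 * v'.2 = v.2 * v'.1 := by
  rcases hab with ha | hb
  · apply mul_right_cancel₀ ha
    linear_combination v.1 * h' - v'.1 * h
  · apply mul_right_cancel₀ hb
    linear_combination v.2 * h' - v'.2 * h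

/-- The direction is determined by the first five coordinates, up to proportionality. -/
lemma Ceq.parallel {s : ℂ} (hs : s ≠ 0) {u : Fin 5 → ℂ} {m v m' v' : ℂ × ℂ} (h : Ceq s u m v)
    (hv : v ≠ 0) (h' : Ceq s u m' v') (hv' : v' ≠ 0) : v.1 * v'.2 = v.2 * v'.1 := by
  have hm := h.unique hv h' hv'
  subst hm
  obtain ⟨h0, h1, h2, h3, h4, h5⟩ := h
  obtain ⟨k0, k1, k2, k3, k4, k5⟩ := h'
  by_cases c1 : u 1 = 0
  · have c2 : u 1 - s ≠ 0 := by rw [c1, zero_sub]; exact neg_ne_zero.2 hs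
    exact parallel_of (a := u 0) (b := u 1 - s) (by linear_combination h0) (by linear_combination k0)
      (Or.inr c2)
  · exact parallel_of (a := u 1) (b := u 2) (by linear_combination h1) (by linear_combination k1)
      (Or.inl c1)

/-- A point on the line with direction `v`, depending continuously on `v ≠ 0`. -/
noncomputable def wstar (s : ℂ) (v : ℂ × ℂ) : Fin 7 → ℂ :=
  let c := (starRingEnd ℂ) v.1
  let d := (starRingEnd ℂ) v.2
  let D := (v.1 * c) ^ 5 + (v.2 * d) ^ 5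
  ![- (s * v.1 * d * (v.2 * d) ^ 4 / D), s * v.1 ^ 5 * c ^ 5 / D, s * v.1 ^ 4 * v.2 * c ^ 5 / D,
    s * v.1 * v.2 ^ 4 * c ^ 5 / D, s * v.2 ^ 5 * c ^ 5 / D, s * v.1 ^ 3 * v.2 ^ 2 * c ^ 5 / D,
    - (s * v.1 ^ 2 * v.2 ^ 3 * c ^ 5 / D)]

/-- The denominator. -/
noncomputable def dnm (v : ℂ × ℂ) : ℂ :=
  (v.1 * (starRingEnd ℂ) v.1) ^ 5 + (v.2 * (starRingEnd ℂ) v.2) ^ 5

lemma dnm_eq (v : ℂ × ℂ) : dnm v = ((‖v.1‖ ^ 10 + ‖v.2‖ ^ 10 : ℝ) : ℂ) := by
  unfold dnm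
  rw [Complex.mul_conj, Complex.mul_conj, Complex.normSq_eq_norm_sq, Complex.normSq_eq_norm_sq]
  push_cast
  ring

lemma norm_pow_le_dnm (v : ℂ × ℂ) : ‖v‖ ^ 10 ≤ ‖dnm v‖ := by
  rw [dnm_eq, Complex.norm_real, Real.norm_of_nonneg (by positivity), Prod.norm_def]
  rcases le_total ‖v.1‖ ‖v.2‖ with h | h
  · rw [max_eq_right h]
    have : 0 ≤ ‖v.1‖ ^ 10 := by positivity
    linarith
  · rw [max_eq_left h]
    have : 0 ≤ ‖v.2‖ ^ 10 := by positivity
    linarith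

lemma dnm_ne_zero {v : ℂ × ℂ} (hv : v ≠ 0) : dnm v ≠ 0 := by
  intro h
  have h1 := norm_pow_le_dnm v
  rw [h, norm_zero] at h1
  have : 0 < ‖v‖ ^ 10 := by
    have := norm_pos_iff.2 hv
    positivity
  linarith

lemma wstar_Ceq {s : ℂ} {v : ℂ × ℂ} (hv : v ≠ 0) :
    Ceq s (lo (wstar s v)) (hi (wstar s v)) v := by
  have hD := dnm_ne_zero hv
  unfold dnm at hD
  simp only [Ceq, lo, hi, wstar]
  simp only [Matrix.cons_val]
  generalize hDD : (v.1 * (starRingEnd ℂ) v.1) ^ 5 + (v.2 * (starRingEnd ℂ) v.2) ^ 5 = D at hD ⊢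
  refine ⟨?_, ?_, ?_, ?_, ?_, ?_⟩
  · field_simp
    rw [← hDD]
    ring
  · field_simp
    ring
  · field_simp
    ring
  · field_simp
    ring
  · field_simp
    ring
  · field_simp
    ring

lemma norm_wstar_le {s : ℂ} {v : ℂ × ℂ} (hv : v ≠ 0) : ‖wstar s v‖ ≤ ‖s‖ := by
  have hpos : 0 < ‖v‖ := norm_pos_iff.2 hv
  have h1 : ‖v.1‖ ≤ ‖v‖ := norm_fst_le v
  have h2 : ‖v.2‖ ≤ ‖v‖ := norm_snd_le v
  have hd := norm_pow_le_dnm v
  have hdpos : 0 < ‖dnm v‖ := norm_pos_iff.2 (dnm_ne_zero hv)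
  have key : ∀ (a b c d : ℕ), a + b + c + d = 10 →
      ‖s‖ * (‖v.1‖ ^ a * ‖v.2‖ ^ b * ‖v.1‖ ^ c * ‖v.2‖ ^ d) / ‖dnm v‖ ≤ ‖s‖ := by
    intro a b c d h
    rw [div_le_iff₀ hdpos]
    refine mul_le_mul_of_nonneg_left ?_ (norm_nonneg _)
    refine le_trans ?_ hd
    calc ‖v.1‖ ^ a * ‖v.2‖ ^ b * ‖v.1‖ ^ c * ‖v.2‖ ^ d
        ≤ ‖v‖ ^ a * ‖v‖ ^ b * ‖v‖ ^ c * ‖v‖ ^ d := by gcongr
      _ = ‖v‖ ^ 10 := by rw [← h]; ring
  rw [pi_norm_le_iff_of_nonneg (norm_nonneg _)]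
  intro i
  fin_cases i
  · refine le_trans (le_of_eq ?_) (key 1 4 0 5 rfl)
    simp only [wstar, dnm]
    simp [norm_pow, norm_neg]
    ring
  · refine le_trans (le_of_eq ?_) (key 5 0 5 0 rfl)
    simp only [wstar, dnm]
    simp [norm_pow]
    ring
  · refine le_trans (le_of_eq ?_) (key 4 1 5 0 rfl)
    simp only [wstar, dnm]
    simp [norm_pow]
    ring
  · refine le_trans (le_of_eq ?_) (key 1 4 5 0 rfl)
    simp only [wstar, dnm]
    simp [norm_pow]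
    ring
  · refine le_trans (le_of_eq ?_) (key 0 5 5 0 rfl)
    simp only [wstar, dnm]
    simp [norm_pow]
    ring
  · refine le_trans (le_of_eq ?_) (key 3 2 5 0 rfl)
    simp only [wstar, dnm]
    simp [norm_pow]
    ring
  · refine le_trans (le_of_eq ?_) (key 2 3 5 0 rfl)
    simp only [wstar, dnm]
    simp [norm_pow]
    ring

lemma continuousAt_wstar {s : ℂ} {v : ℂ × ℂ} (hv : v ≠ 0) : ContinuousAt (wstar s) v := by
  have hD := dnm_ne_zero hv
  unfold dnm at hD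
  have c1 : Continuous fun v : ℂ × ℂ => (starRingEnd ℂ) v.1 := Complex.continuous_conj.comp continuous_fst
  have c2 : Continuous fun v : ℂ × ℂ => (starRingEnd ℂ) v.2 := Complex.continuous_conj.comp continuous_snd
  rw [continuousAt_pi]
  intro i
  have c3 : ContinuousAt (fun v : ℂ × ℂ => (v.1 * (starRingEnd ℂ) v.1) ^ 5 +
    (v.2 * (starRingEnd ℂ) v.2) ^ 5) v := by
    apply Continuous.continuousAt
    fun_prop
  fin_cases i
  · show ContinuousAt (fun v : ℂ × ℂ => - (s * v.1 * (starRingEnd ℂ) v.2 *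
      (v.2 * (starRingEnd ℂ) v.2) ^ 4 / ((v.1 * (starRingEnd ℂ) v.1) ^ 5 +
        (v.2 * (starRingEnd ℂ) v.2) ^ 5))) v
    refine (ContinuousAt.div (Continuous.continuousAt ?_) c3 hD).neg
    fun_prop
  · show ContinuousAt (fun v : ℂ × ℂ => s * v.1 ^ 5 * (starRingEnd ℂ) v.1 ^ 5 /
      ((v.1 * (starRingEnd ℂ) v.1) ^ 5 + (v.2 * (starRingEnd ℂ) v.2) ^ 5)) v
    refine ContinuousAt.div (Continuous.continuousAt ?_) c3 hD
    fun_prop
  · show ContinuousAt (fun v : ℂ × ℂ => s * v.1 ^ 4 * v.2 * (starRingEnd ℂ) v.1 ^ 5 /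
      ((v.1 * (starRingEnd ℂ) v.1) ^ 5 + (v.2 * (starRingEnd ℂ) v.2) ^ 5)) v
    refine ContinuousAt.div (Continuous.continuousAt ?_) c3 hD
    fun_prop
  · show ContinuousAt (fun v : ℂ × ℂ => s * v.1 * v.2 ^ 4 * (starRingEnd ℂ) v.1 ^ 5 /
      ((v.1 * (starRingEnd ℂ) v.1) ^ 5 + (v.2 * (starRingEnd ℂ) v.2) ^ 5)) v
    refine ContinuousAt.div (Continuous.continuousAt ?_) c3 hD
    fun_prop
  · show ContinuousAt (fun v : ℂ × ℂ => s * v.2 ^ 5 * (starRingEnd ℂ) v.1 ^ 5 /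
      ((v.1 * (starRingEnd ℂ) v.1) ^ 5 + (v.2 * (starRingEnd ℂ) v.2) ^ 5)) v
    refine ContinuousAt.div (Continuous.continuousAt ?_) c3 hD
    fun_prop
  · show ContinuousAt (fun v : ℂ × ℂ => s * v.1 ^ 3 * v.2 ^ 2 * (starRingEnd ℂ) v.1 ^ 5 /
      ((v.1 * (starRingEnd ℂ) v.1) ^ 5 + (v.2 * (starRingEnd ℂ) v.2) ^ 5)) v
    refine ContinuousAt.div (Continuous.continuousAt ?_) c3 hD
    fun_prop
  · show ContinuousAt (fun v : ℂ × ℂ => - (s * v.1 ^ 2 * v.2 ^ 3 * (starRingEnd ℂ) v.1 ^ 5 /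
      ((v.1 * (starRingEnd ℂ) v.1) ^ 5 + (v.2 * (starRingEnd ℂ) v.2) ^ 5))) v
    refine (ContinuousAt.div (Continuous.continuousAt ?_) c3 hD).neg
    fun_prop

lemma wstar_smul {s t : ℂ} (ht : t ≠ 0) {v : ℂ × ℂ} (hv : v ≠ 0) :
    wstar s (t • v) = wstar s v := by
  have hD := dnm_ne_zero hv
  unfold dnm at hD
  have hD' := dnm_ne_zero (smul_ne_zero ht hv)
  unfold dnm at hD'
  have htc : (starRingEnd ℂ) t ≠ 0 := by simpa using ht
  simp only [Prod.smul_fst, Prod.smul_snd, smul_eq_mul, map_mul] at hD'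
  have hDD : (t * v.1 * ((starRingEnd ℂ) t * (starRingEnd ℂ) v.1)) ^ 5 +
      (t * v.2 * ((starRingEnd ℂ) t * (starRingEnd ℂ) v.2)) ^ 5 =
      (t * (starRingEnd ℂ) t) ^ 5 * ((v.1 * (starRingEnd ℂ) v.1) ^ 5 +
        (v.2 * (starRingEnd ℂ) v.2) ^ 5) := by ring
  simp only [wstar, Prod.smul_fst, Prod.smul_snd, smul_eq_mul, map_mul]
  rw [hDD]
  ext i
  fin_cases i
  · show -(_ / _) = -(_ / _)
    congr 1
    rw [div_eq_div_iff (mul_ne_zero (pow_ne_zero _ (mul_ne_zero ht htc)) hD) hD]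
    ring
  · show (_ / _ : ℂ) = _ / _
    rw [div_eq_div_iff (mul_ne_zero (pow_ne_zero _ (mul_ne_zero ht htc)) hD) hD]
    ring
  · show (_ / _ : ℂ) = _ / _
    rw [div_eq_div_iff (mul_ne_zero (pow_ne_zero _ (mul_ne_zero ht htc)) hD) hD]
    ring
  · show (_ / _ : ℂ) = _ / _
    rw [div_eq_div_iff (mul_ne_zero (pow_ne_zero _ (mul_ne_zero ht htc)) hD) hD]
    ring
  · show (_ / _ : ℂ) = _ / _
    rw [div_eq_div_iff (mul_ne_zero (pow_ne_zero _ (mul_ne_zero ht htc)) hD) hD]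
    ring
  · show (_ / _ : ℂ) = _ / _
    rw [div_eq_div_iff (mul_ne_zero (pow_ne_zero _ (mul_ne_zero ht htc)) hD) hD]
    ring
  · show -(_ / _) = -(_ / _)
    congr 1
    rw [div_eq_div_iff (mul_ne_zero (pow_ne_zero _ (mul_ne_zero ht htc)) hD) hD]
    ring

lemma wstar_eq_of_parallel {s : ℂ} {v v' : ℂ × ℂ} (hv : v ≠ 0) (hv' : v' ≠ 0)
    (h : v.1 * v'.2 = v.2 * v'.1) : wstar s v = wstar s v' := by
  by_cases h1 : v.1 = 0
  · have h2 : v.2 ≠ 0 := fun h2 => hv (Prod.ext h1 h2)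
    have h3 : v'.1 = 0 := by
      rw [h1, zero_mul] at h
      rcases mul_eq_zero.1 h.symm with h | h
      · exact absurd h h2
      · exact h
    have h4 : v'.2 ≠ 0 := fun h4 => hv' (Prod.ext h3 h4)
    have e : v' = (v'.2 / v.2) • v := by
      ext
      · simp [h1, h3]
      · simp only [Prod.smul_snd, smul_eq_mul]; field_simp
    rw [e, wstar_smul (div_ne_zero h4 h2) hv]
  · have h3 : v'.1 ≠ 0 := by
      intro h3
      rw [h3, mul_zero] at h
      rcases mul_eq_zero.1 h with h | h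
      · exact h1 h
      · exact hv' (Prod.ext h3 h)
    have e : v' = (v'.1 / v.1) • v := by
      ext
      · simp only [Prod.smul_fst, smul_eq_mul]; field_simp
      · simp only [Prod.smul_snd, smul_eq_mul]; field_simp; linear_combination h
    rw [e, wstar_smul (div_ne_zero h3 h1) hv]

/-- The centre map. -/
theorem exists_center {s : ℂ} (hs : s ≠ 0) {ε : ℝ} :
    ∃ c : (Fin 5 → ℂ) → (Fin 7 → ℂ), Continuous c ∧ (∀ u, ‖c u‖ ≤ ‖s‖) ∧
      ∀ u m v, ‖u‖ ≤ ε → v ≠ 0 → Ceq s u m v → Ceq s (lo (c u)) (hi (c u)) v := by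
  set K : Set ((Fin 5 → ℂ) × (ℂ × ℂ) × (ℂ × ℂ)) :=
    (closedBall 0 ε ×ˢ closedBall 0 ε ×ˢ sphere 0 1) ∩ {p | Ceq s p.1 p.2.1 p.2.2} with hK
  have hKc : IsCompact K := by
    refine IsCompact.inter_right ?_ ?_
    · exact (isCompact_closedBall _ _).prod ((isCompact_closedBall _ _).prod (isCompact_sphere _ _))
    · unfold Ceq
      refine IsClosed.inter (isClosed_eq (by fun_prop) continuous_const) ?_
      refine IsClosed.inter (isClosed_eq (by fun_prop) continuous_const) ?_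
      refine IsClosed.inter (isClosed_eq (by fun_prop) continuous_const) ?_
      refine IsClosed.inter (isClosed_eq (by fun_prop) continuous_const) ?_
      refine IsClosed.inter (isClosed_eq (by fun_prop) continuous_const) ?_
      exact isClosed_eq (by fun_prop) continuous_const
  have : CompactSpace K := isCompact_iff_compactSpace.1 hKc
  have hv0 : ∀ p ∈ K, p.2.2 ≠ 0 := by
    rintro p ⟨⟨-, -, h3⟩, -⟩ h0
    rw [h0] at h3
    simp at h3
  set X : Set (Fin 5 → ℂ) := Prod.fst '' K with hX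
  have hXc : IsCompact X := hKc.image continuous_fst
  set π : C(K, X) := ⟨fun p => ⟨p.1.1, ⟨p.1, p.2, rfl⟩⟩, by fun_prop⟩ with hπ
  have hπq : IsQuotientMap π := by
    refine π.continuous.isClosedMap.isQuotientMap π.continuous ?_
    rintro ⟨_, p, hp, rfl⟩
    exact ⟨⟨p, hp⟩, rfl⟩
  set g : C(K, Fin 7 → ℂ) := ⟨fun p => wstar s p.1.2.2, by
    rw [continuous_iff_continuousAt]
    intro p
    exact ContinuousAt.comp (f := fun p : K => p.1.2.2) (continuousAt_wstar (hv0 p.1 p.2))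
      (by fun_prop)⟩ with hg
  have hfac : Function.FactorsThrough g π := by
    intro p q hpq
    have h1 : p.1.1 = q.1.1 := congrArg Subtype.val hpq
    have hp := p.2.2
    have hq := q.2.2
    rw [mem_ofPred_eq] at hp hq
    rw [← h1] at hq
    exact wstar_eq_of_parallel (hv0 _ p.2) (hv0 _ q.2) (hp.parallel hs (hv0 _ p.2) hq (hv0 _ q.2))
  set G : C(X, Fin 7 → ℂ) := hπq.lift g hfac with hG
  have hGπ : ∀ p : K, G (π p) = wstar s p.1.2.2 := fun p =>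
    congrArg (fun k : C(K, Fin 7 → ℂ) => k p) (hπq.lift_comp g hfac)
  have := Metric.instTietzeExtensionClosedBall ℂ (0 : Fin 7 → ℂ) (norm_pos_iff.2 hs)
  obtain ⟨c, hc1, hc2⟩ := ContinuousMap.exists_forall_mem_restrict_eq (s := X) hXc.isClosed G
    (t := closedBall (0 : Fin 7 → ℂ) ‖s‖) (by
      intro q
      obtain ⟨p, rfl⟩ := hπq.surjective q
      rw [hGπ, mem_closedBall, dist_zero_right]
      exact norm_wstar_le (hv0 _ p.2))
  refine ⟨c, c.continuous, fun u => by simpa using hc1 u, ?_⟩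
  intro u m v hu hv hc
  have hn : ‖v‖ ≠ 0 := norm_ne_zero_iff.2 hv
  have hn' : ((‖v‖⁻¹ : ℝ) : ℂ) ≠ 0 := by
    rw [Ne, Complex.ofReal_eq_zero]
    exact inv_ne_zero hn
  have hmem : (u, m, ((‖v‖⁻¹ : ℝ) : ℂ) • v) ∈ K := by
    refine ⟨⟨by simpa using hu, ?_, ?_⟩, hc.smul _⟩
    · have := hc.norm_le hv
      simpa using this.trans hu
    · simp only [mem_sphere_iff_norm, sub_zero]
      rw [norm_smul, Complex.norm_real, norm_inv, norm_norm, inv_mul_cancel₀ hn]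
  have h1 : c u = G (π ⟨_, hmem⟩) := by
    have := congrArg (fun k : C(X, Fin 7 → ℂ) => k (π ⟨_, hmem⟩)) hc2
    exact this
  rw [h1, hGπ]
  simp only
  rw [wstar_smul hn' hv]
  exact wstar_Ceq hv

end Pool.Agent.Helper66_Germ
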