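import Pool.Agent.Helper66_Germ.Stab2

/-!
# The two charts, and stability of all multi-germs of `f_s` for `s ≠ 0`
-/

set_option autoImplicit false
open Set Metric Filter Topology

namespace Pool.Agent.Helper66_Germ

/-- A right inverse of `b(1, v2)`. -/
def rinv1 (v2 : ℂ) (G : Fin 6 → ℂ) : Fin 7 → ℂ :=
  let k1 := - G 0
  let k2 := v2 * k1 - G 1
  let k5 := v2 * k2 - G 2
  let k6 := G 3 - v2 * k5
  let k3 := - (v2 * k6) - G 4
  let k4 := v2 * k3 - G 5
  ![0, k1, k2, k3, k4, k5, k6]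

lemma bq_rinv1 (v2 : ℂ) (G : Fin 6 → ℂ) : bq 1 v2 (rinv1 v2 G) = G := by
  ext i
  fin_cases i <;> simp [bq, rinv1]

/-- A right inverse of `b(v1, 1)`. -/
def rinv2 (v1 : ℂ) (G : Fin 6 → ℂ) : Fin 7 → ℂ :=
  let k3 := G 5
  let k6 := - (G 4 + v1 * k3)
  let k5 := G 3 - v1 * k6
  let k2 := G 2 + v1 * k5
  let k1 := G 1 + v1 * k2
  let k0 := G 0 + v1 * k1
  ![k0, k1, k2, k3, 0, k5, k6]

lemma bq_rinv2 (v1 : ℂ) (G : Fin 6 → ℂ) : bq v1 1 (rinv2 v1 G) = G := by
  ext i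
  fin_cases i <;> simp [bq, rinv2]

lemma holAt_rinv1 {v : (Fin 11 → ℂ) → ℂ} {G : (Fin 11 → ℂ) → (Fin 6 → ℂ)} {Y : Fin 11 → ℂ}
    (hv : HolAt v Y) (hG : HolAt G Y) : HolAt (fun Y => rinv1 (v Y) (G Y)) Y := by
  apply HolAt.pi
  intro i
  fin_cases i <;> simp [rinv1] <;> fun_prop

lemma holAt_rinv2 {v : (Fin 11 → ℂ) → ℂ} {G : (Fin 11 → ℂ) → (Fin 6 → ℂ)} {Y : Fin 11 → ℂ}
    (hv : HolAt v Y) (hG : HolAt G Y) : HolAt (fun Y => rinv2 (v Y) (G Y)) Y := by
  apply HolAt.pi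
  intro i
  fin_cases i <;> simp [rinv2] <;> fun_prop

/-- The chart `b ≠ 0` (second coordinate). -/
noncomputable def chart1 (s : ℂ) (Y0 : Fin 11 → ℂ) (h : Y0 1 ≠ 0) : Chart s Y0 where
  V1 := fun _ => 1
  V2 := fun Y => Y 2 / Y 1
  X1 := fun Y => Y 2 ^ 2 / Y 1
  X2 := fun Y => (Y 6 + Y 2 ^ 3 / Y 1) / Y 1
  Cc := fun Y => -2 * Y 7 + (Y 2 ^ 2 / Y 1) ^ 2 + 2 * Y 6 * Y 2 / Y 1
  θ := fun z => z 5 - z 2 ^ 2 / z 1
  R := fun Y G => rinv1 (Y 2 / Y 1) G
  hV1 := holAt_const _ _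
  hV2 := by fun_prop (disch := assumption)
  hX1 := by fun_prop (disch := assumption)
  hX2 := by fun_prop (disch := assumption)
  hCc := by fun_prop (disch := assumption)
  hθ := by
    intro z hz
    have h1 : z 1 ≠ 0 := by
      have := congrFun hz 1
      simp [fs] at this
      rwa [this]
    fun_prop (disch := assumption)
  hid := by
    have h1 : ∀ᶠ Y : Fin 11 → ℂ in 𝓝 Y0, Y 1 ≠ 0 := (continuousAt_apply 1 Y0).eventually_ne h
    filter_upwards [h1] with Y hY z hz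
    subst hz
    have hY' : z 1 ≠ 0 := by simpa [fs] using hY
    simp only [fs]
    simp
    refine ⟨?_, ?_⟩
    · field_simp; ring
    · field_simp; ring
  hR := Eventually.of_forall fun Y G => bq_rinv1 _ _
  hRhol := fun G hG => holAt_rinv1 (by fun_prop (disch := assumption)) hG

/-- The chart `b ≠ s` (second coordinate). -/
noncomputable def chart2 (s : ℂ) (Y0 : Fin 11 → ℂ) (h : Y0 1 - s ≠ 0) : Chart s Y0 where
  V1 := fun Y => Y 0 / (Y 1 - s)
  V2 := fun _ => 1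
  X1 := fun Y => (- (Y 0 * Y 3 / (Y 1 - s)) * Y 0 - Y 5) / (Y 1 - s)
  X2 := fun Y => - (Y 0 * Y 3 / (Y 1 - s))
  Cc := fun Y => -2 * Y 9 + (Y 0 * Y 3 / (Y 1 - s)) ^ 2 + 2 * Y 5 * Y 3 / (Y 1 - s)
  θ := fun z => z 6 + z 0 * z 3 / (z 1 - s)
  R := fun Y G => rinv2 (Y 0 / (Y 1 - s)) G
  hV1 := by fun_prop (disch := assumption)
  hV2 := holAt_const _ _
  hX1 := by fun_prop (disch := assumption)
  hX2 := by fun_prop (disch := assumption)
  hCc := by fun_prop (disch := assumption)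
  hθ := by
    intro z hz
    have h1 : z 1 - s ≠ 0 := by
      have := congrFun hz 1
      simp [fs] at this
      rwa [this]
    fun_prop (disch := assumption)
  hid := by
    have h1 : ∀ᶠ Y : Fin 11 → ℂ in 𝓝 Y0, Y 1 - s ≠ 0 := by
      have : ContinuousAt (fun Y : Fin 11 → ℂ => Y 1 - s) Y0 :=
        (((continuous_apply 1).sub continuous_const : Continuous fun Y : Fin 11 → ℂ =>
          Y 1 - s)).continuousAt
      exact this.eventually_ne h
    filter_upwards [h1] with Y hY z hz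
    subst hz
    have hY' : z 1 - s ≠ 0 := by simpa [fs] using hY
    simp only [fs]
    simp
    refine ⟨?_, ?_⟩
    · field_simp; ring
    · field_simp; ring
  hR := Eventually.of_forall fun Y G => bq_rinv2 _ _
  hRhol := fun G hG => holAt_rinv2 (by fun_prop (disch := assumption)) hG

/-- **All multi-germs of `f_s` are stable for `s ≠ 0`.** -/
theorem stable_fs {s : ℂ} (hs : s ≠ 0) (Y : Fin 11 → ℂ) : Stable (fs s) {z | fs s z = Y} := by
  by_cases h : Y 1 = 0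
  · refine stable_of_chart (chart2 s Y ?_)
    rw [h, zero_sub]
    exact neg_ne_zero.2 hs
  · exact stable_of_chart (chart1 s Y h)

end Pool.Agent.Helper66_Germ
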