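import Pool.Agent.Helper66_Germ.Center

/-!
# The image of `f_s` in a small closed ball is contractible
-/

set_option autoImplicit false
open Set Metric Filter Topology

namespace Pool.Agent.Helper66_Germ

/-- The first five coordinates in the target. -/
def lo' (Y : Fin 11 → ℂ) : Fin 5 → ℂ := ![Y 0, Y 1, Y 2, Y 3, Y 4]

lemma lo'_fs (s : ℂ) (z : Fin 7 → ℂ) : lo' (fs s z) = lo z := by
  ext i
  fin_cases i <;> simp [lo', lo, fs]

lemma continuous_lo : Continuous lo := by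
  refine continuous_pi fun i => ?_
  fin_cases i <;> simp [lo] <;> fun_prop

lemma continuous_lo' : Continuous lo' := by
  refine continuous_pi fun i => ?_
  fin_cases i <;> simp [lo'] <;> fun_prop

lemma continuous_fs (s : ℂ) : Continuous (fs s) := (differentiable_fs s).continuous

lemma isClosed_cball (p : ℕ) (ε : ℝ) : IsClosed (cball p ε) := by
  unfold cball
  exact isClosed_le (by fun_prop) continuous_const

lemma norm_le_of_mem_cball {p : ℕ} {ε : ℝ} (hε : 0 ≤ ε) {y : Fin p → ℂ} (h : y ∈ cball p ε)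
    (i : Fin p) : ‖y i‖ ≤ ε := by
  have h1 : ‖y i‖ ^ 2 ≤ ∑ i, ‖y i‖ ^ 2 :=
    Finset.single_le_sum (f := fun i => ‖y i‖ ^ 2) (fun i _ => by positivity) (Finset.mem_univ i)
  have h2 : ∑ i, ‖y i‖ ^ 2 ≤ ε ^ 2 := h
  exact abs_le_of_sq_le_sq' (h1.trans h2) hε |>.2

/-- Points over a small ball are small. -/
lemma norm_le_of_fs {s : ℂ} {ε : ℝ} (hε0 : 0 ≤ ε) (hε : ε ≤ 1 / 1200) {z : Fin 7 → ℂ}
    (h : fs s z ∈ cball 11 ε) (i : Fin 7) : ‖z i‖ ≤ 1 / 20 := by
  have hn := norm_le_of_mem_cball hε0 h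
  have h0 := hn 0
  have h1 := hn 1
  have h2 := hn 2
  have h3 := hn 3
  have h4 := hn 4
  have h7 := hn 7
  have h9 := hn 9
  simp [fs] at h0 h1 h2 h3 h4 h7 h9
  have k1 : ‖z 5‖ ^ 2 ≤ 2 * ε + 2 * ε * ‖z 6‖ := by
    have e : z 5 ^ 2 = 2 * (z 6 * z 2) - 2 * (z 6 * z 2 - z 5 ^ 2 / 2) := by ring
    have e1 : ‖z 5 ^ 2‖ ≤ ‖2 * (z 6 * z 2)‖ + ‖2 * (z 6 * z 2 - z 5 ^ 2 / 2)‖ := by
      conv_lhs => rw [e]
      exact norm_sub_le _ _
    rw [norm_pow, norm_mul, norm_mul, norm_mul, Complex.norm_ofNat] at e1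
    nlinarith [norm_nonneg (z 6)]
  have k2 : ‖z 6‖ ^ 2 ≤ 2 * ε + 2 * ε * ‖z 5‖ := by
    have e : z 6 ^ 2 = - (2 * (z 5 * z 3)) - 2 * (-z 6 ^ 2 / 2 - z 5 * z 3) := by ring
    have e1 : ‖z 6 ^ 2‖ ≤ ‖- (2 * (z 5 * z 3))‖ + ‖2 * (-z 6 ^ 2 / 2 - z 5 * z 3)‖ := by
      conv_lhs => rw [e]
      exact norm_sub_le _ _
    rw [norm_pow, norm_neg, norm_mul, norm_mul, norm_mul, Complex.norm_ofNat] at e1
    nlinarith [norm_nonneg (z 5)]
  have n1 := norm_nonneg (z 5)
  have n2 := norm_nonneg (z 6)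
  have hmax : ‖z 5‖ ≤ 1 / 20 ∧ ‖z 6‖ ≤ 1 / 20 := by
    rcases le_total ‖z 5‖ ‖z 6‖ with hle | hle
    · have : ‖z 6‖ ≤ 1 / 20 := by
        by_contra hc
        push Not at hc
        nlinarith
      exact ⟨hle.trans this, this⟩
    · have : ‖z 5‖ ≤ 1 / 20 := by
        by_contra hc
        push Not at hc
        nlinarith
      exact ⟨this, hle.trans this⟩
  fin_cases i
  · show ‖z 0‖ ≤ _
    linarith
  · show ‖z 1‖ ≤ _
    linarith
  · show ‖z 2‖ ≤ _
    linarith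
  · show ‖z 3‖ ≤ _
    linarith
  · show ‖z 4‖ ≤ _
    linarith
  · exact hmax.1
  · exact hmax.2

/-- Compactness of the preimage of a small ball. -/
lemma isCompact_preimage {s : ℂ} {ε : ℝ} (hε0 : 0 ≤ ε) (hε : ε ≤ 1 / 1200) :
    IsCompact {z : Fin 7 → ℂ | fs s z ∈ cball 11 ε} := by
  apply Metric.isCompact_of_isClosed_isBounded
  · exact (isClosed_cball _ _).preimage (continuous_fs s)
  · refine (Metric.isBounded_closedBall (x := (0 : Fin 7 → ℂ)) (r := 1)).subset ?_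
    intro z hz
    rw [mem_closedBall, dist_zero_right, pi_norm_le_iff_of_nonneg zero_le_one]
    intro i
    have := norm_le_of_fs hε0 hε hz i
    linarith

lemma conv_sq {t : ℝ} (ht0 : 0 ≤ t) (ht1 : t ≤ 1) {a b : ℂ} {B : ℝ} (hb : ‖b‖ ≤ B) :
    ‖(t : ℂ) * a + (1 - (t : ℂ)) * b‖ ^ 2 ≤ t * ‖a‖ ^ 2 + (1 - t) * B ^ 2 := by
  have h1 : ‖(t : ℂ) * a + (1 - (t : ℂ)) * b‖ ≤ t * ‖a‖ + (1 - t) * B := by
    refine (norm_add_le _ _).trans (add_le_add ?_ ?_)
    · rw [norm_mul, Complex.norm_real, Real.norm_of_nonneg ht0]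
    · have : (1 - (t : ℂ)) = ((1 - t : ℝ) : ℂ) := by push_cast; ring
      rw [norm_mul, this, Complex.norm_real, Real.norm_of_nonneg (by linarith)]
      exact mul_le_mul_of_nonneg_left hb (by linarith)
  have h2 : 0 ≤ ‖(t : ℂ) * a + (1 - (t : ℂ)) * b‖ := norm_nonneg _
  have h3 : ‖(t : ℂ) * a + (1 - (t : ℂ)) * b‖ ^ 2 ≤ (t * ‖a‖ + (1 - t) * B) ^ 2 :=
    pow_le_pow_left₀ h2 h1 2
  refine h3.trans ?_
  nlinarith [mul_nonneg (mul_nonneg ht0 (sub_nonneg.2 ht1)) (sq_nonneg (‖a‖ - B))]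

lemma conv_norm {t : ℝ} (ht0 : 0 ≤ t) (ht1 : t ≤ 1) (a b : ℂ) :
    ‖(t : ℂ) * a + (1 - (t : ℂ)) * b‖ ≤ ‖a‖ + ‖b‖ := by
  refine (norm_add_le _ _).trans (add_le_add ?_ ?_)
  · rw [norm_mul, Complex.norm_real, Real.norm_of_nonneg ht0]
    have := norm_nonneg a
    nlinarith
  · have : (1 - (t : ℂ)) = ((1 - t : ℝ) : ℂ) := by push_cast; ring
    rw [norm_mul, this, Complex.norm_real, Real.norm_of_nonneg (by linarith)]
    have := norm_nonneg b
    nlinarith

lemma norm_mul_le_mul {a b : ℂ} {A B : ℝ} (ha : ‖a‖ ≤ A) (hb : ‖b‖ ≤ B) : ‖a * b‖ ≤ A * B := by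
  rw [norm_mul]
  exact mul_le_mul ha hb (norm_nonneg _) ((norm_nonneg _).trans ha)

lemma norm_four {a b c d : ℂ} : ‖a + b - c - d‖ ≤ ‖a‖ + ‖b‖ + ‖c‖ + ‖d‖ := by
  have h1 := norm_sub_le (a + b - c) d
  have h2 := norm_sub_le (a + b) c
  have h3 := norm_add_le a b
  linarith

/-- Scaling towards a point near the origin decreases the distance. -/
lemma scale_mem {s : ℂ} {ε t : ℝ} (hε0 : 0 ≤ ε) (hε : ε ≤ 1 / 1200) (hs : ‖s‖ ≤ ε / 4)
    (ht0 : 0 ≤ t) (ht1 : t ≤ 1) {z k : Fin 7 → ℂ} (hk : ‖k‖ ≤ ‖s‖) (h : fs s z ∈ cball 11 ε) :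
    fs s ((t : ℂ) • z + (1 - (t : ℂ)) • k) ∈ cball 11 ε := by
  have hz := norm_le_of_fs hε0 hε h
  have hki : ∀ i, ‖k i‖ ≤ ‖s‖ := fun i => (norm_le_pi_norm k i).trans hk
  have hs0 := norm_nonneg s
  have hzk : ∀ i j, ‖z i * k j‖ ≤ 1 / 20 * ‖s‖ := fun i j => norm_mul_le_mul (hz i) (hki j)
  have hkz : ∀ i j, ‖k i * z j‖ ≤ 1 / 20 * ‖s‖ := fun i j => by
    rw [mul_comm]; exact hzk j i
  have hkk : ∀ i j, ‖k i * k j‖ ≤ 1 / 20 * ‖s‖ := fun i j => by
    have := norm_mul_le_mul (hki i) (hki j)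
    nlinarith
  have key : ∀ i, ‖fs s ((t : ℂ) • z + (1 - (t : ℂ)) • k) i‖ ^ 2 ≤
      t * ‖fs s z i‖ ^ 2 + (1 - t) * ‖s‖ ^ 2 := by
    -- the quadratic components
    have hq : ∀ (F Φ R : ℂ), Φ = (t : ℂ) * ((t : ℂ) * F) + (1 - (t : ℂ)) * R → ‖R‖ ≤ ‖s‖ →
        ‖Φ‖ ^ 2 ≤ t * ‖F‖ ^ 2 + (1 - t) * ‖s‖ ^ 2 := by
      intro F Φ R hΦ hR
      rw [hΦ]
      refine (conv_sq ht0 ht1 hR).trans ?_
      have e : ‖(t : ℂ) * F‖ ≤ ‖F‖ := by
        rw [norm_mul, Complex.norm_real, Real.norm_of_nonneg ht0]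
        have := norm_nonneg F
        nlinarith
      have e2 : ‖(t : ℂ) * F‖ ^ 2 ≤ ‖F‖ ^ 2 := pow_le_pow_left₀ (norm_nonneg _) e 2
      nlinarith
    intro i
    fin_cases i
    · exact conv_sq ht0 ht1 (hki 0)
    · exact conv_sq ht0 ht1 (hki 1)
    · exact conv_sq ht0 ht1 (hki 2)
    · exact conv_sq ht0 ht1 (hki 3)
    · exact conv_sq ht0 ht1 (hki 4)
    · refine hq _ _ ((t : ℂ) * (z 6 * k 0 + k 6 * z 0 - z 5 * k 1 - k 5 * z 1 + s * z 5) +
        (1 - (t : ℂ)) * (k 6 * k 0 - k 5 * k 1) + s * k 5) ?_ ?_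
      · simp [fs]
        ring
      · have a1 := conv_norm ht0 ht1 (z 6 * k 0 + k 6 * z 0 - z 5 * k 1 - k 5 * z 1 + s * z 5)
          (k 6 * k 0 - k 5 * k 1)
        have a2 := norm_add_le ((t : ℂ) * (z 6 * k 0 + k 6 * z 0 - z 5 * k 1 - k 5 * z 1 + s * z 5) +
          (1 - (t : ℂ)) * (k 6 * k 0 - k 5 * k 1)) (s * k 5)
        have a3 := norm_add_le (z 6 * k 0 + k 6 * z 0 - z 5 * k 1 - k 5 * z 1) (s * z 5)
        have a4 := norm_four (a := z 6 * k 0) (b := k 6 * z 0) (c := z 5 * k 1) (d := k 5 * z 1)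
        have a5 := norm_sub_le (k 6 * k 0) (k 5 * k 1)
        have b1 := hzk 6 0
        have b2 := hkz 6 0
        have b3 := hzk 5 1
        have b4 := hkz 5 1
        have b5 := hkk 6 0
        have b6 := hkk 5 1
        have b7 : ‖s * z 5‖ ≤ ‖s‖ * (1 / 20) := norm_mul_le_mul le_rfl (hz 5)
        have b8 : ‖s * k 5‖ ≤ ‖s‖ * ‖s‖ := norm_mul_le_mul le_rfl (hki 5)
        nlinarith
    · refine hq _ _ ((t : ℂ) * (z 6 * k 1 + k 6 * z 1 - z 5 * k 2 - k 5 * z 2) +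
        (1 - (t : ℂ)) * (k 6 * k 1 - k 5 * k 2)) ?_ ?_
      · simp [fs]
        ring
      · have a1 := conv_norm ht0 ht1 (z 6 * k 1 + k 6 * z 1 - z 5 * k 2 - k 5 * z 2)
          (k 6 * k 1 - k 5 * k 2)
        have a4 := norm_four (a := z 6 * k 1) (b := k 6 * z 1) (c := z 5 * k 2) (d := k 5 * z 2)
        have a5 := norm_sub_le (k 6 * k 1) (k 5 * k 2)
        have b1 := hzk 6 1
        have b2 := hkz 6 1
        have b3 := hzk 5 2
        have b4 := hkz 5 2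
        have b5 := hkk 6 1
        have b6 := hkk 5 2
        linarith
    · refine hq _ _ ((t : ℂ) * (z 6 * k 2 + k 6 * z 2 - z 5 * k 5 - 0) +
        (1 - (t : ℂ)) * (k 6 * k 2 - k 5 * k 5 / 2)) ?_ ?_
      · simp [fs]
        ring
      · have a1 := conv_norm ht0 ht1 (z 6 * k 2 + k 6 * z 2 - z 5 * k 5 - 0)
          (k 6 * k 2 - k 5 * k 5 / 2)
        have a4 := norm_four (a := z 6 * k 2) (b := k 6 * z 2) (c := z 5 * k 5) (d := 0)
        have a5 := norm_sub_le (k 6 * k 2) (k 5 * k 5 / 2)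
        rw [norm_div, Complex.norm_ofNat] at a5
        rw [norm_zero] at a4
        have b1 := hzk 6 2
        have b2 := hkz 6 2
        have b3 := hzk 5 5
        have b5 := hkk 6 2
        have b6 := hkk 5 5
        linarith
    · refine hq _ _ ((t : ℂ) * (z 5 * k 6 + k 5 * z 6 - 0 - 0) +
        (1 - (t : ℂ)) * (k 5 * k 6)) ?_ ?_
      · simp [fs]
        ring
      · have a1 := conv_norm ht0 ht1 (z 5 * k 6 + k 5 * z 6 - 0 - 0) (k 5 * k 6)
        have a4 := norm_four (a := z 5 * k 6) (b := k 5 * z 6) (c := 0) (d := 0)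
        rw [norm_zero] at a4
        have b1 := hzk 5 6
        have b2 := hkz 5 6
        have b5 := hkk 5 6
        linarith
    · refine hq _ _ ((t : ℂ) * (0 - z 6 * k 6 - z 5 * k 3 - k 5 * z 3) +
        (1 - (t : ℂ)) * (0 - k 6 * k 6 / 2 - k 5 * k 3)) ?_ ?_
      · simp [fs]
        ring
      · have a1 := conv_norm ht0 ht1 (0 - z 6 * k 6 - z 5 * k 3 - k 5 * z 3)
          (0 - k 6 * k 6 / 2 - k 5 * k 3)
        have a4 := norm_sub_le (0 - z 6 * k 6 - z 5 * k 3) (k 5 * z 3)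
        have a5 := norm_sub_le (0 - z 6 * k 6) (z 5 * k 3)
        have a6 := norm_sub_le 0 (z 6 * k 6)
        have a7 := norm_sub_le (0 - k 6 * k 6 / 2) (k 5 * k 3)
        have a8 := norm_sub_le 0 (k 6 * k 6 / 2)
        rw [norm_div, Complex.norm_ofNat] at a8
        rw [norm_zero] at a6 a8
        have b1 := hzk 6 6
        have b2 := hzk 5 3
        have b3 := hkz 5 3
        have b5 := hkk 6 6
        have b6 := hkk 5 3
        linarith
    · refine hq _ _ ((t : ℂ) * (z 6 * k 3 + k 6 * z 3 - z 5 * k 4 - k 5 * z 4) +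
        (1 - (t : ℂ)) * (k 6 * k 3 - k 5 * k 4)) ?_ ?_
      · simp [fs]
        ring
      · have a1 := conv_norm ht0 ht1 (z 6 * k 3 + k 6 * z 3 - z 5 * k 4 - k 5 * z 4)
          (k 6 * k 3 - k 5 * k 4)
        have a4 := norm_four (a := z 6 * k 3) (b := k 6 * z 3) (c := z 5 * k 4) (d := k 5 * z 4)
        have a5 := norm_sub_le (k 6 * k 3) (k 5 * k 4)
        have b1 := hzk 6 3
        have b2 := hkz 6 3
        have b3 := hzk 5 4
        have b4 := hkz 5 4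
        have b5 := hkk 6 3
        have b6 := hkk 5 4
        linarith
  have h1 : ∑ i, ‖fs s z i‖ ^ 2 ≤ ε ^ 2 := h
  have h2 : ∑ i, ‖fs s ((t : ℂ) • z + (1 - (t : ℂ)) • k) i‖ ^ 2 ≤
      ∑ i, (t * ‖fs s z i‖ ^ 2 + (1 - t) * ‖s‖ ^ 2) := Finset.sum_le_sum fun i _ => key i
  rw [Finset.sum_add_distrib, ← Finset.mul_sum, Finset.sum_const, Finset.card_univ,
    Fintype.card_fin] at h2
  simp only [nsmul_eq_mul] at h2
  push_cast at h2
  have h3 : ‖s‖ ^ 2 ≤ ε ^ 2 / 16 := by nlinarith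
  show ∑ i, ‖fs s ((t : ℂ) • z + (1 - (t : ℂ)) • k) i‖ ^ 2 ≤ ε ^ 2
  have h4 : t * ∑ i, ‖fs s z i‖ ^ 2 ≤ t * ε ^ 2 := mul_le_mul_of_nonneg_left h1 ht0
  have h5 : (1 - t) * ‖s‖ ^ 2 ≤ (1 - t) * (ε ^ 2 / 16) :=
    mul_le_mul_of_nonneg_left h3 (by linarith)
  have h6 : 0 ≤ (1 - t) * ε ^ 2 := mul_nonneg (by linarith) (sq_nonneg _)
  linarith

/-- Points close to the origin are mapped into the ball. -/
lemma small_mem {s : ℂ} {ε : ℝ} (hε0 : 0 ≤ ε) (hε : ε ≤ 1 / 1200) (hs : ‖s‖ ≤ ε / 4)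
    {k : Fin 7 → ℂ} (hk : ‖k‖ ≤ ‖s‖) : fs s k ∈ cball 11 ε := by
  have h0 : fs s 0 ∈ cball 11 ε := by
    have : fs s 0 = 0 := by
      ext i
      fin_cases i <;> simp [fs]
    rw [this]
    show ∑ i : Fin 11, ‖(0 : Fin 11 → ℂ) i‖ ^ 2 ≤ ε ^ 2
    simp
    positivity
  have := scale_mem (t := 0) hε0 hε hs le_rfl zero_le_one hk h0
  simpa using this

/-- Two points with the same image lie on a double point line. -/
lemma double_eq {s : ℂ} {z z' : Fin 7 → ℂ} (h : fs s z = fs s z') :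
    Ceq s (lo z) ((2 : ℂ)⁻¹ • (hi z + hi z')) (hi z - hi z') := by
  have h0 := congrFun h 0
  have h1 := congrFun h 1
  have h2 := congrFun h 2
  have h3 := congrFun h 3
  have h4 := congrFun h 4
  have h5 := congrFun h 5
  have h6 := congrFun h 6
  have h7 := congrFun h 7
  have h8 := congrFun h 8
  have h9 := congrFun h 9
  have h10 := congrFun h 10
  simp [fs] at h0 h1 h2 h3 h4 h5 h6 h7 h8 h9 h10
  simp only [Ceq, Prod.fst_sub, Prod.snd_sub, Prod.smul_fst, Prod.smul_snd, Prod.fst_add,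
      Prod.snd_add, smul_eq_mul, lo, hi]
  simp only [Matrix.cons_val]
  refine ⟨?_, ?_, ?_, ?_, ?_, ?_⟩
  · linear_combination h5 - z' 6 * h0 + z' 5 * h1
  · linear_combination h6 - z' 6 * h1 + z' 5 * h2
  · linear_combination h7 - z' 6 * h2
  · linear_combination h8
  · linear_combination (-1) * h9 - z' 5 * h3
  · linear_combination h10 - z' 6 * h3 + z' 5 * h4

/-- Scaling towards a point of the same double point line identifies the images. -/
lemma scale_eq {s : ℂ} {z z' k : Fin 7 → ℂ} (h : fs s z = fs s z')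
    (hk : Ceq s (lo k) (hi k) (hi z - hi z')) (t : ℂ) :
    fs s (t • z + (1 - t) • k) = fs s (t • z' + (1 - t) • k) := by
  have h0 := congrFun h 0
  have h1 := congrFun h 1
  have h2 := congrFun h 2
  have h3 := congrFun h 3
  have h4 := congrFun h 4
  have h5 := congrFun h 5
  have h6 := congrFun h 6
  have h7 := congrFun h 7
  have h8 := congrFun h 8
  have h9 := congrFun h 9
  have h10 := congrFun h 10
  simp [fs] at h0 h1 h2 h3 h4 h5 h6 h7 h8 h9 h10
  obtain ⟨k0, k1, k2, k3, k4, k5⟩ := hk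
  simp only [Prod.fst_sub, Prod.snd_sub, lo, hi] at k0 k1 k2 k3 k4 k5
  simp only [Matrix.cons_val] at k0 k1 k2 k3 k4 k5
  ext i
  fin_cases i
  · simp [fs, h0]
  · simp [fs, h1]
  · simp [fs, h2]
  · simp [fs, h3]
  · simp [fs, h4]
  · simp [fs]
    rw [h0, h1] at h5 ⊢
    linear_combination t ^ 2 * h5 + t * (1 - t) * k0
  · simp [fs]
    rw [h1, h2] at h6 ⊢
    linear_combination t ^ 2 * h6 + t * (1 - t) * k1
  · simp [fs]
    rw [h2] at h7 ⊢
    linear_combination t ^ 2 * h7 + t * (1 - t) * k2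
  · simp [fs]
    linear_combination t ^ 2 * h8 + t * (1 - t) * k3
  · simp [fs]
    rw [h3] at h9 ⊢
    linear_combination t ^ 2 * h9 - t * (1 - t) * k4
  · simp [fs]
    rw [h3, h4] at h10 ⊢
    linear_combination t ^ 2 * h10 + t * (1 - t) * k5

/-- **The image in a small closed ball is contractible.** -/
theorem contractible_image {s : ℂ} (hs0 : s ≠ 0) {ε : ℝ} (hε0 : 0 < ε) (hε : ε ≤ 1 / 1200)
    (hs : ‖s‖ ≤ ε / 4) : ContractibleSpace ↥(fs s '' univ ∩ cball 11 ε) := by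
  obtain ⟨c, hcc, hcb, hcm⟩ := exists_center hs0 (ε := ε)
  set X : Set (Fin 7 → ℂ) := {z | fs s z ∈ cball 11 ε} with hX
  set I : Set (Fin 11 → ℂ) := fs s '' univ ∩ cball 11 ε with hI
  have : CompactSpace X := isCompact_iff_compactSpace.1 (isCompact_preimage hε0.le hε)
  have hfc : Continuous (fs s) := continuous_fs s
  -- the quotient map
  set q : unitInterval × X → unitInterval × I :=
    fun p => (p.1, ⟨fs s p.2.1, ⟨p.2.1, mem_univ _, rfl⟩, p.2.2⟩) with hq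
  have hqc : Continuous q := by
    refine continuous_fst.prodMk (Continuous.subtype_mk ?_ _)
    exact hfc.comp (continuous_subtype_val.comp continuous_snd)
  have hqs : Function.Surjective q := by
    rintro ⟨t, Y, ⟨z, -, rfl⟩, hY⟩
    exact ⟨(t, ⟨z, hY⟩), rfl⟩
  set qC : C(unitInterval × X, unitInterval × I) := ⟨q, hqc⟩ with hqC
  have hqq : IsQuotientMap qC := hqc.isClosedMap.isQuotientMap hqc hqs
  -- the homotopy upstairs
  have hmem : ∀ (t : unitInterval) (z : X),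
      fs s ((((1 - (t : ℝ) : ℝ) : ℂ)) • z.1 + (1 - ((1 - (t : ℝ) : ℝ) : ℂ)) • c (lo z.1)) ∈ I := by
    intro t z
    refine ⟨⟨_, mem_univ _, rfl⟩, ?_⟩
    refine scale_mem hε0.le hε hs ?_ ?_ (hcb _) z.2
    · have := t.2.2
      linarith
    · have := t.2.1
      linarith
  set K : C(unitInterval × X, I) := ⟨fun p => ⟨_, hmem p.1 p.2⟩, by
    refine Continuous.subtype_mk ?_ _
    refine hfc.comp ?_
    have e0 : Continuous fun p : unitInterval × X => (p.2.1 : Fin 7 → ℂ) :=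
      continuous_subtype_val.comp continuous_snd
    have e1 : Continuous fun p : unitInterval × X => lo p.2.1 := continuous_lo.comp e0
    have e3 : Continuous fun p : unitInterval × X => ((1 - (p.1 : ℝ) : ℝ) : ℂ) := by fun_prop
    exact (e3.smul e0).add ((continuous_const.sub e3).smul (hcc.comp e1))⟩
    with hK
  have hfac : Function.FactorsThrough K qC := by
    rintro ⟨t, z⟩ ⟨t', z'⟩ h
    have ht : t = t' := congrArg Prod.fst h
    subst ht
    have h2 : fs s z.1 = fs s z'.1 := congrArg (fun p : unitInterval × I => p.2.1) h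
    apply Subtype.ext
    show fs s ((((1 - (t : ℝ) : ℝ) : ℂ)) • z.1 + (1 - ((1 - (t : ℝ) : ℝ) : ℂ)) • c (lo z.1)) =
      fs s ((((1 - (t : ℝ) : ℝ) : ℂ)) • z'.1 + (1 - ((1 - (t : ℝ) : ℝ) : ℂ)) • c (lo z'.1))
    have hlo : lo z.1 = lo z'.1 := by rw [← lo'_fs s, ← lo'_fs s, h2]
    rw [← hlo]
    by_cases hhi : hi z.1 = hi z'.1
    · have : z.1 = z'.1 := by
        ext i
        fin_cases i
        · exact congrFun hlo 0
        · exact congrFun hlo 1
        · exact congrFun hlo 2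
        · exact congrFun hlo 3
        · exact congrFun hlo 4
        · exact congrArg Prod.fst hhi
        · exact congrArg Prod.snd hhi
      rw [this]
    · have hu : ‖lo z.1‖ ≤ ε := by
        rw [← lo'_fs s]
        refine (pi_norm_le_iff_of_nonneg hε0.le).2 fun i => ?_
        have hn := norm_le_of_mem_cball hε0.le z.2
        fin_cases i
        · exact hn 0
        · exact hn 1
        · exact hn 2
        · exact hn 3
        · exact hn 4
      exact scale_eq h2 (hcm _ _ _ hu (sub_ne_zero.2 hhi) (double_eq h2)) _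
  set L : C(unitInterval × I, I) := hqq.lift K hfac with hL
  have hLq : ∀ p, L (q p) = K p := by
    intro p
    have := congrArg (fun k : C(unitInterval × X, I) => k p) (hqq.lift_comp K hfac)
    exact this
  -- the second homotopy
  have hmem2 : ∀ (t : unitInterval) (Y : I),
      fs s (c (((1 - (t : ℝ) : ℝ) : ℂ) • lo' Y.1)) ∈ I := by
    intro t Y
    exact ⟨⟨_, mem_univ _, rfl⟩, small_mem hε0.le hε hs (hcb _)⟩
  set M : C(unitInterval × I, I) := ⟨fun p => ⟨_, hmem2 p.1 p.2⟩, by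
    refine Continuous.subtype_mk ?_ _
    refine hfc.comp ?_
    have e1 : Continuous fun p : unitInterval × I => lo' p.2.1 :=
      continuous_lo'.comp (continuous_subtype_val.comp continuous_snd)
    have e3 : Continuous fun p : unitInterval × I => ((1 - (p.1 : ℝ) : ℝ) : ℂ) := by fun_prop
    exact hcc.comp (e3.smul e1)⟩ with hM
  set r : C(I, I) := ⟨fun Y => M (0, Y), by fun_prop⟩ with hr
  have hid : (ContinuousMap.id I).Homotopic r := by
    refine ⟨⟨L, ?_, ?_⟩⟩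
    · intro Y
      obtain ⟨⟨t, z⟩, hz⟩ := hqs (0, Y)
      have ht : t = 0 := by
        have := congrArg Prod.fst hz
        exact this
      subst ht
      have hLe := hLq (0, z)
      rw [hz] at hLe
      refine hLe.trans ?_
      have hY : Y = (q (0, z)).2 := by rw [hz]
      rw [hY]
      apply Subtype.ext
      show fs s ((((1 - ((0 : unitInterval) : ℝ) : ℝ) : ℂ)) • z.1 +
        (1 - ((1 - ((0 : unitInterval) : ℝ) : ℝ) : ℂ)) • c (lo z.1)) = fs s z.1
      simp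
    · intro Y
      obtain ⟨⟨t, z⟩, hz⟩ := hqs (1, Y)
      have ht : t = 1 := by
        have := congrArg Prod.fst hz
        exact this
      subst ht
      have hLe := hLq (1, z)
      rw [hz] at hLe
      refine hLe.trans ?_
      have hY : Y = (q (1, z)).2 := by rw [hz]
      rw [hY]
      apply Subtype.ext
      show fs s ((((1 - ((1 : unitInterval) : ℝ) : ℝ) : ℂ)) • z.1 +
        (1 - ((1 - ((1 : unitInterval) : ℝ) : ℝ) : ℂ)) • c (lo z.1)) =
        fs s (c (((1 - ((0 : unitInterval) : ℝ) : ℝ) : ℂ) • lo' (fs s z.1)))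
      simp [lo'_fs]
  have hconst : r.Homotopic (ContinuousMap.const I ⟨fs s (c 0), ⟨_, mem_univ _, rfl⟩,
      small_mem hε0.le hε hs (hcb _)⟩) := by
    refine ⟨⟨M, ?_, ?_⟩⟩
    · intro Y
      rfl
    · intro Y
      apply Subtype.ext
      show fs s (c (((1 - ((1 : unitInterval) : ℝ) : ℝ) : ℂ) • lo' Y.1)) = fs s (c 0)
      simp
  rw [contractible_iff_id_nullhomotopic]
  exact ⟨_, hid.trans hconst⟩

end Pool.Agent.Helper66_Germ
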