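import Mathlib

/-!
# Holomorphic map germs, `𝒜ₑ`-tangent spaces, stable perturbations: definitions
-/

set_option autoImplicit false
open Set Metric Filter Topology

namespace Pool.Agent.Helper66_Germ

/-- `f` is holomorphic near `x`: it is complex differentiable at all points of a neighbourhood
of `x`. -/
def HolAt {E F : Type*} [NormedAddCommGroup E] [NormedSpace ℂ E] [NormedAddCommGroup F]
    [NormedSpace ℂ F] (f : E → F) (x : E) : Prop := ∀ᶠ z in 𝓝 x, DifferentiableAt ℂ f z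

variable {n p : ℕ}

/-- Let `h x`, `x ∈ S`, be maps holomorphic near `x` with values in `ℂ^p` (vector fields along
the multi-germ of `f` at `S`). They belong to the `𝒜ₑ`-tangent space
`T𝒜ₑ f = tf(θ_n) + ωf(θ_p)` of the multi-germ of `f` at `S`: there are germs of holomorphic
vector fields `ξ x` at the points `x ∈ S` and `η` at the common value of `f`, such that
`h x = df (ξ x) + η ∘ f` near `x`, for all `x ∈ S`. -/
def InTangent (f : (Fin n → ℂ) → (Fin p → ℂ)) (S : Set (Fin n → ℂ))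
    (h : (Fin n → ℂ) → (Fin n → ℂ) → (Fin p → ℂ)) : Prop :=
  ∃ (ξ : (Fin n → ℂ) → (Fin n → ℂ) → (Fin n → ℂ)) (η : (Fin p → ℂ) → (Fin p → ℂ)),
    ∀ x ∈ S, HolAt (ξ x) x ∧ HolAt η (f x) ∧
      ∀ᶠ z in 𝓝 x, h x z = fderiv ℂ f z (ξ x z) + η (f z)

/-- The multi-germ of `f` at the set `S` (on which `f` should be constant) is stable:
`T𝒜ₑ f` is everything. -/
def Stable (f : (Fin n → ℂ) → (Fin p → ℂ)) (S : Set (Fin n → ℂ)) : Prop :=
  ∀ h : (Fin n → ℂ) → (Fin n → ℂ) → (Fin p → ℂ), (∀ x ∈ S, HolAt (h x) x) → InTangent f S h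

/-- The `𝒜ₑ`-codimension of the germ of `f` at `0` is at most `m`: there are `m` germs of
vector fields along `f` which span `θ(f)` modulo `T𝒜ₑ f`. -/
def AeCodimLE (f : (Fin n → ℂ) → (Fin p → ℂ)) (m : ℕ) : Prop :=
  ∃ g : Fin m → (Fin n → ℂ) → (Fin p → ℂ), (∀ i, HolAt (g i) 0) ∧
    ∀ h : (Fin n → ℂ) → (Fin p → ℂ), HolAt h 0 →
      ∃ c : Fin m → ℂ, InTangent f {0} (fun _ z => h z - ∑ i, c i • g i z)

/-- The germ of `f` at `0` is `𝒜`-finite: its `𝒜ₑ`-codimension is finite. -/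
def AFinite (f : (Fin n → ℂ) → (Fin p → ℂ)) : Prop := ∃ m, AeCodimLE f m

/-- The corank of `f` at `0`. -/
noncomputable def corank (f : (Fin n → ℂ) → (Fin p → ℂ)) : ℕ :=
  n - Module.finrank ℂ (LinearMap.range (fderiv ℂ f 0 : (Fin n → ℂ) →ₗ[ℂ] (Fin p → ℂ)))

/-- The closed (Euclidean) ball of radius `ε` around `0` in `ℂ^p`. -/
def cball (p : ℕ) (ε : ℝ) : Set (Fin p → ℂ) := {y | ∑ i, ‖y i‖ ^ 2 ≤ ε ^ 2}

/-- The germ of `f` at `0` has a stable perturbation with contractible image: there is a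
one-parameter unfolding `F(z, s) = f_s(z)`, `f_0 = f`, and a representative (an open
neighbourhood `U` of `0` on which `0` is the only zero of `f_0`) such that for all small closed
balls `B_ε` around `0` in `ℂ^p` and all `0 < |s| ≪ ε` the map `f_s` is holomorphic on `U`,
`U ∩ f_s⁻¹(B_ε)` is compact, `f_s` has only stable (multi-)germs over `B_ε`, and the image
`f_s(U) ∩ B_ε` is contractible. -/
def HasContractibleStablePerturbation (f : (Fin n → ℂ) → (Fin p → ℂ)) : Prop :=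
  ∃ (F : (Fin n → ℂ) × ℂ → (Fin p → ℂ)) (U : Set (Fin n → ℂ)),
    HolAt F (0, 0) ∧ (∀ᶠ z in 𝓝 0, F (z, 0) = f z) ∧ IsOpen U ∧ 0 ∈ U ∧
    (∀ z ∈ U, F (z, 0) = 0 → z = 0) ∧
    ∃ ε₀ > 0, ∀ ε : ℝ, 0 < ε → ε ≤ ε₀ → ∃ δ > 0, ∀ s : ℂ, s ≠ 0 → ‖s‖ < δ →
      (∀ z ∈ U, HolAt (fun z => F (z, s)) z) ∧
      IsCompact {z ∈ U | F (z, s) ∈ cball p ε} ∧
      (∀ y ∈ cball p ε, Stable (fun z => F (z, s)) {z ∈ U | F (z, s) = y}) ∧
      ContractibleSpace ↥((fun z => F (z, s)) '' U ∩ cball p ε)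

end Pool.Agent.Helper66_Germ
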