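import Pool.Agent.Helper66_Germ.Germ

/-!
# Every holomorphic function germ is `α(f) + x β(f) + y γ(f)`
-/

set_option autoImplicit false
open Set Metric Filter Topology

namespace Pool.Agent.Helper66_Germ

lemma fs_zero : fs 0 0 = 0 := by
  ext i
  fin_cases i <;> simp [fs]

/-- Division by a cubic polynomial whose coefficients depend on `Y ∈ ℂ¹¹`. -/
lemma division_param {E : Type*} [NormedAddCommGroup E] [NormedSpace ℂ E] {h : E × ℂ → ℂ}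
    (hh : HolAt h (0, 0)) {c : E → (Fin 3 → ℂ)} (hc : HolAt c 0) (hc0 : c 0 = 0) :
    ∃ K : ℕ → E → ℂ, (∀ j, HolAt (K j) 0) ∧
      ∀ᶠ p : E × ℂ in 𝓝 (0, 0), mp (c p.1) p.2 = 0 →
        h p = K 0 p.1 + p.2 * K 1 p.1 + p.2 ^ 2 * K 2 p.1 := by
  obtain ⟨H, Q, hH, -, hdiv⟩ := division 3 hh
  refine ⟨fun j e => H j (e, c e), ?_, ?_⟩
  · intro j
    refine (hH j).comp_of_eq (g := fun e => (e, c e)) ((holAt_id _).prodMk hc) ?_
    rw [hc0]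
  · have hmap : Tendsto (fun p : E × ℂ => ((p.1, c p.1, p.2) : E × (Fin 3 → ℂ) × ℂ))
        (𝓝 (0, 0)) (𝓝 (0, 0, 0)) := by
      have h1 : ContinuousAt (fun p : E × ℂ => ((p.1, c p.1, p.2) : E × (Fin 3 → ℂ) × ℂ))
          (0, 0) := by
        have h2 : HolAt (fun p : E × ℂ => c p.1) (0, 0) := hc.comp_of_eq (holAt_fst _) rfl
        exact ((holAt_fst _).prodMk (h2.prodMk (holAt_snd _))).continuousAt
      have h3 : (((0 : E × ℂ).1, c (0 : E × ℂ).1, (0 : E × ℂ).2) : E × (Fin 3 → ℂ) × ℂ) =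
          (0, 0, 0) := by
        simp [hc0]
      rw [← h3]
      exact h1
    filter_upwards [hmap.eventually hdiv] with p h1 h2
    rw [h2, zero_smul, add_zero] at h1
    rw [show p = (p.1, p.2) from rfl, h1]
    simp [Finset.sum_range_succ]

/-- **Preparation**: every function germ on the source is `α(f) + x β(f) + y γ(f)`. -/
theorem div3 {a : (Fin 7 → ℂ) → ℂ} (ha : HolAt a 0) :
    ∃ α β γ : (Fin 11 → ℂ) → ℂ, HolAt α 0 ∧ HolAt β 0 ∧ HolAt γ 0 ∧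
      ∀ᶠ z in 𝓝 0, a z = α (fs 0 z) + z 5 * β (fs 0 z) + z 6 * γ (fs 0 z) := by
  -- first divide in `x`
  set P : ((Fin 11 → ℂ) × ℂ) × ℂ → (Fin 7 → ℂ) := fun p =>
    ![p.1.1 0, p.1.1 1, p.1.1 2, p.1.1 3, p.1.1 4, p.2, p.1.2] with hP
  have hPh : HolAt P ((0, 0), 0) := by
    apply HolAt.pi
    intro i
    fin_cases i <;> simp [hP] <;> fun_prop
  have hP0 : P ((0, 0), 0) = 0 := by
    ext i
    fin_cases i <;> simp [hP]
  have hh : HolAt (fun p : ((Fin 11 → ℂ) × ℂ) × ℂ => a (P p)) ((0 : (Fin 11 → ℂ) × ℂ), 0) :=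
    ha.comp_of_eq hPh hP0
  set c1 : (Fin 11 → ℂ) × ℂ → (Fin 3 → ℂ) := fun e =>
    ![-2 * e.1 2 * e.1 8, 2 * e.1 7, 0] with hc1
  have hc1h : HolAt c1 0 := by
    apply HolAt.pi
    intro i
    fin_cases i <;> simp [hc1] <;> fun_prop
  obtain ⟨K, hK, hKd⟩ := division_param hh hc1h (by simp [hc1])
  -- then divide in `y`
  set c2 : (Fin 11 → ℂ) → (Fin 3 → ℂ) := fun e => ![2 * e 3 * e 8, 2 * e 9, 0] with hc2
  have hc2h : HolAt c2 0 := by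
    apply HolAt.pi
    intro i
    fin_cases i <;> simp [hc2] <;> fun_prop
  have hd : ∀ k, ∃ L : ℕ → (Fin 11 → ℂ) → ℂ, (∀ j, HolAt (L j) 0) ∧
      ∀ᶠ p : (Fin 11 → ℂ) × ℂ in 𝓝 (0, 0), mp (c2 p.1) p.2 = 0 →
        K k p = L 0 p.1 + p.2 * L 1 p.1 + p.2 ^ 2 * L 2 p.1 := fun k =>
    division_param (hK k) hc2h (by simp [hc2])
  choose L hL hLd using hd
  have hL' : ∀ k j, HolAt (L k j) 0 := hL
  have l00 := hL' 0 0
  have l01 := hL' 0 1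
  have l02 := hL' 0 2
  have l10 := hL' 1 0
  have l11 := hL' 1 1
  have l12 := hL' 1 2
  have l20 := hL' 2 0
  have l21 := hL' 2 1
  have l22 := hL' 2 2
  refine ⟨fun Y => L 0 0 Y - 2 * Y 9 * L 0 2 Y + Y 8 * L 1 1 Y - 2 * Y 7 * L 2 0 Y +
      Y 8 ^ 2 * L 2 2 Y,
    fun Y => -2 * Y 3 * L 0 2 Y + L 1 0 Y + Y 8 * L 2 1 Y,
    fun Y => L 0 1 Y + Y 8 * L 1 2 Y + 2 * Y 2 * L 2 0 Y, by fun_prop, by fun_prop, by fun_prop, ?_⟩
  have hf : Tendsto (fs 0) (𝓝 0) (𝓝 0) := by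
    have := (differentiable_fs 0).continuous.tendsto 0
    rwa [fs_zero] at this
  have t2 : Tendsto (fun z : Fin 7 → ℂ => ((fs 0 z, z 6) : (Fin 11 → ℂ) × ℂ)) (𝓝 0) (𝓝 (0, 0)) :=
    hf.prodMk_nhds ((continuous_apply 6).tendsto' _ _ rfl)
  have t1 : Tendsto (fun z : Fin 7 → ℂ => (((fs 0 z, z 6), z 5) : ((Fin 11 → ℂ) × ℂ) × ℂ)) (𝓝 0)
      (𝓝 ((0 : (Fin 11 → ℂ) × ℂ), 0)) := t2.prodMk_nhds ((continuous_apply 5).tendsto' _ _ rfl)
  filter_upwards [t1.eventually hKd, t2.eventually (hLd 0), t2.eventually (hLd 1),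
    t2.eventually (hLd 2)] with z h0 h1 h2 h3
  have hz : P ((fs 0 z, z 6), z 5) = z := by
    ext i
    fin_cases i <;> simp [hP, fs]
  have q7 : fs 0 z 7 = z 6 * z 2 - z 5 ^ 2 / 2 := by simp [fs]
  have q8 : fs 0 z 8 = z 5 * z 6 := by simp [fs]
  have q9 : fs 0 z 9 = - z 6 ^ 2 / 2 - z 5 * z 3 := by simp [fs]
  have u2 : fs 0 z 2 = z 2 := by simp [fs]
  have u3 : fs 0 z 3 = z 3 := by simp [fs]
  have m1 : mp (c1 (fs 0 z, z 6)) (z 5) = 0 := by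
    simp [mp, cf, hc1, Finset.sum_range_succ]
    rw [q7, q8, u2]
    ring
  have m2 : mp (c2 (fs 0 z)) (z 6) = 0 := by
    simp [mp, cf, hc2, Finset.sum_range_succ]
    rw [q9, q8, u3]
    ring
  have h0' := h0 m1
  rw [hz, h1 m2, h2 m2, h3 m2] at h0'
  rw [h0', q7, q8, q9, u2, u3]
  ring

end Pool.Agent.Helper66_Germ
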