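import Pool.Agent.Helper66_Germ.Hol

/-!
# The germ `(ℂ⁷, 0) → (ℂ¹¹, 0)` and its perturbation
-/

set_option autoImplicit false
open Set Metric Filter Topology

namespace Pool.Agent.Helper66_Germ

/-- The family of maps `f_s : ℂ⁷ → ℂ¹¹`. The coordinates of `ℂ⁷` are `a, b, c, d, e, x, y`. -/
noncomputable def fs (s : ℂ) (z : Fin 7 → ℂ) : Fin 11 → ℂ :=
  ![z 0, z 1, z 2, z 3, z 4,
    z 6 * z 0 - z 5 * z 1 + s * z 5,
    z 6 * z 1 - z 5 * z 2,
    z 6 * z 2 - z 5 ^ 2 / 2,
    z 5 * z 6,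
    - z 6 ^ 2 / 2 - z 5 * z 3,
    z 6 * z 3 - z 5 * z 4]

/-- The derivative of `f_s`. -/
noncomputable def dfs (s : ℂ) (z v : Fin 7 → ℂ) : Fin 11 → ℂ :=
  ![v 0, v 1, v 2, v 3, v 4,
    z 6 * v 0 + z 0 * v 6 - z 5 * v 1 - z 1 * v 5 + s * v 5,
    z 6 * v 1 + z 1 * v 6 - z 5 * v 2 - z 2 * v 5,
    z 6 * v 2 + z 2 * v 6 - z 5 * v 5,
    z 5 * v 6 + z 6 * v 5,
    - z 6 * v 6 - z 5 * v 3 - z 3 * v 5,
    z 6 * v 3 + z 3 * v 6 - z 5 * v 4 - z 4 * v 5]

lemma hasFDerivAt_proj {n : ℕ} (i : Fin n) (z : Fin n → ℂ) :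
    HasFDerivAt (fun z : Fin n → ℂ => z i) (ContinuousLinearMap.proj (R := ℂ) (φ := fun _ => ℂ) i) z :=
  (ContinuousLinearMap.proj (R := ℂ) (φ := fun _ : Fin n => ℂ) i).hasFDerivAt

lemma differentiable_fs_aux : Differentiable ℂ (fun p : (Fin 7 → ℂ) × ℂ => fs p.2 p.1) := by
  rw [differentiable_pi]
  intro i
  fin_cases i <;> simp [fs] <;> fun_prop

lemma differentiable_fs (s : ℂ) : Differentiable ℂ (fs s) :=
  differentiable_fs_aux.comp (differentiable_id.prodMk (differentiable_const s))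

lemma fderiv_fs (s : ℂ) (z v : Fin 7 → ℂ) : fderiv ℂ (fs s) z v = dfs s z v := by
  have key : ∀ i, HasDerivAt (fun t : ℂ => fs s (fun j => z j + t * v j) i) (dfs s z v i) 0 := by
    intro i
    have hc : ∀ j : Fin 7, HasDerivAt (fun t : ℂ => z j + t * v j) (v j) 0 := by
      intro j
      have := ((hasDerivAt_id (0 : ℂ)).mul_const (v j)).const_add (z j)
      simpa using this
    have h0 : ∀ j : Fin 7, z j + 0 * v j = z j := fun j => by ring
    fin_cases i
    · exact hc 0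
    · exact hc 1
    · exact hc 2
    · exact hc 3
    · exact hc 4
    · have := (((hc 6).mul (hc 0)).sub ((hc 5).mul (hc 1))).add ((hc 5).const_mul s)
      refine this.congr_deriv ?_
      simp [dfs]; ring
    · have := (((hc 6).mul (hc 1)).sub ((hc 5).mul (hc 2)))
      refine this.congr_deriv ?_
      simp [dfs]; ring
    · have := (((hc 6).mul (hc 2)).sub (((hc 5).pow 2).div_const 2))
      refine this.congr_deriv ?_
      simp [dfs]; ring
    · have := ((hc 5).mul (hc 6))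
      refine this.congr_deriv ?_
      simp [dfs]; ring
    · have := (((hc 6).pow 2).neg.div_const 2).sub ((hc 5).mul (hc 3))
      refine this.congr_deriv ?_
      simp [dfs]; ring
    · have := (((hc 6).mul (hc 3)).sub ((hc 5).mul (hc 4)))
      refine this.congr_deriv ?_
      simp [dfs]; ring
  have h1 : HasFDerivAt (fs s) (fderiv ℂ (fs s) z) (z + (0 : ℂ) • v) := by
    rw [zero_smul, add_zero]
    exact (differentiable_fs s z).hasFDerivAt
  have hline : HasDerivAt (fun t : ℂ => z + t • v) v 0 := by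
    have := ((hasDerivAt_id (0 : ℂ)).smul_const v).const_add z
    simpa using this
  have h2 := h1.comp_hasDerivAt (0 : ℂ) hline
  have h3 := hasDerivAt_pi.1 h2
  ext i
  have h4 := h3 i
  have h5 := key i
  refine h4.unique ?_
  exact h5

end Pool.Agent.Helper66_Germ
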