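import Mathlib
import Pool.Agent.Helper23_Squeeze.Osgood
import Pool.Agent.Helper66_Germ.Defs

/-!
# Holomorphic maps near a point: basic closure properties, parametric circle integrals, division
-/

set_option autoImplicit false
open Set Metric Filter Topology

namespace Pool.Agent.Helper66_Germ

variable {E F G : Type*} [NormedAddCommGroup E] [NormedSpace ℂ E] [NormedAddCommGroup F]
  [NormedSpace ℂ F] [NormedAddCommGroup G] [NormedSpace ℂ G]

attribute [fun_prop] HolAt

lemma HolAt.eventually {f : E → F} {x : E} (h : HolAt f x) : ∀ᶠ z in 𝓝 x, HolAt f z :=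
  eventually_eventually_nhds.2 h

lemma HolAt.differentiableAt {f : E → F} {x : E} (h : HolAt f x) : DifferentiableAt ℂ f x :=
  h.self_of_nhds

lemma HolAt.continuousAt {f : E → F} {x : E} (h : HolAt f x) : ContinuousAt f x :=
  h.differentiableAt.continuousAt

lemma isOpen_holAt (f : E → F) : IsOpen {x | HolAt f x} := by
  rw [isOpen_iff_mem_nhds]
  intro x hx
  exact HolAt.eventually hx

lemma HolAt.contDiffAt {f : E → F} {x : E} (h : HolAt f x) : ContDiffAt ℂ 1 f x :=
  Pool.Agent.Squeeze.contDiffAt_one_of_holo (isOpen_holAt f)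
    (fun _ hz => (HolAt.differentiableAt hz).differentiableWithinAt) h

lemma holAt_of_contDiffAt {f : E → F} {x : E} (h : ContDiffAt ℂ 1 f x) : HolAt f x := by
  have := h.eventually (by simp)
  filter_upwards [this] with z hz
  exact hz.differentiableAt one_ne_zero

lemma holAt_iff_contDiffAt {f : E → F} {x : E} : HolAt f x ↔ ContDiffAt ℂ 1 f x :=
  ⟨HolAt.contDiffAt, holAt_of_contDiffAt⟩

lemma holAt_of_differentiable {f : E → F} (h : Differentiable ℂ f) (x : E) : HolAt f x :=
  Eventually.of_forall fun z => h z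

@[fun_prop] lemma HolAt.comp {f : F → G} {g : E → F} {x : E} (hf : HolAt f (g x)) (hg : HolAt g x) :
    HolAt (fun z => f (g z)) x := by
  rw [holAt_iff_contDiffAt] at *
  exact ContDiffAt.comp x hf hg

lemma HolAt.comp_of_eq {f : F → G} {g : E → F} {x : E} {y : F} (hf : HolAt f y) (hg : HolAt g x)
    (h : g x = y) : HolAt (fun z => f (g z)) x := by
  subst h; exact hf.comp hg

@[fun_prop] lemma HolAt.add {f g : E → F} {x : E} (hf : HolAt f x) (hg : HolAt g x) :
    HolAt (fun z => f z + g z) x := by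
  filter_upwards [hf, hg] with z h1 h2 using h1.add h2

@[fun_prop] lemma HolAt.sub {f g : E → F} {x : E} (hf : HolAt f x) (hg : HolAt g x) :
    HolAt (fun z => f z - g z) x := by
  filter_upwards [hf, hg] with z h1 h2 using h1.sub h2

@[fun_prop] lemma HolAt.neg {f : E → F} {x : E} (hf : HolAt f x) : HolAt (fun z => - f z) x := by
  filter_upwards [hf] with z h1 using h1.neg

@[fun_prop] lemma holAt_const (c : F) (x : E) : HolAt (fun _ => c) x :=
  Eventually.of_forall fun _ => differentiableAt_const c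

@[fun_prop] lemma HolAt.smul {f : E → ℂ} {g : E → F} {x : E} (hf : HolAt f x) (hg : HolAt g x) :
    HolAt (fun z => f z • g z) x := by
  filter_upwards [hf, hg] with z h1 h2 using h1.smul h2

@[fun_prop] lemma HolAt.mul {f g : E → ℂ} {x : E} (hf : HolAt f x) (hg : HolAt g x) :
    HolAt (fun z => f z * g z) x := by
  filter_upwards [hf, hg] with z h1 h2 using h1.mul h2

@[fun_prop] lemma HolAt.inv {f : E → ℂ} {x : E} (hf : HolAt f x) (h : f x ≠ 0) :
    HolAt (fun z => (f z)⁻¹) x := by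
  have h2 : ∀ᶠ z in 𝓝 x, f z ≠ 0 := hf.continuousAt.eventually_ne h
  filter_upwards [hf, h2] with z h1 h2 using h1.inv h2

@[fun_prop] lemma HolAt.prodMk {f : E → F} {g : E → G} {x : E} (hf : HolAt f x) (hg : HolAt g x) :
    HolAt (fun z => (f z, g z)) x := by
  filter_upwards [hf, hg] with z h1 h2 using h1.prodMk h2

@[fun_prop] lemma holAt_fst (x : E × F) : HolAt (fun z : E × F => z.1) x :=
  Eventually.of_forall fun _ => differentiableAt_fst

@[fun_prop] lemma holAt_snd (x : E × F) : HolAt (fun z : E × F => z.2) x :=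
  Eventually.of_forall fun _ => differentiableAt_snd

@[fun_prop] lemma holAt_id (x : E) : HolAt (fun z : E => z) x :=
  Eventually.of_forall fun _ => differentiableAt_id

lemma HolAt.sum {ι : Type*} {s : Finset ι} {f : ι → E → F} {x : E} (h : ∀ i ∈ s, HolAt (f i) x) :
    HolAt (fun z => ∑ i ∈ s, f i z) x := by
  have : ∀ᶠ z in 𝓝 x, ∀ i ∈ s, DifferentiableAt ℂ (f i) z := (Finset.eventually_all s).2 h
  filter_upwards [this] with z hz
  exact DifferentiableAt.fun_sum hz

@[fun_prop] lemma HolAt.pow {f : E → ℂ} {x : E} (hf : HolAt f x) (n : ℕ) :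
    HolAt (fun z => f z ^ n) x := by
  filter_upwards [hf] with z h1 using h1.pow n

lemma HolAt.congr {f g : E → F} {x : E} (hf : HolAt f x) (h : f =ᶠ[𝓝 x] g) : HolAt g x := by
  filter_upwards [hf, h.eventuallyEq_nhds] with z h1 h2 using h1.congr_of_eventuallyEq h2.symm

lemma HolAt.clm {f : E → F} {x : E} (hf : HolAt f x) (L : F →L[ℂ] G) :
    HolAt (fun z => L (f z)) x := by
  filter_upwards [hf] with z h1 using L.differentiableAt.comp z h1

lemma holAt_pi {ι : Type*} [Fintype ι] {f : E → ι → ℂ} {x : E} :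
    HolAt f x ↔ ∀ i, HolAt (fun z => f z i) x := by
  unfold HolAt
  simp only [differentiableAt_pi]
  exact eventually_all

@[fun_prop] lemma HolAt.div {f g : E → ℂ} {x : E} (hf : HolAt f x) (hg : HolAt g x)
    (h : g x ≠ 0) : HolAt (fun z => f z / g z) x := by
  simp only [div_eq_mul_inv]
  exact hf.mul (hg.inv h)

@[fun_prop] lemma HolAt.pi {ι : Type*} [Fintype ι] {f : E → ι → ℂ} {x : E}
    (h : ∀ i, HolAt (fun z => f z i) x) : HolAt f x := holAt_pi.2 h

@[fun_prop] lemma holAt_apply {ι : Type*} [Fintype ι] (i : ι) (x : ι → ℂ) :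
    HolAt (fun z : ι → ℂ => z i) x := Eventually.of_forall fun _ => differentiableAt_apply i _

/-- Parametric circle integrals are holomorphic. -/
lemma holAt_circleIntegral [CompleteSpace F] {g : E × ℂ → F} {e0 : E} {r : ℝ}
    (hg : ∀ ζ ∈ sphere (0 : ℂ) |r|, HolAt g (e0, ζ)) :
    HolAt (fun e => ∮ ζ in C(0, r), g (e, ζ)) e0 := by
  set U : Set (E × ℂ) := {p | HolAt g p} with hU
  have hUo : IsOpen U := isOpen_holAt g
  have hgU : DifferentiableOn ℂ g U := fun z hz =>
    (HolAt.differentiableAt hz).differentiableWithinAt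
  have hfd : ContinuousOn (fderiv ℂ g) U := Pool.Agent.Squeeze.continuousOn_fderiv hUo hgU
  have hcomp : IsCompact (sphere (0 : ℂ) |r|) := isCompact_sphere _ _
  have hcomp2 : IsCompact ({e0} ×ˢ sphere (0 : ℂ) |r|) := isCompact_singleton.prod hcomp
  have hsub : ({e0} ×ˢ sphere (0 : ℂ) |r|) ⊆ U := by
    rintro ⟨e, ζ⟩ ⟨he, hζ⟩
    rw [mem_singleton_iff] at he
    simp only at he hζ
    subst he
    exact hg ζ hζ
  obtain ⟨C, hC⟩ := hcomp2.exists_bound_of_continuousOn (hfd.mono hsub)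
  set U' : Set (E × ℂ) := U ∩ (fun p => ‖fderiv ℂ g p‖) ⁻¹' Iio (C + 1) with hU'
  have hU'o : IsOpen U' := hfd.norm.isOpen_inter_preimage hUo isOpen_Iio
  have hsub' : ({e0} ×ˢ sphere (0 : ℂ) |r|) ⊆ U' := by
    intro p hp
    refine ⟨hsub hp, ?_⟩
    have := hC p hp
    show ‖fderiv ℂ g p‖ < C + 1
    linarith
  obtain ⟨V, W, hV, hW, hVe, hWs, hVW⟩ := generalized_tube_lemma isCompact_singleton hcomp hU'o hsub'
  have heV : V ∈ 𝓝 e0 := hV.mem_nhds (hVe rfl)
  have hmem : ∀ e ∈ V, ∀ θ : ℝ, (e, circleMap 0 r θ) ∈ U' := by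
    intro e he θ
    exact hVW ⟨he, hWs (circleMap_mem_sphere' 0 r θ)⟩
  have hcm : Continuous (circleMap 0 r) := continuous_circleMap 0 r
  have hcont : ∀ e ∈ V, Continuous fun θ : ℝ => g (e, circleMap 0 r θ) := by
    intro e he
    rw [continuous_iff_continuousAt]
    intro θ
    have h1 : ContinuousAt g (e, circleMap 0 r θ) := HolAt.continuousAt (hmem e he θ).1
    exact ContinuousAt.comp (f := fun θ : ℝ => (e, circleMap 0 r θ)) h1
      (by fun_prop)
  have hcont' : ∀ e ∈ V, Continuous fun θ : ℝ => fderiv ℂ g (e, circleMap 0 r θ) := by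
    intro e he
    rw [continuous_iff_continuousAt]
    intro θ
    have h1 : ContinuousAt (fderiv ℂ g) (e, circleMap 0 r θ) :=
      hfd.continuousAt (hUo.mem_nhds (hmem e he θ).1)
    exact ContinuousAt.comp (f := fun θ : ℝ => (e, circleMap 0 r θ)) h1
      (by fun_prop)
  filter_upwards [heV, eventually_mem_nhds_iff.2 heV] with e he heV'
  simp only [circleIntegral]
  set F' : E → ℝ → E →L[ℂ] F := fun e θ =>
    deriv (circleMap 0 r) θ • (fderiv ℂ g (e, circleMap 0 r θ)).comp (ContinuousLinearMap.inl ℂ E ℂ)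
    with hF'
  have key := intervalIntegral.hasFDerivAt_integral_of_dominated_of_fderiv_le
    (μ := MeasureTheory.volume) (a := 0) (b := 2 * Real.pi) (𝕜 := ℂ)
    (F := fun e θ => deriv (circleMap 0 r) θ • g (e, circleMap 0 r θ)) (F' := F')
    (x₀ := e) (s := V) (bound := fun _ => |r| * (C + 1)) heV' ?_ ?_ ?_ ?_ ?_ ?_
  · exact key.differentiableAt
  · filter_upwards [heV'] with e' he'
    apply Continuous.aestronglyMeasurable
    have := hcont e' he'
    simp only [deriv_circleMap]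
    exact (hcm.mul continuous_const).smul this
  · apply Continuous.intervalIntegrable
    have := hcont e he
    simp only [deriv_circleMap]
    exact (hcm.mul continuous_const).smul this
  · apply Continuous.aestronglyMeasurable
    have := hcont' e he
    simp only [hF', deriv_circleMap]
    fun_prop
  · refine Eventually.of_forall fun θ _ e' he' => ?_
    have h1 : ‖fderiv ℂ g (e', circleMap 0 r θ)‖ < C + 1 := (hmem e' he' θ).2
    simp only [hF']
    rw [norm_smul]
    have h2 : ‖deriv (circleMap 0 r) θ‖ = |r| := by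
      simp [deriv_circleMap, circleMap]
    rw [h2]
    refine mul_le_mul_of_nonneg_left ?_ (abs_nonneg r)
    refine (ContinuousLinearMap.opNorm_comp_le _ _).trans ?_
    have h3 := ContinuousLinearMap.norm_inl_le_one ℂ E ℂ
    nlinarith [norm_nonneg (fderiv ℂ g (e', circleMap 0 r θ))]
  · exact intervalIntegrable_const
  · refine Eventually.of_forall fun θ _ e' he' => ?_
    have h1 : HasFDerivAt g (fderiv ℂ g (e', circleMap 0 r θ)) (e', circleMap 0 r θ) :=
      (HolAt.differentiableAt (hmem e' he' θ).1).hasFDerivAt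
    have h2 : HasFDerivAt (fun e : E => (e, circleMap 0 r θ)) (ContinuousLinearMap.inl ℂ E ℂ) e' :=
      hasFDerivAt_prodMk_left e' _
    exact (h1.comp e' h2).const_smul _

/-! ### Division by a monic polynomial near `0` -/

/-- The coefficients of the monic polynomial with lower coefficients `c`. -/
def cf {N : ℕ} (c : Fin N → ℂ) (m : ℕ) : ℂ := if h : m < N then c ⟨m, h⟩ else 1

/-- The monic polynomial `x^N + ∑ c_m x^m`. -/
def mp {N : ℕ} (c : Fin N → ℂ) (x : ℂ) : ℂ := ∑ m ∈ Finset.range (N + 1), cf c m * x ^ m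

/-- The divided difference coefficients. -/
def kc {N : ℕ} (c : Fin N → ℂ) (i : ℕ) (ζ : ℂ) : ℂ :=
  ∑ m ∈ Finset.range (N + 1), if i < m then cf c m * ζ ^ (m - 1 - i) else 0

lemma mp_sub {N : ℕ} (c : Fin N → ℂ) (x ζ : ℂ) :
    mp c ζ - mp c x = (ζ - x) * ∑ i ∈ Finset.range N, x ^ i * kc c i ζ := by
  have h1 : ∀ m ∈ Finset.range (N + 1), cf c m * ζ ^ m - cf c m * x ^ m =
      (ζ - x) * ∑ i ∈ Finset.range N, x ^ i * (if i < m then cf c m * ζ ^ (m - 1 - i) else 0) := by
    intro m hm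
    have h2 : ∑ i ∈ Finset.range N, x ^ i * (if i < m then cf c m * ζ ^ (m - 1 - i) else 0) =
        ∑ i ∈ Finset.range m, cf c m * (x ^ i * ζ ^ (m - 1 - i)) := by
      have hsub : Finset.range m ⊆ Finset.range N := by
        apply Finset.range_subset_range.2
        have := Finset.mem_range.1 hm
        omega
      symm
      rw [← Finset.sum_subset hsub]
      · refine Finset.sum_congr rfl fun i hi => ?_
        rw [if_pos (Finset.mem_range.1 hi)]
        ring
      · intro i _ hi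
        rw [if_neg (fun h => hi (Finset.mem_range.2 h)), mul_zero]
    rw [h2, ← Finset.mul_sum]
    have h3 := (Commute.all x ζ).mul_geom_sum₂ m
    have h4 : (x - ζ) * ∑ i ∈ Finset.range m, x ^ i * ζ ^ (m - 1 - i) = x ^ m - ζ ^ m := h3
    linear_combination (cf c m) * h4
  unfold mp kc
  rw [← Finset.sum_sub_distrib, Finset.sum_congr rfl h1, ← Finset.mul_sum, Finset.sum_comm]
  simp_rw [Finset.mul_sum]

lemma differentiable_cf {N : ℕ} (m : ℕ) : Differentiable ℂ fun c : Fin N → ℂ => cf c m := by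
  unfold cf
  split_ifs <;> fun_prop

lemma differentiable_mp {N : ℕ} : Differentiable ℂ fun p : (Fin N → ℂ) × ℂ => mp p.1 p.2 := by
  unfold mp
  refine Differentiable.fun_sum fun m _ => ?_
  have := (differentiable_cf (N := N) m).comp (differentiable_fst (E := Fin N → ℂ) (F := ℂ) (𝕜 := ℂ))
  exact this.mul (differentiable_snd.pow m)

lemma differentiable_kc {N : ℕ} (i : ℕ) :
    Differentiable ℂ fun p : (Fin N → ℂ) × ℂ => kc p.1 i p.2 := by
  unfold kc
  refine Differentiable.fun_sum fun m _ => ?_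
  have := (differentiable_cf (N := N) m).comp (differentiable_fst (E := Fin N → ℂ) (F := ℂ) (𝕜 := ℂ))
  split_ifs
  · exact this.mul (differentiable_snd.pow _)
  · exact differentiable_const _

lemma mp_zero {N : ℕ} (x : ℂ) : mp (0 : Fin N → ℂ) x = x ^ N := by
  unfold mp
  rw [Finset.sum_range_succ, Finset.sum_eq_zero]
  · simp [cf]
  · intro m hm
    simp [cf, Finset.mem_range.1 hm]

/-- **Division with remainder** of holomorphic functions by a monic polynomial whose lower
coefficients are small. -/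
theorem division [CompleteSpace F] (N : ℕ) {h : E × ℂ → F} {e0 : E} (hh : HolAt h (e0, 0)) :
    ∃ (H : ℕ → E × (Fin N → ℂ) → F) (Q : E × (Fin N → ℂ) × ℂ → F),
      (∀ j, HolAt (H j) (e0, 0)) ∧ HolAt Q (e0, 0, 0) ∧
      ∀ᶠ p : E × (Fin N → ℂ) × ℂ in 𝓝 (e0, 0, 0),
        h (p.1, p.2.2) = ∑ j ∈ Finset.range N, p.2.2 ^ j • H j (p.1, p.2.1) +
          mp p.2.1 p.2.2 • Q p := by
  obtain ⟨ε, hε, hball⟩ := Metric.eventually_nhds_iff_ball.1 hh.eventually
  set r : ℝ := ε / 2 with hr
  have hr0 : 0 < r := by positivity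
  have habs : |r| = r := abs_of_pos hr0
  have hcl : ∀ ζ ∈ closedBall (0 : ℂ) r, ∀ e ∈ ball e0 ε, HolAt h (e, ζ) := by
    intro ζ hζ e he
    apply hball
    rw [← ball_prod_same]
    refine ⟨he, ?_⟩
    simp only
    exact closedBall_subset_ball (by rw [hr]; linarith) hζ
  have hne : ∀ ζ ∈ sphere (0 : ℂ) r, ζ ≠ 0 := by
    intro ζ hζ h0
    rw [h0, mem_sphere, dist_self] at hζ
    exact hr0.ne hζ
  set H : ℕ → E × (Fin N → ℂ) → F := fun j q =>
    (2 * Real.pi * Complex.I : ℂ)⁻¹ • ∮ ζ in C(0, r), ((kc q.2 j ζ) * (mp q.2 ζ)⁻¹) • h (q.1, ζ)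
    with hHdef
  set Q : E × (Fin N → ℂ) × ℂ → F := fun q =>
    (2 * Real.pi * Complex.I : ℂ)⁻¹ • ∮ ζ in C(0, r), ((ζ - q.2.2)⁻¹ * (mp q.2.1 ζ)⁻¹) • h (q.1, ζ)
    with hQdef
  refine ⟨H, Q, ?_, ?_, ?_⟩
  · intro j
    refine (holAt_const _ _).smul (f := fun _ => (2 * Real.pi * Complex.I : ℂ)⁻¹) ?_
    refine holAt_circleIntegral (g := fun p : (E × (Fin N → ℂ)) × ℂ =>
      ((kc p.1.2 j p.2) * (mp p.1.2 p.2)⁻¹) • h (p.1.1, p.2)) ?_
    intro ζ hζ
    rw [habs] at hζ
    refine HolAt.smul (HolAt.mul ?_ (HolAt.inv ?_ ?_)) ?_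
    · exact (holAt_of_differentiable (differentiable_kc j) _).comp_of_eq
        (g := fun p : (E × (Fin N → ℂ)) × ℂ => (p.1.2, p.2))
        (((holAt_snd _).comp (holAt_fst _)).prodMk (holAt_snd _)) rfl
    · exact (holAt_of_differentiable differentiable_mp _).comp_of_eq
        (g := fun p : (E × (Fin N → ℂ)) × ℂ => (p.1.2, p.2))
        (((holAt_snd _).comp (holAt_fst _)).prodMk (holAt_snd _)) rfl
    · simp only [mp_zero]
      exact pow_ne_zero _ (hne ζ hζ)
    · refine (hcl ζ (sphere_subset_closedBall hζ) e0 (mem_ball_self hε)).comp_of_eq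
        (g := fun p : (E × (Fin N → ℂ)) × ℂ => (p.1.1, p.2))
        (((holAt_fst _).comp (holAt_fst _)).prodMk (holAt_snd _)) rfl
  · refine (holAt_const _ _).smul (f := fun _ => (2 * Real.pi * Complex.I : ℂ)⁻¹) ?_
    refine holAt_circleIntegral (g := fun p : (E × (Fin N → ℂ) × ℂ) × ℂ =>
      ((p.2 - p.1.2.2)⁻¹ * (mp p.1.2.1 p.2)⁻¹) • h (p.1.1, p.2)) ?_
    intro ζ hζ
    rw [habs] at hζ
    refine HolAt.smul (HolAt.mul (HolAt.inv ?_ ?_) (HolAt.inv ?_ ?_)) ?_
    · exact (holAt_snd _).sub ((holAt_snd _).comp ((holAt_snd _).comp (holAt_fst _)))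
    · simpa using hne ζ hζ
    · exact (holAt_of_differentiable differentiable_mp _).comp_of_eq
        (g := fun p : (E × (Fin N → ℂ) × ℂ) × ℂ => (p.1.2.1, p.2))
        (((holAt_fst _).comp ((holAt_snd _).comp (holAt_fst _))).prodMk (holAt_snd _)) rfl
    · simp only [mp_zero]
      exact pow_ne_zero _ (hne ζ hζ)
    · refine (hcl ζ (sphere_subset_closedBall hζ) e0 (mem_ball_self hε)).comp_of_eq
        (g := fun p : (E × (Fin N → ℂ) × ℂ) × ℂ => (p.1.1, p.2))
        (((holAt_fst _).comp (holAt_fst _)).prodMk (holAt_snd _)) rfl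
  · -- the identity
    have hmpne : ∀ᶠ c : Fin N → ℂ in 𝓝 0, ∀ ζ ∈ sphere (0 : ℂ) r, mp c ζ ≠ 0 := by
      have hcomp : IsCompact (sphere (0 : ℂ) r) := isCompact_sphere _ _
      have hopen : IsOpen {p : (Fin N → ℂ) × ℂ | mp p.1 p.2 ≠ 0} :=
        isOpen_ne.preimage differentiable_mp.continuous
      have hsub : ({(0 : Fin N → ℂ)} ×ˢ sphere (0 : ℂ) r) ⊆ {p : (Fin N → ℂ) × ℂ | mp p.1 p.2 ≠ 0} := by
        rintro ⟨c, ζ⟩ ⟨hc, hζ⟩
        rw [mem_singleton_iff] at hc
        simp only at hc hζ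
        subst hc
        simp only [mem_ofPred_eq, mp_zero]
        exact pow_ne_zero _ (hne ζ hζ)
      obtain ⟨V, W, hV, hW, hVe, hWs, hVW⟩ :=
        generalized_tube_lemma isCompact_singleton hcomp hopen hsub
      filter_upwards [hV.mem_nhds (hVe rfl)] with c hc ζ hζ
      exact hVW (show (c, ζ) ∈ V ×ˢ W from ⟨hc, hWs hζ⟩)
    have e1 : ∀ᶠ p : E × (Fin N → ℂ) × ℂ in 𝓝 (e0, 0, 0), p.1 ∈ ball e0 ε :=
      (continuous_fst.tendsto _).eventually (ball_mem_nhds e0 hε)
    have e2 : ∀ᶠ p : E × (Fin N → ℂ) × ℂ in 𝓝 (e0, 0, 0), ∀ ζ ∈ sphere (0 : ℂ) r,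
        mp p.2.1 ζ ≠ 0 :=
      ((continuous_fst.comp continuous_snd).tendsto
        ((e0, 0, 0) : E × (Fin N → ℂ) × ℂ)).eventually hmpne
    have e3 : ∀ᶠ p : E × (Fin N → ℂ) × ℂ in 𝓝 (e0, 0, 0), p.2.2 ∈ ball (0 : ℂ) r :=
      ((continuous_snd.comp continuous_snd).tendsto
        ((e0, 0, 0) : E × (Fin N → ℂ) × ℂ)).eventually (ball_mem_nhds (0 : ℂ) hr0)
    filter_upwards [e1, e2, e3] with p h1 h2 h3
    obtain ⟨e, c, x⟩ := p
    simp only at h1 h2 h3 ⊢
    have hcont : ContinuousOn (fun ζ => h (e, ζ)) (sphere 0 r) := by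
      intro ζ hζ
      have := (hcl ζ (sphere_subset_closedBall hζ) e h1).continuousAt
      exact (ContinuousAt.comp (f := fun ζ : ℂ => (e, ζ)) this (by fun_prop)).continuousWithinAt
    have hmpc : ContinuousOn (fun ζ => (mp c ζ)⁻¹) (sphere 0 r) := by
      apply ContinuousOn.inv₀
      · exact (differentiable_mp.continuous.comp (by fun_prop :
          Continuous fun ζ : ℂ => (c, ζ))).continuousOn
      · exact h2
    have hxne : ∀ ζ ∈ sphere (0 : ℂ) r, ζ - x ≠ 0 := by
      intro ζ hζ h0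
      rw [sub_eq_zero] at h0
      rw [h0, mem_sphere] at hζ
      rw [mem_ball] at h3
      linarith
    have hxc : ContinuousOn (fun ζ : ℂ => (ζ - x)⁻¹) (sphere 0 r) := by
      apply ContinuousOn.inv₀ (by fun_prop) hxne
    have hcauchy : (2 * Real.pi * Complex.I : ℂ)⁻¹ • (∮ ζ in C(0, r), (ζ - x)⁻¹ • h (e, ζ)) =
        h (e, x) := by
      apply Complex.two_pi_I_inv_smul_circleIntegral_sub_inv_smul_of_differentiable_on_off_countable
        countable_empty h3
      · intro ζ hζ
        have := (hcl ζ hζ e h1).continuousAt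
        exact (ContinuousAt.comp (f := fun ζ : ℂ => (e, ζ)) this (by fun_prop)).continuousWithinAt
      · intro ζ hζ
        have := (hcl ζ (ball_subset_closedBall hζ.1) e h1).differentiableAt
        exact DifferentiableAt.comp ζ (f := fun ζ : ℂ => (e, ζ)) this (by fun_prop)
    rw [← hcauchy]
    simp only [hHdef, hQdef]
    have hI1 : ∀ j ∈ Finset.range N, CircleIntegrable
        (fun ζ => x ^ j • ((kc c j ζ) * (mp c ζ)⁻¹) • h (e, ζ)) 0 r := by
      intro j _
      apply ContinuousOn.circleIntegrable hr0.le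
      refine ContinuousOn.const_smul (ContinuousOn.smul (ContinuousOn.mul ?_ hmpc) hcont) _
      exact ((differentiable_kc j).continuous.comp (by fun_prop :
          Continuous fun ζ : ℂ => (c, ζ))).continuousOn
    have hI2 : CircleIntegrable (fun ζ => mp c x • ((ζ - x)⁻¹ * (mp c ζ)⁻¹) • h (e, ζ)) 0 r := by
      apply ContinuousOn.circleIntegrable hr0.le
      exact ContinuousOn.const_smul (ContinuousOn.smul (ContinuousOn.mul hxc hmpc) hcont) _
    have hsum : (∑ j ∈ Finset.range N, x ^ j • ((2 * Real.pi * Complex.I : ℂ)⁻¹ •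
        ∮ ζ in C(0, r), ((kc c j ζ) * (mp c ζ)⁻¹) • h (e, ζ))) +
        mp c x • ((2 * Real.pi * Complex.I : ℂ)⁻¹ •
          ∮ ζ in C(0, r), ((ζ - x)⁻¹ * (mp c ζ)⁻¹) • h (e, ζ)) =
        (2 * Real.pi * Complex.I : ℂ)⁻¹ • ∮ ζ in C(0, r),
          ((∑ j ∈ Finset.range N, x ^ j • ((kc c j ζ) * (mp c ζ)⁻¹) • h (e, ζ)) +
            mp c x • ((ζ - x)⁻¹ * (mp c ζ)⁻¹) • h (e, ζ)) := by
      rw [circleIntegral.integral_add _ hI2, smul_add]
      · congr 1
        · rw [circleIntegral.integral_fun_sum hI1, Finset.smul_sum]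
          refine Finset.sum_congr rfl fun j _ => ?_
          rw [circleIntegral.integral_smul, smul_comm]
        · rw [circleIntegral.integral_smul, smul_comm]
      · exact CircleIntegrable.fun_sum _ hI1
    rw [hsum]
    congr 1
    refine circleIntegral.integral_congr hr0.le fun ζ hζ => ?_
    simp only [← mul_smul, ← Finset.sum_smul, ← add_smul]
    congr 1
    have k1 := mp_sub c x ζ
    have k2 := h2 ζ hζ
    have k3 := hxne ζ hζ
    have k4 : ∑ j ∈ Finset.range N, x ^ j * (kc c j ζ * (mp c ζ)⁻¹) =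
        (∑ j ∈ Finset.range N, x ^ j * kc c j ζ) * (mp c ζ)⁻¹ := by
      rw [Finset.sum_mul]
      exact Finset.sum_congr rfl fun j _ => by ring
    rw [k4]
    field_simp
    linear_combination k1

end Pool.Agent.Helper66_Germ
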