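import Pool.Agent.Helper66_Germ.Contract
import Pool.Agent.Helper66_Germ.Charts
import Pool.Agent.Helper66_Germ.AFin

/-!
# The germ of `f_0` is unstable of corank 2 and has a stable perturbation with contractible image
-/

set_option autoImplicit false
open Set Metric Filter Topology

namespace Pool.Agent.Helper66_Germ

/-- Restriction of a tangent vector field to a line on which `f_0` has derivative `0`. -/
lemma line_deriv {η : (Fin 11 → ℂ) → (Fin 11 → ℂ)}
    (hη : HolAt η 0) {v : Fin 7 → ℂ} (hv : dfs 0 0 v = 0) (j : Fin 11) :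
    HasDerivAt (fun t : ℂ => η (fs 0 (t • v)) j) 0 0 := by
  have h1 : HasDerivAt (fun t : ℂ => t • v) v 0 := by
    simpa using (hasDerivAt_id (0 : ℂ)).smul_const v
  have h2 : HasFDerivAt (fs 0) (fderiv ℂ (fs 0) 0) ((0 : ℂ) • v) := by
    rw [zero_smul]
    exact (differentiable_fs 0 0).hasFDerivAt
  have h3 := h2.comp_hasDerivAt (0 : ℂ) h1
  rw [fderiv_fs, hv] at h3
  have h4 : HasFDerivAt η (fderiv ℂ η 0) (fs 0 ((0 : ℂ) • v)) := by
    rw [zero_smul, fs_zero]
    exact hη.differentiableAt.hasFDerivAt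
  have h5 := h4.comp_hasDerivAt (0 : ℂ) h3
  rw [map_zero] at h5
  exact (hasDerivAt_pi.1 h5) j

/-- The germ of `f_0` is not stable. -/
theorem not_stable_fs0 : ¬ Stable (fs 0) {0} := by
  intro hst
  obtain ⟨ξ, η, h⟩ := hst (fun _ z => z 5 • inq (Pi.single 0 1)) (by
    intro x _
    exact (holAt_apply 5 x).smul (holAt_const _ _))
  obtain ⟨hξ, hη, hev⟩ := h 0 rfl
  rw [fs_zero] at hη
  have hξd : DifferentiableAt ℂ (ξ 0) 0 := hξ.differentiableAt
  -- the two lines
  have hline : ∀ v : Fin 7 → ℂ, Tendsto (fun t : ℂ => t • v) (𝓝 0) (𝓝 0) := by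
    intro v
    have : Continuous fun t : ℂ => t • v := by fun_prop
    simpa using this.tendsto 0
  have hξl : ∀ v : Fin 7 → ℂ, HasDerivAt (fun t : ℂ => ξ 0 (t • v) 1)
      (fderiv ℂ (ξ 0) 0 v 1) 0 := by
    intro v
    have h1 : HasDerivAt (fun t : ℂ => t • v) v 0 := by
      simpa using (hasDerivAt_id (0 : ℂ)).smul_const v
    have h2 : HasFDerivAt (ξ 0) (fderiv ℂ (ξ 0) 0) ((0 : ℂ) • v) := by
      rw [zero_smul]
      exact hξd.hasFDerivAt
    exact (hasDerivAt_pi.1 (h2.comp_hasDerivAt (0 : ℂ) h1)) 1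
  have hmul : ∀ v : Fin 7 → ℂ, HasDerivAt (fun t : ℂ => t * ξ 0 (t • v) 1) (ξ 0 0 1) 0 := by
    intro v
    have := (hasDerivAt_id (0 : ℂ)).mul (hξl v)
    refine this.congr_deriv ?_
    simp
  -- first line
  set v5 : Fin 7 → ℂ := ![0, 0, 0, 0, 0, 1, 0] with hv5
  set v6 : Fin 7 → ℂ := ![0, 0, 0, 0, 0, 0, 1] with hv6
  have d5 : dfs 0 0 v5 = 0 := by
    ext i
    fin_cases i <;> simp [dfs, hv5]
  have d6 : dfs 0 0 v6 = 0 := by
    ext i
    fin_cases i <;> simp [dfs, hv6]
  have e5 : ∀ᶠ t : ℂ in 𝓝 0, t = - (t * ξ 0 (t • v5) 1) + η (fs 0 (t • v5)) 5 := by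
    filter_upwards [(hline v5).eventually hev] with t ht
    rw [fderiv_fs] at ht
    have := congrFun ht 5
    simp [inq, dfs, hv5] at this
    rw [hv5]
    simpa using this
  have e6 : ∀ᶠ t : ℂ in 𝓝 0, (0 : ℂ) = (t * ξ 0 (t • v6) 1) + η (fs 0 (t • v6)) 6 := by
    filter_upwards [(hline v6).eventually hev] with t ht
    rw [fderiv_fs] at ht
    have := congrFun ht 6
    simp [inq, dfs, hv6] at this
    rw [hv6]
    simpa using this
  have k5 : HasDerivAt (fun t : ℂ => - (t * ξ 0 (t • v5) 1) + η (fs 0 (t • v5)) 5)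
      (- (ξ 0 0 1) + 0) 0 := (hmul v5).neg.add (line_deriv hη d5 5)
  have k6 : HasDerivAt (fun t : ℂ => (t * ξ 0 (t • v6) 1) + η (fs 0 (t • v6)) 6)
      (ξ 0 0 1 + 0) 0 := (hmul v6).add (line_deriv hη d6 6)
  have l5 : (1 : ℂ) = - (ξ 0 0 1) + 0 :=
    ((hasDerivAt_id (0 : ℂ)).congr_of_eventuallyEq
      (by filter_upwards [e5] with t ht using ht.symm)).unique k5
  have l6 : (0 : ℂ) = ξ 0 0 1 + 0 :=
    ((hasDerivAt_const (0 : ℂ) (0 : ℂ)).congr_of_eventuallyEq
      (by filter_upwards [e6] with t ht using ht.symm)).unique k6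
  have : (1 : ℂ) = 0 := by linear_combination l5 + l6
  exact one_ne_zero this

/-- The corank of `f_0` is `2`. -/
theorem corank_fs0 : corank (fs 0) = 2 := by
  unfold corank
  set J : (Fin 5 → ℂ) →ₗ[ℂ] (Fin 11 → ℂ) :=
    { toFun := fun u => ![u 0, u 1, u 2, u 3, u 4, 0, 0, 0, 0, 0, 0]
      map_add' := by
        intro u v
        ext i
        fin_cases i <;> simp
      map_smul' := by
        intro c u
        ext i
        fin_cases i <;> simp } with hJ
  have hinj : Function.Injective J := by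
    intro u v huv
    ext i
    fin_cases i
    · exact congrFun huv 0
    · exact congrFun huv 1
    · exact congrFun huv 2
    · exact congrFun huv 3
    · exact congrFun huv 4
  have hrange : LinearMap.range (fderiv ℂ (fs 0) 0 : (Fin 7 → ℂ) →ₗ[ℂ] (Fin 11 → ℂ)) =
      LinearMap.range J := by
    ext y
    constructor
    · rintro ⟨v, rfl⟩
      refine ⟨lo v, ?_⟩
      show _ = fderiv ℂ (fs 0) 0 v
      rw [fderiv_fs]
      ext i
      fin_cases i <;> simp [dfs, hJ, lo]
    · rintro ⟨u, rfl⟩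
      refine ⟨![u 0, u 1, u 2, u 3, u 4, 0, 0], ?_⟩
      show fderiv ℂ (fs 0) 0 _ = _
      rw [fderiv_fs]
      ext i
      fin_cases i <;> simp [dfs, hJ]
  rw [hrange, LinearMap.finrank_range_of_inj hinj]
  simp

/-- The germ of `f_0` has a stable perturbation with contractible image. -/
theorem hasContractible_fs0 : HasContractibleStablePerturbation (fs 0) := by
  refine ⟨fun p => fs p.2 p.1, univ, ?_, Eventually.of_forall fun _ => rfl, isOpen_univ,
    mem_univ _, ?_, 1 / 1200, by norm_num, ?_⟩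
  · exact holAt_of_differentiable differentiable_fs_aux _
  · intro z _ hz
    have h0 := congrFun hz 0
    have h1 := congrFun hz 1
    have h2 := congrFun hz 2
    have h3 := congrFun hz 3
    have h4 := congrFun hz 4
    have h7 := congrFun hz 7
    have h9 := congrFun hz 9
    simp [fs] at h0 h1 h2 h3 h4 h7 h9
    rw [h2, mul_zero, zero_sub, neg_eq_zero] at h7
    rw [h3, mul_zero, sub_zero] at h9
    have h5 : z 5 = 0 := by simpa using h7
    have h6 : z 6 = 0 := by simpa using h9
    ext i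
    fin_cases i
    · exact h0
    · exact h1
    · exact h2
    · exact h3
    · exact h4
    · exact h5
    · exact h6
  · intro ε hε0 hε
    refine ⟨ε / 4, by positivity, ?_⟩
    intro s hs hsε
    refine ⟨fun z _ => holAt_of_differentiable (differentiable_fs s) z, ?_, ?_, ?_⟩
    · have : {z : Fin 7 → ℂ | z ∈ univ ∧ fs s z ∈ cball 11 ε} = {z | fs s z ∈ cball 11 ε} := by
        ext z; simp
      show IsCompact {z : Fin 7 → ℂ | z ∈ univ ∧ fs s z ∈ cball 11 ε}
      rw [this]
      exact isCompact_preimage hε0.le hε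
    · intro y _
      have : {z : Fin 7 → ℂ | z ∈ univ ∧ fs s z = y} = {z | fs s z = y} := by
        ext z; simp
      show Stable (fs s) {z : Fin 7 → ℂ | z ∈ univ ∧ fs s z = y}
      rw [this]
      exact stable_fs hs y
    · exact contractible_image hs hε0 hε hsε.le

end Pool.Agent.Helper66_Germ
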