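import Pool.Agent.Helper66_Germ.Stab

/-!
# Stability of the multi-germs of `f_s`, given a chart
-/

set_option autoImplicit false
open Set Metric Filter Topology

namespace Pool.Agent.Helper66_Germ

variable {s : ℂ} {Y0 : Fin 11 → ℂ}

/-- A holomorphic square root near a point where the function does not vanish. -/
lemma exists_sqrt {c : (Fin 11 → ℂ) → ℂ} (hc : HolAt c Y0) (h0 : c Y0 ≠ 0) :
    ∃ r : (Fin 11 → ℂ) → ℂ, HolAt r Y0 ∧ (∀ Y, r Y ^ 2 = c Y) ∧ r Y0 ≠ 0 := by
  have hsq : ∀ w : ℂ, (w ^ ((2 : ℕ) : ℂ)⁻¹) ^ 2 = w := fun w => Complex.cpow_nat_inv_pow w two_ne_zero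
  set r0 : ℂ := (c Y0) ^ ((2 : ℕ) : ℂ)⁻¹ with hr0
  have hr02 : r0 ^ 2 = c Y0 := hsq _
  refine ⟨fun Y => r0 * (c Y / c Y0) ^ ((2 : ℕ) : ℂ)⁻¹, ?_, ?_, ?_⟩
  · have h1 : HolAt (fun w : ℂ => w ^ ((2 : ℕ) : ℂ)⁻¹) (c Y0 / c Y0) := by
      rw [div_self h0]
      have h2 : ∀ᶠ w : ℂ in 𝓝 1, w ∈ Complex.slitPlane :=
        Complex.isOpen_slitPlane.mem_nhds Complex.one_mem_slitPlane
      filter_upwards [h2] with w hw
      exact (differentiableAt_id.cpow_const hw)
    have h3 : HolAt (fun Y => c Y / c Y0) Y0 := hc.div (holAt_const _ _) h0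
    exact (holAt_const _ _).mul (h1.comp (g := fun Y => c Y / c Y0) h3)
  · intro Y
    rw [mul_pow, hr02, hsq]
    field_simp
  · have : (c Y0 / c Y0 : ℂ) ^ ((2 : ℕ) : ℂ)⁻¹ = 1 := by
      rw [div_self h0, Complex.one_cpow]
    simp only [this, mul_one]
    intro h
    rw [h] at hr02
    apply h0
    rw [← hr02]
    simp

/-- **Stability from a chart.** -/
theorem stable_of_chart (c : Chart s Y0) : Stable (fs s) {z | fs s z = Y0} := by
  intro h hh
  obtain ⟨hid0, hR0⟩ : (∀ z, fs s z = Y0 → z 5 = c.X1 Y0 + c.θ z * c.V1 Y0 ∧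
      z 6 = c.X2 Y0 + c.θ z * c.V2 Y0 ∧ c.θ z ^ 2 = c.Cc Y0) ∧
      ∀ G, bq (c.V1 Y0) (c.V2 Y0) (c.R Y0 G) = G := ⟨c.hid.self_of_nhds, c.hR.self_of_nhds⟩
  by_cases hC : c.Cc Y0 = 0
  · -- at most one point, on the branch locus of the double cover
    by_cases hS : ∃ z0, fs s z0 = Y0
    · obtain ⟨z0, hz0⟩ := hS
      have hθ0 : ∀ z, fs s z = Y0 → c.θ z = 0 := by
        intro z hz
        have := (hid0 z hz).2.2
        rw [hC] at this
        exact pow_eq_zero_iff two_ne_zero |>.1 this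
      have hzZ : ∀ z, fs s z = Y0 → z = c.Z Y0 0 := by
        intro z hz
        have := c.eq_Z hz ⟨(hid0 z hz).1, (hid0 z hz).2.1⟩
        rw [hθ0 z hz] at this
        exact this
      have hz0Z := hzZ z0 hz0
      have hg : HolAt (fun p : (Fin 11 → ℂ) × ℂ => h z0 (c.Z p.1 p.2)) (Y0, 0) :=
        (hh z0 hz0).comp_of_eq (g := fun p : (Fin 11 → ℂ) × ℂ => c.Z p.1 p.2) c.holAt_Z' hz0Z.symm
      obtain ⟨H, Q, hH, -, hdiv⟩ := division 2 hg
      have hcvec : HolAt (fun Y => (Y, (![- c.Cc Y, 0] : Fin 2 → ℂ))) Y0 := by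
        refine (holAt_id _).prodMk ?_
        have := c.hCc
        apply HolAt.pi
        intro i
        fin_cases i <;> simp <;> fun_prop
      have hcvec0 : ((Y0, (![- c.Cc Y0, 0] : Fin 2 → ℂ)) : (Fin 11 → ℂ) × (Fin 2 → ℂ)) = (Y0, 0) := by
        rw [hC]
        simp
      set A : (Fin 11 → ℂ) → (Fin 11 → ℂ) := fun Y => H 0 (Y, ![- c.Cc Y, 0]) with hA
      set B : (Fin 11 → ℂ) → (Fin 11 → ℂ) := fun Y => H 1 (Y, ![- c.Cc Y, 0]) with hB
      have hAh : HolAt A Y0 := (hH 0).comp_of_eq hcvec hcvec0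
      have hBh : HolAt B Y0 := (hH 1).comp_of_eq hcvec hcvec0
      have hθh : HolAt c.θ z0 := c.hθ z0 hz0
      have hfh : HolAt (fs s) z0 := holAt_of_differentiable (differentiable_fs s) z0
      -- the decomposition near `z0`
      have hdec : ∀ᶠ z in 𝓝 z0, h z0 z = A (fs s z) + c.θ z • B (fs s z) := by
        have hmap : Tendsto (fun z => ((fs s z, (![- c.Cc (fs s z), 0] : Fin 2 → ℂ), c.θ z) :
            (Fin 11 → ℂ) × (Fin 2 → ℂ) × ℂ)) (𝓝 z0) (𝓝 (Y0, 0, 0)) := by
          have h1 : ContinuousAt (fun z => ((fs s z, (![- c.Cc (fs s z), 0] : Fin 2 → ℂ), c.θ z) :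
            (Fin 11 → ℂ) × (Fin 2 → ℂ) × ℂ)) z0 := by
            have h2 : HolAt (fun z => (fs s z, (![- c.Cc (fs s z), 0] : Fin 2 → ℂ))) z0 :=
              hcvec.comp_of_eq hfh hz0
            have h3 : HolAt (fun z => (![- c.Cc (fs s z), 0] : Fin 2 → ℂ)) z0 := 
              (holAt_snd _).comp h2
            exact (hfh.prodMk (h3.prodMk hθh)).continuousAt
          have h4 : ((fs s z0, (![- c.Cc (fs s z0), 0] : Fin 2 → ℂ), c.θ z0) :
            (Fin 11 → ℂ) × (Fin 2 → ℂ) × ℂ) = (Y0, 0, 0) := by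
            rw [hz0, hC, hθ0 z0 hz0]
            simp
          rw [← h4]
          exact h1
        filter_upwards [hmap.eventually hdiv, Chart.ev_fs c.hid hz0] with z h1 h2
        obtain ⟨k1, k2, k3⟩ := h2 z rfl
        have h3 : z = c.Z (fs s z) (c.θ z) := c.eq_Z rfl ⟨k1, k2⟩
        rw [← h3] at h1
        rw [h1]
        have h4 : mp (![- c.Cc (fs s z), 0] : Fin 2 → ℂ) (c.θ z) = 0 := by
          simp [mp, cf, Finset.sum_range_succ, k3]
        rw [h4, zero_smul, add_zero]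
        simp [Finset.sum_range_succ, hA, hB]
      set κ : (Fin 11 → ℂ) → (Fin 7 → ℂ) := fun Y => c.R Y (fun i => upq (B Y) i -
        bq (c.X1 Y) (c.X2 Y) (lowu (B Y)) i) with hκ
      have hκh : HolAt κ Y0 := by
        apply c.hRhol
        have h1 := holAt_upq hBh
        have h2 := holAt_bq c.hX1 c.hX2 (holAt_lowu hBh)
        exact h1.sub h2
      refine ⟨fun _ z => c.θ z • lowu (B (fs s z)) + κ (fs s z),
        fun Y => A Y - dfs s (c.Z Y 0) (κ Y) - c.Cc Y • inq (bq (c.V1 Y) (c.V2 Y) (lowu (B Y))), ?_⟩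
      intro x hx
      have hxz : x = z0 := by rw [hzZ x hx, ← hz0Z]
      subst hxz
      refine ⟨?_, ?_, ?_⟩
      · have h1 : HolAt (fun z => lowu (B (fs s z))) x := (holAt_lowu hBh).comp_of_eq hfh hz0
        have h2 : HolAt (fun z => κ (fs s z)) x := hκh.comp_of_eq hfh hz0
        exact (hθh.smul h1).add h2
      · rw [hz0]
        refine (hAh.sub (holAt_dfs (c.holAt_Z (holAt_const _ _)) hκh)).sub ?_
        exact c.hCc.smul (holAt_inq (holAt_bq c.hV1 c.hV2 (holAt_lowu hBh)))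
      · filter_upwards [hdec, Chart.ev_fs c.hid hz0, Chart.ev_fs c.hR hz0] with z h1 h2 h3
        obtain ⟨k1, k2, k3⟩ := h2 z rfl
        have h4 : z = c.Z (fs s z) (c.θ z) := c.eq_Z rfl ⟨k1, k2⟩
        rw [h1, fderiv_fs]
        have h5 := c.even_identity (fs s z) (c.θ z) k3 (A (fs s z)) (B (fs s z)) (κ (fs s z)) (h3 _)
        rw [← h4] at h5
        exact h5
    · refine ⟨fun _ _ => 0, fun _ => 0, ?_⟩
      intro x hx
      exact absurd ⟨x, hx⟩ hS
  · -- away from the branch locus: at most two points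
    obtain ⟨r, hr, hr2, hr0⟩ := exists_sqrt c.hCc hC
    have hθr : ∀ z, fs s z = Y0 → c.θ z = r Y0 ∨ c.θ z = - r Y0 := by
      intro z hz
      have := (hid0 z hz).2.2
      rw [← hr2 Y0] at this
      exact sq_eq_sq_iff_eq_or_eq_neg.1 this
    -- local inverses
    have hloc : ∀ (σ : ℂ), σ ^ 2 = 1 → ∀ z, fs s z = Y0 → c.θ z = σ * r Y0 →
        ∀ᶠ z' in 𝓝 z, z' = c.Z (fs s z') (σ * r (fs s z')) := by
      intro σ hσ z hz hzr
      have hσ0 : σ ≠ 0 := by
        rintro rfl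
        norm_num at hσ
      have hfh : HolAt (fs s) z := holAt_of_differentiable (differentiable_fs s) z
      have hcont : ContinuousAt (fun z' => c.θ z' + σ * r (fs s z')) z :=
        ((c.hθ z hz).add ((holAt_const _ _).mul (hr.comp_of_eq hfh hz))).continuousAt
      have hne : c.θ z + σ * r (fs s z) ≠ 0 := by
        rw [hz, hzr, ← two_mul]
        exact mul_ne_zero two_ne_zero (mul_ne_zero hσ0 hr0)
      filter_upwards [hcont.eventually_ne hne, Chart.ev_fs c.hid hz] with z' h1 h2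
      obtain ⟨k1, k2, k3⟩ := h2 z' rfl
      have h3 : (c.θ z' - σ * r (fs s z')) * (c.θ z' + σ * r (fs s z')) = 0 := by
        have := hr2 (fs s z')
        linear_combination k3 - σ ^ 2 * this - c.Cc (fs s z') * hσ
      have h4 : c.θ z' = σ * r (fs s z') := by
        rcases mul_eq_zero.1 h3 with h | h
        · exact sub_eq_zero.1 h
        · exact absurd h h1
      rw [← h4]
      exact c.eq_Z rfl ⟨k1, k2⟩
    have hone : ∀ (σ : ℂ), σ ^ 2 = 1 → ∀ z, fs s z = Y0 → c.θ z = σ * r Y0 →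
        z = c.Z Y0 (σ * r Y0) := by
      intro σ hσ z hz hzr
      have := (hloc σ hσ z hz hzr).self_of_nhds
      rwa [hz] at this
    have hZh : ∀ σ : ℂ, HolAt (fun Y => c.Z Y (σ * r Y)) Y0 := fun σ =>
      c.holAt_Z ((holAt_const _ _).mul hr)
    -- a single point
    have hsingle : ∀ (σ : ℂ), σ ^ 2 = 1 → (∀ z, fs s z = Y0 → c.θ z = σ * r Y0) →
        InTangent (fs s) {z | fs s z = Y0} h := by
      intro σ hσ hall
      by_cases hS : ∃ z0, fs s z0 = Y0
      · obtain ⟨z0, hz0⟩ := hS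
        have hz0Z := hone σ hσ z0 hz0 (hall z0 hz0)
        refine ⟨fun _ _ => 0, fun Y => h z0 (c.Z Y (σ * r Y)), ?_⟩
        intro x hx
        have hx' : fs s x = Y0 := hx
        have hxz : x = z0 := by rw [hone σ hσ x hx (hall x hx), ← hz0Z]
        subst hxz
        refine ⟨holAt_const _ _, ?_, ?_⟩
        · rw [hx']
          exact (hh x hx).comp_of_eq (hZh σ) hz0Z.symm
        · filter_upwards [hloc σ hσ x hx (hall x hx)] with z hz
          rw [map_zero, zero_add, ← hz]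
      · refine ⟨fun _ _ => 0, fun _ => 0, ?_⟩
        intro x hx
        exact absurd ⟨x, hx⟩ hS
    by_cases hp : ∃ z1, fs s z1 = Y0 ∧ c.θ z1 = r Y0
    swap
    · refine hsingle (-1) (by norm_num) ?_
      intro z hz
      rcases hθr z hz with h1 | h1
      · exact absurd ⟨z, hz, h1⟩ hp
      · rw [h1]; ring
    by_cases hm : ∃ z2, fs s z2 = Y0 ∧ c.θ z2 = - r Y0
    swap
    · refine hsingle 1 (by norm_num) ?_
      intro z hz
      rcases hθr z hz with h1 | h1
      · rw [h1]; ring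
      · exact absurd ⟨z, hz, h1⟩ hm
    obtain ⟨z1, hz1, hθ1⟩ := hp
    obtain ⟨z2, hz2, hθ2⟩ := hm
    have hz1Z : z1 = c.Z Y0 (1 * r Y0) := hone 1 (by norm_num) z1 hz1 (by rw [hθ1]; ring)
    have hz2Z : z2 = c.Z Y0 ((-1) * r Y0) := hone (-1) (by norm_num) z2 hz2 (by rw [hθ2]; ring)
    set P1 : (Fin 11 → ℂ) → (Fin 7 → ℂ) := fun Y => c.Z Y (1 * r Y) with hP1
    set P2 : (Fin 11 → ℂ) → (Fin 7 → ℂ) := fun Y => c.Z Y ((-1) * r Y) with hP2
    have hP1h : HolAt P1 Y0 := hZh 1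
    have hP2h : HolAt P2 Y0 := hZh (-1)
    have hh1 : HolAt (fun Y => h z1 (P1 Y)) Y0 := (hh z1 hz1).comp_of_eq hP1h hz1Z.symm
    have hh2 : HolAt (fun Y => h z2 (P2 Y)) Y0 := (hh z2 hz2).comp_of_eq hP2h hz2Z.symm
    set g : (Fin 11 → ℂ) → (Fin 11 → ℂ) := fun Y => h z2 (P2 Y) - h z1 (P1 Y) with hg
    have hgh : HolAt g Y0 := hh2.sub hh1
    set a : (Fin 11 → ℂ) → (Fin 7 → ℂ) := fun Y => (2 * r Y)⁻¹ • c.R Y (fun i => upq (g Y) i -
      bq (c.X1 Y - r Y * c.V1 Y) (c.X2 Y - r Y * c.V2 Y) (lowu (g Y)) i) with ha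
    have hah : HolAt a Y0 := by
      refine HolAt.smul (((holAt_const _ _).mul hr).inv (mul_ne_zero two_ne_zero hr0)) ?_
      apply c.hRhol
      have h1 := holAt_upq hgh
      have h2 := holAt_bq (c.hX1.sub (hr.mul c.hV1)) (c.hX2.sub (hr.mul c.hV2)) (holAt_lowu hgh)
      exact h1.sub h2
    have hident : ∀ᶠ Y in 𝓝 Y0, g Y = dfs s (P1 Y) (a Y) + dfs s (P2 Y) (- a Y + lowu (g Y)) := by
      filter_upwards [c.hR, hr.continuousAt.eventually_ne hr0] with Y h1 h2
      have h3 := c.pair_identity Y (r Y) (g Y) (a Y) (by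
        rw [ha]
        simp only
        rw [smul_smul, mul_inv_cancel₀ (mul_ne_zero two_ne_zero h2), one_smul]
        exact h1 _)
      simp only [hP1, hP2, one_mul, neg_mul]
      exact h3
    refine ⟨fun x z => if x = z1 then - a (fs s z) else - a (fs s z) + lowu (g (fs s z)),
      fun Y => h z1 (P1 Y) + dfs s (P1 Y) (a Y), ?_⟩
    intro x hx
    have hx' : fs s x = Y0 := hx
    have hfh : HolAt (fs s) x := holAt_of_differentiable (differentiable_fs s) x
    have hafh : HolAt (fun z => a (fs s z)) x := hah.comp_of_eq hfh hx'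
    have hηh : HolAt (fun Y => h z1 (P1 Y) + dfs s (P1 Y) (a Y)) (fs s x) := by
      rw [hx']
      exact hh1.add (holAt_dfs hP1h hah)
    have hz12 : z1 ≠ z2 := by
      intro h12
      rw [h12, hθ2] at hθ1
      have : (2 : ℂ) * r Y0 = 0 := by linear_combination -hθ1
      rcases mul_eq_zero.1 this with h | h
      · norm_num at h
      · exact hr0 h
    rcases hθr x hx with h1 | h1
    · have hxz : x = z1 := by
        rw [hone 1 (by norm_num) x hx (by rw [h1]; ring), ← hz1Z]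
      subst hxz
      refine ⟨?_, hηh, ?_⟩
      · simp only [if_true]
        exact hafh.neg
      · filter_upwards [hloc 1 (by norm_num) x hx (by rw [h1]; ring)] with z hz
        have hz' : P1 (fs s z) = z := hz.symm
        simp only [if_true, fderiv_fs, hz']
        have : dfs s z (- a (fs s z)) = - dfs s z (a (fs s z)) := by
          rw [← fderiv_fs, ← fderiv_fs, map_neg]
        rw [this]
        abel
    · have hxz : x = z2 := by
        rw [hone (-1) (by norm_num) x hx (by rw [h1]; ring), ← hz2Z]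
      subst hxz
      refine ⟨?_, hηh, ?_⟩
      · simp only [if_neg (Ne.symm hz12)]
        have h2 : HolAt (fun z => lowu (g (fs s z))) x := (holAt_lowu hgh).comp_of_eq hfh hx'
        exact hafh.neg.add h2
      · filter_upwards [hloc (-1) (by norm_num) x hx (by rw [h1]; ring),
          Chart.ev_fs hident hx'] with z hz hz3
        have hz' : P2 (fs s z) = z := hz.symm
        simp only [if_neg (Ne.symm hz12), fderiv_fs]
        rw [hz'] at hz3
        have h4 : g (fs s z) = h x z - h z1 (P1 (fs s z)) := by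
          simp only [hg, hz']
        have h5 : h x z = g (fs s z) + h z1 (P1 (fs s z)) := by rw [h4]; abel
        conv_lhs => rw [h5, hz3]
        abel

end Pool.Agent.Helper66_Germ
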